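import Pool.Agent.POG.Stmts

/-!
# Assembly: d-D circuits and a CNF with many models

`main_of` derives the main theorem from the statements of the modules.
-/

set_option autoImplicit false

namespace Pool.Agent.POG

open Finset

namespace Asm

/-- correlation of `T` with a product over a balanced cut -/
theorem dsc (hQSP : s_QSP) (hLND : s_LND) (hKER : s_KER) {n r : ℕ}
    {φ : Fin n → Fin 18 → Fin n}
    (hφ : ∀ S : Finset (Fin n), n ≤ 3 * S.card → 3 * S.card ≤ 2 * n →
      ∃ R : Finset (Fin n), R ⊆ S ∧ R.card = r + 1 ∧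
        LinearIndependent (ZMod 2) (fun i : R => row φ S i))
    {B : ℝ} (hB : 0 < B) {F : (Fin n → Bool) → ℝ} (hF : CutP B F) :
    |∑ x, T φ x * F x| ≤ B * Real.sqrt (4 ^ n / 2 ^ (r + 1)) := by
  obtain ⟨S, a, b, h1, h2, ha, hb, ha1, hb1, hF⟩ := hF
  obtain ⟨R, hRS, hR, hli⟩ := hφ S h1 h2
  have hk := hKER n 18 φ S R hRS hli
  rw [hR] at hk
  have hb' : DepOn Sᶜ (fun x => b x / B) := fun x y h => by
    show b x / B = b y / B
    rw [hb x y h]
  have hb1' : ∀ x, |b x / B| ≤ 1 := fun x => by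
    rw [abs_div, abs_of_pos hB, div_le_one hB]
    exact hb1 x
  have h3 := hLND hQSP n 18 (r + 1) φ S a (fun x => b x / B) ha hb' ha1 hb1' hk
  have h4 : ∑ x, T φ x * F x = B * ∑ x, T φ x * (a x * (b x / B)) := by
    rw [Finset.mul_sum]
    refine Finset.sum_congr rfl fun x _ => ?_
    rw [hF x]
    field_simp
  rw [h4, abs_mul, abs_of_pos hB]
  refine mul_le_mul_of_nonneg_left ?_ hB.le
  rw [← Real.sqrt_sq_eq_abs]
  refine Real.sqrt_le_sqrt ?_
  rw [le_div_iff₀ (by positivity)]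
  exact h3

theorem SB_pos (hRKS : s_RKS) (m k : ℕ) : (1 : ℝ) ≤ (SB m k : ℝ) := by
  exact_mod_cast hRKS.2.2.2.2.1 m k

/-- a sum of products over balanced cuts, from an expansion into local terms -/
theorem corr (hDEP : s_DEP) (hSUP : s_SUP) (hCUT : s_CUT) (hQSP : s_QSP) (hLND : s_LND)
    (hKER : s_KER) {n r : ℕ} (hn : 2 ≤ n)
    {φ : Fin n → Fin 18 → Fin n}
    (hφ : ∀ S : Finset (Fin n), n ≤ 3 * S.card → 3 * S.card ≤ 2 * n →
      ∃ R : Finset (Fin n), R ⊆ S ∧ R.card = r + 1 ∧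
        LinearIndependent (ZMod 2) (fun i : R => row φ S i))
    {G : ℕ} (C : DD n G) (i : Fin G) {B : ℝ} (hB : 1 ≤ B)
    (hD : C.Top i → ∃ D : Fin G → (Fin n → Bool) → ℝ,
      (∀ x, R (C.val i x) = ∑ p, D p x * C.loc p x) ∧
      (∀ p, (∃ x, D p x ≠ 0) → C.Top p ∧ C.vars p ⊆ C.vars i) ∧
      (∀ p, DepOn (C.vars p)ᶜ (D p)) ∧ ∀ p x, |D p x| ≤ B) :
    |∑ x, T φ x * R (C.val i x)| ≤ 2 * G * B * Real.sqrt (4 ^ n / 2 ^ (r + 1)) := by
  have hB0 : 0 < B := by linarith
  have hδ : 0 ≤ Real.sqrt ((4 : ℝ) ^ n / 2 ^ (r + 1)) := Real.sqrt_nonneg _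
  have hG : (1 : ℝ) ≤ G := by
    have : 0 < G := i.pos
    exact_mod_cast this
  by_cases ht : C.Top i
  · obtain ⟨D, h1, h2, h3, h4⟩ := hD ht
    have hsum : ∑ x, T φ x * R (C.val i x) = ∑ p, ∑ x, T φ x * (D p x * C.loc p x) := by
      rw [Finset.sum_comm]
      refine Finset.sum_congr rfl fun x _ => ?_
      rw [h1 x, Finset.mul_sum]
    rw [hsum]
    have hterm : ∀ p : Fin G, |∑ x, T φ x * (D p x * C.loc p x)| ≤
        2 * B * Real.sqrt (4 ^ n / 2 ^ (r + 1)) := by
      intro p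
      by_cases hp : ∃ x, D p x ≠ 0
      · obtain ⟨F₁, F₂, hF₁, hF₂, hF⟩ := (hCUT hDEP hSUP n G C hn).1 p (D p) B (h2 p hp).1
          (h3 p) (h4 p)
        have e : ∑ x, T φ x * (D p x * C.loc p x) =
            ∑ x, T φ x * F₁ x + ∑ x, T φ x * F₂ x := by
          rw [← Finset.sum_add_distrib]
          refine Finset.sum_congr rfl fun x _ => ?_
          rw [hF x]
          ring
        rw [e]
        have k1 := dsc hQSP hLND hKER hφ hB0 hF₁
        have k2 := dsc hQSP hLND hKER hφ hB0 hF₂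
        calc |∑ x, T φ x * F₁ x + ∑ x, T φ x * F₂ x|
            ≤ |∑ x, T φ x * F₁ x| + |∑ x, T φ x * F₂ x| := abs_add_le _ _
          _ ≤ _ := by linarith
      · push Not at hp
        have e : ∑ x, T φ x * (D p x * C.loc p x) = 0 :=
          Finset.sum_eq_zero fun x _ => by rw [hp x]; ring
        rw [e, abs_zero]
        positivity
    calc |∑ p, ∑ x, T φ x * (D p x * C.loc p x)|
        ≤ ∑ p : Fin G, |∑ x, T φ x * (D p x * C.loc p x)| := Finset.abs_sum_le_sum_abs _ _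
      _ ≤ ∑ _p : Fin G, 2 * B * Real.sqrt (4 ^ n / 2 ^ (r + 1)) :=
          Finset.sum_le_sum fun p _ => hterm p
      _ = 2 * G * B * Real.sqrt (4 ^ n / 2 ^ (r + 1)) := by
          rw [Finset.sum_const, Finset.card_univ, Fintype.card_fin, nsmul_eq_mul]
          ring
  · have h1 := (hCUT hDEP hSUP n G C hn).2 i ht
    have h2 := dsc hQSP hLND hKER hφ one_pos h1
    refine h2.trans ?_
    have : (1 : ℝ) ≤ 2 * G * B := by nlinarith
    exact mul_le_mul_of_nonneg_right this hδ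

open Classical in
/-- the advantage gives a lower bound for the correlation -/
theorem adv {n : ℕ} {φ : Fin n → Fin 18 → Fin n} (F : CNF n) (σ : ℝ) (hσ : σ = 1 ∨ σ = -1)
    (hT : ∀ x, F.Sat x → T φ x = σ) (f : (Fin n → Bool) → Bool) :
    ((univ.filter fun x => f x = true ∧ F.Sat x).card : ℝ) -
      ((univ.filter fun x => f x = true ∧ ¬F.Sat x).card : ℝ) ≤ |∑ x, T φ x * R (f x)| := by
  have hs : σ * σ = 1 := by rcases hσ with h | h <;> rw [h] <;> norm_num
  have hs1 : |σ| = 1 := by rcases hσ with h | h <;> rw [h] <;> norm_num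
  have hT1 : ∀ x, |T φ x| = 1 := by
    intro x
    unfold T
    split_ifs <;> norm_num
  have h1 : ((univ.filter fun x => f x = true ∧ F.Sat x).card : ℝ) -
      ((univ.filter fun x => f x = true ∧ ¬F.Sat x).card : ℝ) ≤ σ * ∑ x, T φ x * R (f x) := by
    rw [Finset.card_filter, Finset.card_filter, Finset.mul_sum]
    push_cast
    rw [← Finset.sum_sub_distrib]
    refine Finset.sum_le_sum fun x _ => ?_
    by_cases hf : f x = true
    · by_cases hF : F.Sat x
      · simp [hf, hF, R, hT x hF, hs]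
      · have h2 : -1 ≤ σ * T φ x := by
          have : |σ * T φ x| = 1 := by rw [abs_mul, hs1, hT1, mul_one]
          exact (abs_le.1 this.le).1
        simpa [hf, hF, R] using h2
    · have hf' : f x = false := by simpa using hf
      simp [hf', R]
  refine h1.trans ((le_abs_self _).trans ?_)
  rw [abs_mul, hs1, one_mul]

end Asm

end Pool.Agent.POG
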