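import Pool.Agent.POG.Stmts

/-!
# Few bad graphs for a given cut and a given small set of rows (module POG_BAD)
-/

set_option autoImplicit false

namespace Pool.Agent.POG

open Finset

namespace BADAux

theorem card_inst {α : Type} (p : α → Prop) (f1 f2 : Fintype α) (d1 d2 : DecidablePred p) :
    (@Finset.filter α p d1 (@univ α f1)).card = (@Finset.filter α p d2 (@univ α f2)).card := by
  obtain rfl : f1 = f2 := Subsingleton.elim _ _
  obtain rfl : d1 = d2 := Subsingleton.elim _ _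
  rfl

/-- the part of the row `i` which comes from the vertices outside the cut -/
def cc {n : ℕ} (φ : Fin n → Fin 18 → Fin n) (S : Finset (Fin n)) (i : Fin n) : Fin n → ZMod 2 :=
  fun y => if y ∈ S then 0 else ∑ t, if φ y t = i then 1 else 0

theorem row_eq {n : ℕ} (φ : Fin n → Fin 18 → Fin n) (S : Finset (Fin n)) (i : Fin n) :
    row φ S i = own S (φ i) + cc φ S i := rfl

theorem cc_congr {n : ℕ} {φ φ' : Fin n → Fin 18 → Fin n} {S : Finset (Fin n)}
    (h : ∀ y, y ∉ S → φ y = φ' y) (i : Fin n) : cc φ S i = cc φ' S i := by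
  funext y
  unfold cc
  by_cases hy : y ∈ S
  · rw [if_pos hy, if_pos hy]
  · rw [if_neg hy, if_neg hy, h y hy]

theorem num {n r s : ℕ} (h1 : 3 * s ≤ 2 * n) (h2 : 18432 * (r + 1) ≤ n) :
    512 * (s ^ 18 + 18 * ((r + 1) * n ^ (18 - 1))) ≤ n ^ 18 := by
  have h3 : 1024 * s ^ 18 ≤ n ^ 18 := by
    have h4 : (3 * s) ^ 18 ≤ (2 * n) ^ 18 := Nat.pow_le_pow_left h1 18
    rw [mul_pow, mul_pow] at h4
    have h5 : 1024 * (2 ^ 18 * n ^ 18) ≤ 3 ^ 18 * n ^ 18 := by
      rw [← mul_assoc]
      exact Nat.mul_le_mul_right _ (by norm_num)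
    have h6 : 3 ^ 18 * (1024 * s ^ 18) ≤ 3 ^ 18 * n ^ 18 := by
      calc 3 ^ 18 * (1024 * s ^ 18) = 1024 * (3 ^ 18 * s ^ 18) := by ring
        _ ≤ 1024 * (2 ^ 18 * n ^ 18) := Nat.mul_le_mul_left _ h4
        _ ≤ _ := h5
    exact Nat.le_of_mul_le_mul_left h6 (by norm_num)
  have h7 : 18432 * (r + 1) * n ^ 17 ≤ n ^ 18 := by
    calc 18432 * (r + 1) * n ^ 17 ≤ n * n ^ 17 := Nat.mul_le_mul_right _ h2
      _ = n ^ 18 := by ring
  have h8 : 2 * (512 * (s ^ 18 + 18 * ((r + 1) * n ^ (18 - 1)))) =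
      1024 * s ^ 18 + 18432 * (r + 1) * n ^ 17 := by
    norm_num
    ring
  omega

theorem finr {n r : ℕ} (f : Fin n → Fin n → ZMod 2) (R : Finset (Fin n)) (h : R.card ≤ r) :
    Module.finrank (ZMod 2) (Submodule.span (ZMod 2) (f '' (R : Set (Fin n)))) ≤ r := by
  classical
  have h1 : f '' (R : Set (Fin n)) = ((R.image f : Finset _) : Set (Fin n → ZMod 2)) := by
    rw [Finset.coe_image]
  rw [h1]
  exact (finrank_span_finset_le_card _).trans (Finset.card_image_le.trans h)

end BADAux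

open BADAux in
/-- BAD: few bad graphs. -/
theorem t_BAD : s_BAD := by
  classical
  intro hROW hFIB n r S R hRS hr hS hn
  have hfib := hFIB (Fin n) (Fin 18 → Fin n) (S \ R) (S.card ^ 18 + 18 * ((r + 1) * n ^ (18 - 1)))
    (fun φ i ψ => own S ψ + cc φ S i ∈ Submodule.span (ZMod 2) (row φ S '' (R : Set (Fin n))))
    (by
      intro φ φ' h i b hb
      have h1 : ∀ y, y ∉ S → φ y = φ' y := fun y hy =>
        h y fun hy' => hy (Finset.mem_sdiff.mp hy').1
      have h2 : ∀ y, y ∈ R → φ y = φ' y := fun y hy =>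
        h y fun hy' => (Finset.mem_sdiff.mp hy').2 hy
      have h3 : row φ S '' (R : Set (Fin n)) = row φ' S '' (R : Set (Fin n)) := by
        refine Set.image_congr fun j hj => ?_
        rw [row_eq, row_eq, cc_congr h1 j, h2 j (Finset.mem_coe.mp hj)]
      rw [← h3, ← cc_congr h1 i]
      exact hb)
    (fun φ i _ => by
      refine (le_of_eq (card_inst _ _ _ _ _)).trans
        (hROW n 18 r S (cc φ S i) _ (finr (row φ S) R hr)))
  have h1 : (univ.filter fun φ : Fin n → Fin 18 → Fin n => ∀ i ∈ S \ R,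
      row φ S i ∈ Submodule.span (ZMod 2) (row φ S '' (R : Set (Fin n)))).card ≤
      (S.card ^ 18 + 18 * ((r + 1) * n ^ (18 - 1))) ^ (S \ R).card *
        Fintype.card (Fin 18 → Fin n) ^ (Fintype.card (Fin n) - (S \ R).card) :=
    (le_of_eq (card_inst _ _ _ _ _)).trans hfib
  rw [Fintype.card_fun, Fintype.card_fin, Fintype.card_fin, Finset.card_sdiff_of_subset hRS] at h1
  have ha : S.card - R.card ≤ n := by
    have := Finset.card_le_univ S
    rw [Fintype.card_fin] at this
    omega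
  have h2 := num hS hn
  calc _ ≤ (S.card ^ 18 + 18 * ((r + 1) * n ^ (18 - 1))) ^ (S.card - R.card) *
        (n ^ 18) ^ (n - (S.card - R.card)) * 512 ^ (S.card - R.card) :=
          Nat.mul_le_mul_right _ ((le_of_eq (card_inst _ _ _ _ _)).trans h1)
    _ = (512 * (S.card ^ 18 + 18 * ((r + 1) * n ^ (18 - 1)))) ^ (S.card - R.card) *
          (n ^ 18) ^ (n - (S.card - R.card)) := by
          rw [mul_pow 512]
          ring
    _ ≤ (n ^ 18) ^ (S.card - R.card) * (n ^ 18) ^ (n - (S.card - R.card)) :=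
          Nat.mul_le_mul_right _ (Nat.pow_le_pow_left h2 _)
    _ = (n ^ 18) ^ n := by
          rw [← pow_add, Nat.add_sub_of_le ha]

end Pool.Agent.POG
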