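import Pool.Agent.POG.Stmts

/-!
# Expansion of a circuit down to local terms
-/

set_option autoImplicit false

namespace Pool.Agent.POG

open Finset

namespace CHNAux

open Classical in
/-- The set of the large NOT gates up to `i`. -/
noncomputable def NN {n G : ℕ} (C : DD n G) (i : Fin G) : Finset (Fin G) :=
  univ.filter fun q => C.Neg q ∧ q ≤ i

theorem R_not (b : Bool) : R (!b) = 1 - R b := by
  cases b <;> simp [R]

theorem step {n G : ℕ} (hRKS : s_RKS) (C : DD n G) (h : Fin G → ℕ) (hh : C.Height h)
    (i : Fin G)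
    (ih : ∀ a, a < i → C.Top a → ∃ D : Fin G → (Fin n → Bool) → ℝ,
      (∀ x, R (C.val a x) = ∑ p, D p x * C.loc p x) ∧
      (∀ p, (∃ x, D p x ≠ 0) → C.Top p ∧ C.vars p ⊆ C.vars a) ∧
      (∀ p, DepOn (C.vars p)ᶜ (D p)) ∧
      ∀ p x, |D p x| ≤ (SB (NN C a).card (h a) : ℝ))
    (p : Fin G) (hpi : p ≤ i) (hp : C.Top p) :
    ∃ E : Fin G → (Fin n → Bool) → ℝ,
      (∀ x, C.loc' p x = C.loc p x - ∑ q, E q x * C.loc q x) ∧
      (∀ q, (∃ x, E q x ≠ 0) → C.Top q ∧ C.vars q ⊆ C.vars p) ∧
      (∀ q, DepOn (C.vars q)ᶜ (E q)) ∧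
      (∀ q x, p ∉ NN C i → E q x = 0) ∧
      (∀ q x, |E q x| ≤ (SB ((NN C i).filter fun q => q < p).card (h p - 1) : ℝ)) ∧
      (p ∈ NN C i → 1 ≤ h p) := by
  classical
  obtain ⟨-, -, r3, r4, r5, -⟩ := hRKS
  have hzero : (∀ x, C.loc' p x = C.loc p x) → (p ∈ NN C i → 1 ≤ h p) →
      ∃ E : Fin G → (Fin n → Bool) → ℝ,
      (∀ x, C.loc' p x = C.loc p x - ∑ q, E q x * C.loc q x) ∧
      (∀ q, (∃ x, E q x ≠ 0) → C.Top q ∧ C.vars q ⊆ C.vars p) ∧
      (∀ q, DepOn (C.vars q)ᶜ (E q)) ∧
      (∀ q x, p ∉ NN C i → E q x = 0) ∧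
      (∀ q x, |E q x| ≤ (SB ((NN C i).filter fun q => q < p).card (h p - 1) : ℝ)) ∧
      (p ∈ NN C i → 1 ≤ h p) := by
    intro h1 h2
    refine ⟨fun _ _ => 0, ?_, ?_, ?_, ?_, ?_, h2⟩
    · intro x
      simp [h1 x]
    · rintro q ⟨x, hx⟩
      exact absurd rfl hx
    · intro q x y _
      rfl
    · intro q x _
      rfl
    · intro q x
      rw [abs_zero]
      exact Nat.cast_nonneg _
  have hnn : (¬ ∃ a, C.node p = .neg a) → (p ∈ NN C i → 1 ≤ h p) := by
    intro hno hmem
    rw [NN, mem_filter] at hmem
    exact absurd hmem.2.1.1 hno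
  cases hnode : C.node p with
  | leaf S f =>
    refine hzero (fun x => ?_) (hnn ?_)
    · simp only [DD.loc', hnode]
    · rintro ⟨a, ha⟩
      rw [hnode] at ha
      cases ha
  | and a b =>
    refine hzero (fun x => ?_) (hnn ?_)
    · simp only [DD.loc', hnode]
    · rintro ⟨a, ha⟩
      rw [hnode] at ha
      cases ha
  | or a b =>
    refine hzero (fun x => ?_) (hnn ?_)
    · simp only [DD.loc', hnode]
    · rintro ⟨a, ha⟩
      rw [hnode] at ha
      cases ha
  | neg a =>
    have hap : a < p := by
      apply C.acyc p a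
      rw [hnode]
      rfl
    have hvars : C.vars p = C.vars a := by
      rw [C.vars_eq p, hnode]
      rfl
    have hNeg : C.Neg p := ⟨⟨a, hnode⟩, hp.1⟩
    have hmem : p ∈ NN C i := by
      rw [NN, mem_filter]
      exact ⟨mem_univ _, hNeg, hpi⟩
    have hha : h a + 1 ≤ h p := hh.2 p a hNeg hnode
    have hval : ∀ x, R (C.val p x) = 1 - R (C.val a x) := by
      intro x
      rw [C.val_eq p x, hnode]
      exact R_not _
    have hloc' : ∀ x, C.loc' p x = R (C.val p x) := by
      intro x
      simp only [DD.loc', hnode]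
    have hloc : ∀ x, C.loc p x = 1 := by
      intro x
      simp only [DD.loc, hnode]
    by_cases hta : C.Top a
    · obtain ⟨D, d1, d2, d3, d4⟩ := ih a (lt_of_lt_of_le hap hpi) hta
      refine ⟨D, ?_, ?_, d3, ?_, ?_, fun _ => by omega⟩
      · intro x
        rw [hloc', hloc, hval, d1]
      · intro q hq
        rw [hvars]
        exact d2 q hq
      · intro q x hn
        exact absurd hmem hn
      · intro q x
        refine (d4 q x).trans ?_
        have hsub : NN C a ⊆ (NN C i).filter fun q => q < p := by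
          intro q hq
          rw [NN, mem_filter] at hq
          rw [mem_filter, NN, mem_filter]
          exact ⟨⟨mem_univ _, hq.2.1, (hq.2.2.trans hap.le).trans hpi⟩,
            lt_of_le_of_lt hq.2.2 hap⟩
        have h1 := r3 _ _ (h a) (card_le_card hsub)
        have h2 := r4 ((NN C i).filter fun q => q < p).card (h a) (h p - 1) (by omega)
        exact_mod_cast h1.trans h2
    · refine hzero (fun x => ?_) (fun _ => by omega)
      rw [hloc', hloc, hval]
      have : C.val a x ≠ true := by
        intro hx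
        apply hta
        refine ⟨?_, x, hx⟩
        rw [← hvars]
        exact hp.1
      have : C.val a x = false := by simpa using this
      rw [this]
      simp [R]

end CHNAux

open CHNAux

open Classical in
theorem t_CHN : s_CHN := by
  intro hDEP hWDC hRKS n G C hn h hh i
  have key : ∀ i, C.Top i → ∃ D : Fin G → (Fin n → Bool) → ℝ,
      (∀ x, R (C.val i x) = ∑ p, D p x * C.loc p x) ∧
      (∀ p, (∃ x, D p x ≠ 0) → C.Top p ∧ C.vars p ⊆ C.vars i) ∧
      (∀ p, DepOn (C.vars p)ᶜ (D p)) ∧
      ∀ p x, |D p x| ≤ (SB (NN C i).card (h i) : ℝ) := by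
    intro i
    induction i using WellFoundedLT.induction with
    | _ i ih =>
    intro hi
    obtain ⟨W, hW1, hW2, hW3, hW4, hW5⟩ := hWDC hDEP n G C hn i hi
    have hex : ∀ p, ∃ E : Fin G → (Fin n → Bool) → ℝ, p ≤ i → C.Top p →
        (∀ x, C.loc' p x = C.loc p x - ∑ q, E q x * C.loc q x) ∧
        (∀ q, (∃ x, E q x ≠ 0) → C.Top q ∧ C.vars q ⊆ C.vars p) ∧
        (∀ q, DepOn (C.vars q)ᶜ (E q)) ∧
        (∀ q x, p ∉ NN C i → E q x = 0) ∧
        (∀ q x, |E q x| ≤ (SB ((NN C i).filter fun q => q < p).card (h p - 1) : ℝ)) ∧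
        (p ∈ NN C i → 1 ≤ h p) := by
      intro p
      by_cases hp : p ≤ i ∧ C.Top p
      · obtain ⟨E, hE⟩ := step hRKS C h hh i ih p hp.1 hp.2
        exact ⟨E, fun _ _ => hE⟩
      · exact ⟨fun _ _ => 0, fun h1 h2 => absurd ⟨h1, h2⟩ hp⟩
    choose E hE using hex
    have hWp : ∀ p x, W p x ≠ 0 → p ≤ i ∧ C.Top p ∧ C.vars p ⊆ C.vars i ∧ h p ≤ h i := by
      intro p x hx
      obtain ⟨a1, a2, a3, a4⟩ := hW4 p ⟨x, hx⟩
      exact ⟨a2, a1, a3, a4 h hh.1⟩
    obtain ⟨r1, r2, r3, r4, r5, r6⟩ := hRKS
    refine ⟨fun q x => W q x - ∑ p, W p x * E p q x, ?_, ?_, ?_, ?_⟩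
    · intro x
      rw [hW1 x]
      have h1 : ∀ p, W p x * C.loc' p x =
          W p x * C.loc p x - ∑ q, W p x * E p q x * C.loc q x := by
        intro p
        by_cases hp : W p x = 0
        · simp [hp]
        · obtain ⟨b1, b2, -, -⟩ := hWp p x hp
          rw [(hE p b1 b2).1 x, mul_sub, mul_sum]
          congr 1
          refine sum_congr rfl fun q _ => ?_
          ring
      rw [sum_congr rfl fun p _ => h1 p, sum_sub_distrib, sum_comm, ← sum_sub_distrib]
      refine sum_congr rfl fun q _ => ?_
      rw [sub_mul, sum_mul]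
    · rintro q ⟨x, hx⟩
      by_cases hq : W q x = 0
      · have h2 : ∑ p, W p x * E p q x ≠ 0 := by
          intro h0
          apply hx
          change W q x - ∑ p, W p x * E p q x = 0
          rw [hq, h0, sub_zero]
        obtain ⟨p, -, hp⟩ := exists_ne_zero_of_sum_ne_zero h2
        obtain ⟨b1, b2, b3, -⟩ := hWp p x (left_ne_zero_of_mul hp)
        obtain ⟨c1, c2⟩ := (hE p b1 b2).2.1 q ⟨x, right_ne_zero_of_mul hp⟩
        exact ⟨c1, c2.trans b3⟩
      · obtain ⟨b1, b2, b3, -⟩ := hWp q x hq
        exact ⟨b2, b3⟩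
    · intro q x y hxy
      have h1 : W q x = W q y := hW5 q x y hxy
      have h2 : ∀ p, W p x * E p q x = W p y * E p q y := by
        intro p
        by_cases hp : p ≤ i ∧ C.Top p
        · have h3 : E p q x = E p q y := (hE p hp.1 hp.2).2.2.1 q x y hxy
          by_cases h4 : E p q x = 0
          · rw [← h3, h4, mul_zero, mul_zero]
          · obtain ⟨-, c2⟩ := (hE p hp.1 hp.2).2.1 q ⟨x, h4⟩
            have h5 : W p x = W p y := by
              apply hW5 p x y
              intro v hv
              apply hxy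
              rw [mem_compl] at hv ⊢
              exact fun hv' => hv (c2 hv')
            rw [h3, h5]
        · have h6 : W p x = 0 := by
            by_contra h0
            obtain ⟨b1, b2, -, -⟩ := hWp p x h0
            exact hp ⟨b1, b2⟩
          have h7 : W p y = 0 := by
            by_contra h0
            obtain ⟨b1, b2, -, -⟩ := hWp p y h0
            exact hp ⟨b1, b2⟩
          rw [h6, h7, zero_mul, zero_mul]
      change W q x - ∑ p, W p x * E p q x = W q y - ∑ p, W p y * E p q y
      rw [h1, sum_congr rfl fun p _ => h2 p]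
    · intro q x
      have habs : |W q x - ∑ p, W p x * E p q x| ≤ 1 + ∑ p, |W p x * E p q x| := by
        have h1 : |W q x| ≤ 1 := by
          rw [abs_of_nonneg (hW2 q x)]
          exact hW3 q x
        have h2 : |∑ p, W p x * E p q x| ≤ ∑ p, |W p x * E p q x| := abs_sum_le_sum_abs _ _
        have h3 := abs_sub (W q x) (∑ p, W p x * E p q x)
        linarith
      refine habs.trans ?_
      rcases Nat.eq_zero_or_pos (h i) with h0 | hpos
      · have hz : ∀ p, |W p x * E p q x| = 0 := by
          intro p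
          by_cases hp : W p x = 0
          · simp [hp]
          · obtain ⟨b1, b2, -, b4⟩ := hWp p x hp
            obtain ⟨-, -, -, e4, -, e6⟩ := hE p b1 b2
            by_cases hm : p ∈ NN C i
            · have := e6 hm
              omega
            · rw [e4 q x hm]
              simp
        rw [sum_congr rfl fun p _ => hz p, sum_const_zero, add_zero, h0]
        exact_mod_cast r5 _ _
      · have hb : ∀ p, |W p x * E p q x| ≤
            if p ∈ NN C i then (SB ((NN C i).filter fun q => q < p).card (h i - 1) : ℝ) else 0 := by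
          intro p
          by_cases hp : W p x = 0
          · rw [hp, zero_mul, abs_zero]
            split_ifs
            · exact Nat.cast_nonneg _
            · exact le_rfl
          · obtain ⟨b1, b2, -, b4⟩ := hWp p x hp
            obtain ⟨-, -, -, e4, e5, e6⟩ := hE p b1 b2
            split_ifs with hm
            · rw [abs_mul, abs_of_nonneg (hW2 p x)]
              have h1 := e5 q x
              have h2 : (SB ((NN C i).filter fun q => q < p).card (h p - 1) : ℝ) ≤
                  (SB ((NN C i).filter fun q => q < p).card (h i - 1) : ℝ) := by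
                exact_mod_cast r4 _ _ _ (by omega)
              calc W p x * |E p q x| ≤ 1 * |E p q x| :=
                    mul_le_mul_of_nonneg_right (hW3 p x) (abs_nonneg _)
                _ ≤ _ := by rw [one_mul]; exact h1.trans h2
            · rw [e4 q x hm]
              simp
        have hsum : ∑ p, |W p x * E p q x| ≤
            ∑ p ∈ NN C i, (SB ((NN C i).filter fun q => q < p).card (h i - 1) : ℝ) := by
          refine (sum_le_sum fun p _ => hb p).trans (le_of_eq ?_)
          rw [← sum_filter]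
          congr 1
          ext p
          simp
        have h1 := r1 G (NN C i) (fun t => (SB t (h i - 1) : ℝ))
        have h2 := r2 (NN C i).card (h i - 1)
        rw [Nat.sub_add_cancel hpos] at h2
        have h3 : (1 : ℝ) + ∑ t ∈ range (NN C i).card, (SB t (h i - 1) : ℝ) =
            (SB (NN C i).card (h i) : ℝ) := by
          exact_mod_cast h2
        rw [← h3, ← h1]
        linarith
  exact key i

end Pool.Agent.POG
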