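import Pool.Agent.POG.Stmts

/-!
# A local condition as a CNF
-/

set_option autoImplicit false

namespace Pool.Agent.POG

open Finset

open Classical in
theorem t_CNF : s_CNF := by
  intro n U P hP
  let α : Finset (Fin n) → Fin n → Bool := fun A v => decide (v ∈ A)
  let cl : Finset (Fin n) → Finset (Fin n × Bool) := fun A => U.image fun v => (v, !(α A v))
  refine ⟨(U.powerset.filter fun A => ¬ P (α A)).image cl, ?_, ?_, ?_⟩
  · intro c hc
    rw [mem_image] at hc
    obtain ⟨A, -, rfl⟩ := hc
    exact card_image_le
  · calc ((U.powerset.filter fun A => ¬ P (α A)).image cl).card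
        ≤ (U.powerset.filter fun A => ¬ P (α A)).card := card_image_le
      _ ≤ U.powerset.card := card_filter_le _ _
      _ = 2 ^ U.card := card_powerset U
  · intro x
    constructor
    · intro hS
      by_contra hx
      let A := U.filter fun v => x v = true
      have hA : ∀ v ∈ U, x v = α A v := by
        intro v hv
        by_cases h : x v = true
        · have : v ∈ A := mem_filter.2 ⟨hv, h⟩
          simp [α, this, h]
        · have : v ∉ A := fun h' => h (mem_filter.1 h').2
          have h2 : x v = false := by simpa using h
          simp [α, this, h2]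
      have hPA : ¬ P (α A) := fun h => hx ((hP x (α A) hA).2 h)
      have hmem : cl A ∈ (U.powerset.filter fun A => ¬ P (α A)).image cl :=
        mem_image_of_mem cl (mem_filter.2 ⟨mem_powerset.2 (filter_subset _ _), hPA⟩)
      obtain ⟨l, hl, hxl⟩ := hS _ hmem
      obtain ⟨v, hv, rfl⟩ := mem_image.1 hl
      have h1 := hA v hv
      simp only at hxl
      rw [← h1] at hxl
      revert hxl
      cases x v <;> simp
    · intro hx c hc
      obtain ⟨A, hA, rfl⟩ := mem_image.1 hc
      have hPA := (mem_filter.1 hA).2
      by_contra hno
      apply hPA
      refine (hP x (α A) ?_).1 hx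
      intro v hv
      by_contra hne
      apply hno
      refine ⟨(v, !(α A v)), mem_image.2 ⟨v, hv, rfl⟩, ?_⟩
      simp only
      revert hne
      cases x v <;> cases α A v <;> simp

end Pool.Agent.POG
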