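import Pool.Agent.POG.Stmts

/-!
# Module POG_CUT: the terms of the expansion are products over balanced cuts
-/

set_option autoImplicit false

namespace Pool.Agent.POG

open Finset

namespace CUT

lemma depOn_mono {n : ℕ} {S T : Finset (Fin n)} (h : S ⊆ T) {f : (Fin n → Bool) → ℝ}
    (hf : DepOn S f) : DepOn T f := fun x y hxy => hf x y fun v hv => hxy v (h hv)

lemma depOn_mul {n : ℕ} {S : Finset (Fin n)} {f g : (Fin n → Bool) → ℝ}
    (hf : DepOn S f) (hg : DepOn S g) : DepOn S fun x => f x * g x := by
  intro x y hxy
  show f x * g x = f y * g y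
  rw [hf x y hxy, hg x y hxy]

lemma depOn_val {n G : ℕ} (hD : s_DEP) (C : DD n G) (i : Fin G) :
    DepOn (C.vars i) fun x => R (C.val i x) := by
  intro x y hxy
  show R (C.val i x) = R (C.val i y)
  rw [hD n G C i x y hxy]

lemma abs_R (b : Bool) : |R b| ≤ 1 := by
  unfold R
  split_ifs <;> simp

lemma R_false : R false = 0 := by simp [R]

lemma R_and (a b : Bool) : R (a && b) = R a * R b := by
  cases a <;> cases b <;> simp [R]

/-- the zero function -/
lemma cut_zero {n : ℕ} (hS : s_SUP) (hn : 2 ≤ n) {B : ℝ} (hB : 0 ≤ B) :
    CutP B fun _ : Fin n → Bool => (0 : ℝ) := by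
  obtain ⟨S, -, h1, h2⟩ := (hS n hn ∅ (by simp)).2
  refine ⟨S, fun _ => 0, fun _ => 0, h1, h2, fun _ _ _ => rfl, fun _ _ _ => rfl, fun _ => ?_,
    fun _ => ?_, fun _ => ?_⟩
  · rw [abs_zero]
    exact zero_le_one
  · rw [abs_zero]
    exact hB
  · rw [mul_zero]

/-- a child which is not a top gate -/
lemma cut_child {n G : ℕ} (hD : s_DEP) (hS : s_SUP) (hn : 2 ≤ n) (C : DD n G) (p a : Fin G)
    (D : (Fin n → Bool) → ℝ) (B : ℝ) (hp : 2 * n < 3 * (C.vars p).card)
    (hdep : DepOn (C.vars p)ᶜ D) (hB : ∀ x, |D x| ≤ B) (hsub : C.vars a ⊆ C.vars p)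
    (ha : ¬C.Top a) : CutP B fun x => D x * R (C.val a x) := by
  have hB0 : 0 ≤ B := (abs_nonneg _).trans (hB fun _ => false)
  by_cases hs : ∃ x, C.val a x = true
  · have hc : 3 * (C.vars a).card ≤ 2 * n := by
      by_contra hc
      exact ha ⟨by omega, hs⟩
    obtain ⟨S, h1, h2, h3, h4⟩ := (hS n hn (C.vars a) hc).1 (C.vars p) hsub hp
    refine ⟨S, fun x => R (C.val a x), D, h3, h4, depOn_mono h1 (depOn_val hD C a),
      depOn_mono (compl_subset_compl.2 h2) hdep, fun x => abs_R _, hB, fun x => ?_⟩
    show D x * R (C.val a x) = R (C.val a x) * D x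
    ring
  · push Not at hs
    have h0 : (fun x => D x * R (C.val a x)) = fun _ => (0 : ℝ) := by
      funext x
      have h1 : C.val a x = false := by
        have := hs x
        simpa using this
      rw [h1, R_false, mul_zero]
    rw [h0]
    exact cut_zero hS hn hB0

/-- an AND gate, the first input is the side of the cut -/
lemma cut_and {n G : ℕ} (hD : s_DEP) (C : DD n G) (p a b : Fin G)
    (D : (Fin n → Bool) → ℝ) (B : ℝ) (hdep : DepOn (C.vars p)ᶜ D) (hB : ∀ x, |D x| ≤ B)
    (hsub : C.vars a ⊆ C.vars p) (hdis : Disjoint (C.vars a) (C.vars b))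
    (h1 : n ≤ 3 * (C.vars a).card) (h2 : 3 * (C.vars a).card ≤ 2 * n) :
    CutP B fun x => D x * (R (C.val a x) * R (C.val b x)) := by
  refine ⟨C.vars a, fun x => R (C.val a x), fun x => D x * R (C.val b x), h1, h2,
    depOn_val hD C a, depOn_mul (depOn_mono (compl_subset_compl.2 hsub) hdep)
      (depOn_mono ?_ (depOn_val hD C b)), fun x => abs_R _, fun x => ?_, fun x => ?_⟩
  · intro v hv
    rw [mem_compl]
    exact fun hv' => (disjoint_left.1 hdis) hv' hv
  · rw [abs_mul]
    calc |D x| * |R (C.val b x)| ≤ |D x| * 1 :=
          mul_le_mul_of_nonneg_left (abs_R _) (abs_nonneg _)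
      _ ≤ B := by rw [mul_one]; exact hB x
  · show D x * (R (C.val a x) * R (C.val b x)) = R (C.val a x) * (D x * R (C.val b x))
    ring

end CUT

open CUT in
theorem t_CUT : s_CUT := by
  intro hD hS n G C hn
  classical
  refine ⟨?_, ?_⟩
  · intro p D B hp hdep hB
    have hB0 : 0 ≤ B := (abs_nonneg _).trans (hB fun _ => false)
    have hzero := cut_zero (n := n) hS hn hB0
    obtain ⟨hp1, x0, hx0⟩ := hp
    have hv := C.vars_eq p
    cases hnode : C.node p with
    | leaf S f =>
      rw [hnode] at hv
      have h1 := (C.leaf p S f hnode).1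
      have h2 : C.vars p = S := hv
      rw [h2] at hp1
      omega
    | neg a =>
      obtain ⟨S, -, h2, h3, h4⟩ := (hS n hn ∅ (by simp)).1 (C.vars p) (empty_subset _) hp1
      refine ⟨D, fun _ => 0, ⟨S, fun _ => 1, D, h3, h4, fun _ _ _ => rfl,
        depOn_mono (compl_subset_compl.2 h2) hdep, fun _ => by rw [abs_one], hB,
        fun x => (one_mul _).symm⟩, hzero, fun x => ?_⟩
      have h5 : C.loc p x = 1 := by
        unfold DD.loc
        rw [hnode]
      rw [h5]
      ring
    | or a b =>
      rw [hnode] at hv
      have h2 : C.vars p = C.vars a ∪ C.vars b := hv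
      refine ⟨fun x => D x * (if C.Top a then 0 else R (C.val a x)),
        fun x => D x * (if C.Top b then 0 else R (C.val b x)), ?_, ?_, fun x => ?_⟩
      · by_cases ha : C.Top a
        · have h3 : (fun x => D x * (if C.Top a then 0 else R (C.val a x))) = fun _ => (0 : ℝ) := by
            funext x
            rw [if_pos ha, mul_zero]
          rw [h3]
          exact hzero
        · simp only [if_neg ha]
          exact cut_child hD hS hn C p a D B hp1 hdep hB (by rw [h2]; exact subset_union_left) ha
      · by_cases hb : C.Top b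
        · have h3 : (fun x => D x * (if C.Top b then 0 else R (C.val b x))) = fun _ => (0 : ℝ) := by
            funext x
            rw [if_pos hb, mul_zero]
          rw [h3]
          exact hzero
        · simp only [if_neg hb]
          exact cut_child hD hS hn C p b D B hp1 hdep hB (by rw [h2]; exact subset_union_right) hb
      · have h5 : C.loc p x = (if C.Top a then 0 else R (C.val a x)) +
            (if C.Top b then 0 else R (C.val b x)) := by
          unfold DD.loc
          rw [hnode]
        rw [h5]
        ring
    | and a b =>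
      rw [hnode] at hv
      have h2 : C.vars p = C.vars a ∪ C.vars b := hv
      by_cases hab : C.Top a ∨ C.Top b
      · refine ⟨fun _ => 0, fun _ => 0, hzero, hzero, fun x => ?_⟩
        have h5 : C.loc p x = 0 := by
          unfold DD.loc
          rw [hnode]
          exact if_pos hab
        rw [h5]
        ring
      · have hdis := C.dec p a b hnode
        have hcard : (C.vars p).card = (C.vars a).card + (C.vars b).card := by
          rw [h2, card_union_of_disjoint hdis]
        have hval : ∀ x, C.val p x = (C.val a x && C.val b x) := by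
          intro x
          rw [C.val_eq p x, hnode]
          rfl
        have h6 := hx0
        rw [hval, Bool.and_eq_true] at h6
        have hab' := hab
        push Not at hab'
        have ha : 3 * (C.vars a).card ≤ 2 * n := by
          by_contra hc
          exact hab'.1 ⟨by omega, x0, h6.1⟩
        have hb : 3 * (C.vars b).card ≤ 2 * n := by
          by_contra hc
          exact hab'.2 ⟨by omega, x0, h6.2⟩
        have h5 : ∀ x, C.loc p x = R (C.val a x) * R (C.val b x) := by
          intro x
          rw [← R_and, ← hval]
          unfold DD.loc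
          rw [hnode]
          exact if_neg hab
        by_cases h7 : n ≤ 3 * (C.vars a).card
        · refine ⟨fun x => D x * (R (C.val a x) * R (C.val b x)), fun _ => 0,
            cut_and hD C p a b D B hdep hB (by rw [h2]; exact subset_union_left) hdis h7 ha,
            hzero, fun x => ?_⟩
          rw [h5, add_zero]
        · refine ⟨fun x => D x * (R (C.val b x) * R (C.val a x)), fun _ => 0,
            cut_and hD C p b a D B hdep hB (by rw [h2]; exact subset_union_right) hdis.symm
              (by omega) hb, hzero, fun x => ?_⟩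
          show D x * C.loc p x = D x * (R (C.val b x) * R (C.val a x)) + 0
          rw [h5, add_zero, mul_comm (R (C.val b x))]
  · intro i hi
    by_cases hs : ∃ x, C.val i x = true
    · have hc : 3 * (C.vars i).card ≤ 2 * n := by
        by_contra hc
        exact hi ⟨by omega, hs⟩
      obtain ⟨S, h1, h2, h3⟩ := (hS n hn (C.vars i) hc).2
      refine ⟨S, fun x => R (C.val i x), fun _ => 1, h2, h3, depOn_mono h1 (depOn_val hD C i),
        fun _ _ _ => rfl, fun x => abs_R _, fun _ => by rw [abs_one], fun x => ?_⟩
      rw [mul_one]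
    · push Not at hs
      have h0 : (fun x => R (C.val i x)) = fun _ => (0 : ℝ) := by
        funext x
        have h1 : C.val i x = false := by
          have := hs x
          simpa using this
        rw [h1, R_false]
      rw [h0]
      exact cut_zero hS hn zero_le_one

end Pool.Agent.POG
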