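import Pool.Agent.POG.Stmts

/-! # The value of a gate depends only on the variables below it -/

set_option autoImplicit false

namespace Pool.Agent.POG

theorem t_DEP : s_DEP := by
  intro n G C i
  induction i using WellFoundedLT.induction with
  | ind i ih =>
    intro x y h
    rw [C.val_eq i x, C.val_eq i y]
    have hv := C.vars_eq i
    cases hi : C.node i with
    | leaf S f =>
      rw [hi] at hv
      show f x = f y
      refine (C.leaf i S f hi).2 x y fun v hv' => h v ?_
      rw [hv]
      exact hv'
    | neg a =>
      rw [hi] at hv
      show (!(C.val a x)) = !(C.val a y)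
      rw [ih a (C.acyc i a (by rw [hi]; exact rfl)) x y fun v hv' => h v (by rw [hv]; exact hv')]
    | and a b =>
      rw [hi] at hv
      show (C.val a x && C.val b x) = (C.val a y && C.val b y)
      rw [ih a (C.acyc i a (by rw [hi]; exact Or.inl rfl)) x y fun v hv' =>
          h v (by rw [hv]; exact Finset.mem_union_left _ hv'),
        ih b (C.acyc i b (by rw [hi]; exact Or.inr rfl)) x y fun v hv' =>
          h v (by rw [hv]; exact Finset.mem_union_right _ hv')]
    | or a b =>
      rw [hi] at hv
      show (C.val a x || C.val b x) = (C.val a y || C.val b y)
      rw [ih a (C.acyc i a (by rw [hi]; exact Or.inl rfl)) x y fun v hv' =>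
          h v (by rw [hv]; exact Finset.mem_union_left _ hv'),
        ih b (C.acyc i b (by rw [hi]; exact Or.inr rfl)) x y fun v hv' =>
          h v (by rw [hv]; exact Finset.mem_union_right _ hv')]

end Pool.Agent.POG
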