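import Mathlib

/-!
# Deterministic decomposable circuits with negations (d-D circuits, POGs) as certificates for #SAT

Definitions. The gates of a circuit are numbered by `Fin G`, the inputs of a gate have smaller numbers.
-/

set_option autoImplicit false

namespace Pool.Agent.POG

/-- A node of a circuit with gates `Fin G` over the variables `Fin n`: a leaf computes any Boolean
function `f` of the variables in `S`. -/
inductive Node (n G : ℕ) : Type
  | leaf (S : Finset (Fin n)) (f : (Fin n → Bool) → Bool)
  | neg (a : Fin G)
  | and (a b : Fin G)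
  | or (a b : Fin G)

/-- `a` is an input of the node. -/
def Node.In {n G : ℕ} (a : Fin G) : Node n G → Prop
  | .leaf _ _ => False
  | .neg b => a = b
  | .and b c => a = b ∨ a = c
  | .or b c => a = b ∨ a = c

/-- The value of a node at the input `x`, given the values `v` of the gates. -/
def Node.ev {n G : ℕ} (x : Fin n → Bool) (v : Fin G → Bool) : Node n G → Bool
  | .leaf _ f => f x
  | .neg a => !(v a)
  | .and a b => v a && v b
  | .or a b => v a || v b

/-- The variables below a node, given the variables below the gates. -/
def Node.vs {n G : ℕ} (V : Fin G → Finset (Fin n)) : Node n G → Finset (Fin n)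
  | .leaf S _ => S
  | .neg a => V a
  | .and a b => V a ∪ V b
  | .or a b => V a ∪ V b

/-- A d-D circuit (POG): AND gates are decomposable (no common variable of the two inputs), OR gates
are deterministic (never both inputs true), NOT gates are unrestricted, and a leaf is any Boolean
function of at most two thirds of the variables (in particular a constant or a literal). `val` and
`vars` are the functions computed by the gates and the sets of variables below them. -/
structure DD (n G : ℕ) where
  node : Fin G → Node n G
  acyc : ∀ i a : Fin G, (node i).In a → a < i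
  val : Fin G → (Fin n → Bool) → Bool
  val_eq : ∀ i x, val i x = (node i).ev x (fun a => val a x)
  vars : Fin G → Finset (Fin n)
  vars_eq : ∀ i, vars i = (node i).vs vars
  leaf : ∀ i S f, node i = .leaf S f →
    3 * S.card ≤ 2 * n ∧ ∀ x y : Fin n → Bool, (∀ v ∈ S, x v = y v) → f x = f y
  dec : ∀ i a b, node i = .and a b → Disjoint (vars a) (vars b)
  det : ∀ i a b, node i = .or a b → ∀ x, ¬(val a x = true ∧ val b x = true)

/-- `i` is a NOT gate above more than two thirds of the variables. -/
def DD.Neg {n G : ℕ} (C : DD n G) (i : Fin G) : Prop :=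
  (∃ a, C.node i = .neg a) ∧ 2 * n < 3 * (C.vars i).card

/-- Heights: `h` does not decrease along the wires and increases at each NOT gate above more than two
thirds of the variables. There are heights `≤ k` iff every path has at most `k` such NOT gates. -/
def DD.Height {n G : ℕ} (C : DD n G) (h : Fin G → ℕ) : Prop :=
  (∀ i a, (C.node i).In a → h a ≤ h i) ∧ ∀ i a, C.Neg i → C.node i = .neg a → h a + 1 ≤ h i

open Classical in
/-- The number of NOT gates above more than two thirds of the variables is at most `m`. -/
def DD.NegCount {n G : ℕ} (C : DD n G) (m : ℕ) : Prop :=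
  (Finset.univ.filter fun i => C.Neg i).card ≤ m

/-- Every path has at most `k` NOT gates above more than two thirds of the variables. -/
def DD.NegDepth {n G : ℕ} (C : DD n G) (k : ℕ) : Prop :=
  ∃ h : Fin G → ℕ, C.Height h ∧ ∀ i, h i ≤ k

/-- Tree-like circuits (formulas): each gate is used at most once. -/
def DD.Tree {n G : ℕ} (C : DD n G) : Prop :=
  (∀ i j a, (C.node i).In a → (C.node j).In a → i = j) ∧
    ∀ i a b, (C.node i = .and a b ∨ C.node i = .or a b) → a ≠ b

/-- A formula in conjunctive normal form: a finite set of clauses, a clause is a finite set of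
literals, the literal `(v, b)` is true if `x v = b`. -/
abbrev CNF (n : ℕ) := Finset (Finset (Fin n × Bool))

/-- `x` satisfies `F`. -/
def CNF.Sat {n : ℕ} (F : CNF n) (x : Fin n → Bool) : Prop := ∀ c ∈ F, ∃ l ∈ c, x l.1 = l.2

/-! ### Definitions for the proof -/

/-- A Boolean as a real number. -/
def R (b : Bool) : ℝ := if b then 1 else 0

/-- `f` depends only on the variables in `S`. -/
def DepOn {n : ℕ} (S : Finset (Fin n)) (f : (Fin n → Bool) → ℝ) : Prop :=
  ∀ x y : Fin n → Bool, (∀ v ∈ S, x v = y v) → f x = f y

/-- A product over a balanced cut, of functions bounded by `1` and `B`. -/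
def CutP {n : ℕ} (B : ℝ) (F : (Fin n → Bool) → ℝ) : Prop :=
  ∃ (S : Finset (Fin n)) (a b : (Fin n → Bool) → ℝ), n ≤ 3 * S.card ∧ 3 * S.card ≤ 2 * n ∧
    DepOn S a ∧ DepOn Sᶜ b ∧ (∀ x, |a x| ≤ 1) ∧ (∀ x, |b x| ≤ B) ∧ ∀ x, F x = a x * b x

/-- Top gates: above more than two thirds of the variables and satisfiable. -/
def DD.Top {n G : ℕ} (C : DD n G) (i : Fin G) : Prop :=
  2 * n < 3 * (C.vars i).card ∧ ∃ x, C.val i x = true

open Classical in
/-- The local term of a gate. -/
noncomputable def DD.loc {n G : ℕ} (C : DD n G) (p : Fin G) (x : Fin n → Bool) : ℝ :=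
  match C.node p with
  | .leaf _ _ => R (C.val p x)
  | .neg _ => 1
  | .and a b => if C.Top a ∨ C.Top b then 0 else R (C.val p x)
  | .or a b => (if C.Top a then 0 else R (C.val a x)) + (if C.Top b then 0 else R (C.val b x))

/-- The local term of a gate for paths which end at NOT gates. -/
noncomputable def DD.loc' {n G : ℕ} (C : DD n G) (p : Fin G) (x : Fin n → Bool) : ℝ :=
  match C.node p with
  | .leaf _ _ => C.loc p x
  | .neg _ => R (C.val p x)
  | .and _ _ => C.loc p x
  | .or _ _ => C.loc p x

/-- Number of subsets with at most `k` elements. -/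
def SB (m k : ℕ) : ℕ := ∑ j ∈ Finset.range (k + 1), m.choose j

/-- `0` or `1` in `ZMod 2`. -/
def z (b : Bool) : ZMod 2 := if b then 1 else 0

/-- The quadratic form of a graph: `φ i t`, `t < d`, are the out-neighbours of `i`. -/
def qf {n d : ℕ} (φ : Fin n → Fin d → Fin n) (x : Fin n → Bool) : ZMod 2 :=
  ∑ i, ∑ t, z (x i) * z (x (φ i t))

/-- The sign function. -/
noncomputable def T {n d : ℕ} (φ : Fin n → Fin d → Fin n) (x : Fin n → Bool) : ℝ :=
  if qf φ x = 0 then 1 else -1

/-- The part of the row `i` of the matrix of a cut which comes from the out-neighbours of `i`. -/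
def own {n d : ℕ} (S : Finset (Fin n)) (ψ : Fin d → Fin n) (y : Fin n) : ZMod 2 :=
  if y ∈ S then 0 else ∑ t, if ψ t = y then 1 else 0

/-- The row `i ∈ S` of the matrix of the cut `(S, Sᶜ)`. -/
def row {n d : ℕ} (φ : Fin n → Fin d → Fin n) (S : Finset (Fin n)) (i y : Fin n) : ZMod 2 :=
  own S (φ i) y + if y ∈ S then 0 else ∑ t, if φ y t = i then 1 else 0

open Classical in
/-- The size of the kernel of the matrix of a cut. -/
noncomputable def kc {n d : ℕ} (φ : Fin n → Fin d → Fin n) (S : Finset (Fin n)) : ℕ :=
  (Finset.univ.filter fun u : Fin n → ZMod 2 =>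
    (∀ y ∈ S, u y = 0) ∧ ∀ i ∈ S, ∑ y, row φ S i y * u y = 0).card

end Pool.Agent.POG
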