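import Pool.Agent.POG.Stmts

/-!
# POG: module EXI, existence of graphs all of whose balanced cuts have large rank
-/

set_option autoImplicit false

namespace Pool.Agent.POG

open Finset

namespace EXIAux

/-- the exponent of `512` -/
theorem pow_ge {n r s t : ℕ} (hn : 18432 * (r + 1) ≤ n) (hs : n ≤ 3 * s) (ht : t ≤ r) :
    2 * 4 ^ n ≤ 512 ^ (s - t) := by
  have h1 : 2 * n + 1 ≤ 9 * (s - t) := by omega
  have h2 : (2 : ℕ) * 4 ^ n = 2 ^ (2 * n + 1) := by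
    rw [pow_succ, pow_mul]
    norm_num
    ring
  have h3 : (512 : ℕ) ^ (s - t) = 2 ^ (9 * (s - t)) := by
    rw [pow_mul]
    norm_num
  rw [h2, h3]
  exact Nat.pow_le_pow_right (by norm_num) h1

end EXIAux

theorem t_EXI : s_EXI := by
  classical
  intro hSPN hROW hFIB hBAD n r hn
  by_contra hno
  push Not at hno
  obtain ⟨Ps, hPs⟩ : ∃ Ps : Finset (Finset (Fin n) × Finset (Fin n)), ∀ x, x ∈ Ps ↔
      (x.2 ⊆ x.1 ∧ x.2.card ≤ r ∧ n ≤ 3 * x.1.card ∧ 3 * x.1.card ≤ 2 * n) :=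
    ⟨univ.filter fun x => x.2 ⊆ x.1 ∧ x.2.card ≤ r ∧ n ≤ 3 * x.1.card ∧ 3 * x.1.card ≤ 2 * n,
      fun x => by rw [mem_filter]; exact and_iff_right (mem_univ x)⟩
  have hBd := fun x (hx : x ∈ Ps) => hBAD hROW hFIB n r x.1 x.2 ((hPs x).1 hx).1
    ((hPs x).1 hx).2.1 ((hPs x).1 hx).2.2.2 hn
  have hcov : (univ : Finset (Fin n → Fin 18 → Fin n)) ⊆ Ps.biUnion fun x =>
      univ.filter fun φ : Fin n → Fin 18 → Fin n => ∀ i ∈ x.1 \ x.2,
        row φ x.1 i ∈ Submodule.span (ZMod 2) (row φ x.1 '' (x.2 : Set (Fin n))) := by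
    intro φ _
    obtain ⟨S, hS1, hS2, hS3⟩ := hno φ
    obtain ⟨R, hR1, hR2, hR3⟩ := hSPN n r (row φ S) S hS3
    rw [mem_biUnion]
    refine ⟨(S, R), (hPs _).2 ⟨hR1, hR2, hS1, hS2⟩, ?_⟩
    rw [mem_filter]
    exact ⟨mem_univ _, fun i hi => hR3 i (mem_sdiff.1 hi).1⟩
  have h1 := (card_le_card hcov).trans card_biUnion_le
  have h2 : (univ : Finset (Fin n → Fin 18 → Fin n)).card = (n ^ 18) ^ n := by
    rw [card_univ, Fintype.card_fun, Fintype.card_fun, Fintype.card_fin, Fintype.card_fin]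
  rw [h2] at h1
  have hn0 : 0 < n := by omega
  have hpos : 0 < (n ^ 18) ^ n := Nat.pow_pos (Nat.pow_pos hn0)
  have h3 : Ps.card ≤ 4 ^ n := by
    refine (card_le_univ Ps).trans ?_
    rw [Fintype.card_prod, Fintype.card_finset, Fintype.card_fin, ← mul_pow]
    exact le_of_eq rfl
  have h4 : (∑ x ∈ Ps, (univ.filter fun φ : Fin n → Fin 18 → Fin n => ∀ i ∈ x.1 \ x.2,
      row φ x.1 i ∈ Submodule.span (ZMod 2) (row φ x.1 '' (x.2 : Set (Fin n)))).card) *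
        (2 * 4 ^ n) ≤ 4 ^ n * (n ^ 18) ^ n := by
    rw [sum_mul]
    refine (sum_le_card_nsmul Ps _ ((n ^ 18) ^ n) fun x hx => ?_).trans ?_
    · refine le_trans (Nat.mul_le_mul_left _ ?_) (hBd x hx)
      exact EXIAux.pow_ge hn ((hPs x).1 hx).2.2.1 ((hPs x).1 hx).2.1
    · rw [smul_eq_mul]
      exact Nat.mul_le_mul_right _ h3
  have h5 := (Nat.mul_le_mul_right (2 * 4 ^ n) h1).trans h4
  have h6 : 0 < 4 ^ n * (n ^ 18) ^ n := Nat.mul_pos (Nat.pow_pos (by norm_num)) hpos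
  have h7 : (n ^ 18) ^ n * (2 * 4 ^ n) = 2 * (4 ^ n * (n ^ 18) ^ n) := by ring
  rw [h7] at h5
  omega

end Pool.Agent.POG
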