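import Pool.Agent.POG.Stmts

/-!
# Module POG_FIB: counting functions coordinate by coordinate
-/

set_option autoImplicit false

namespace Pool.Agent.POG

open Finset

open Classical in
theorem t_FIB : s_FIB := by
  intro ι β _ _ A M Q hQ hM
  set s : Finset (ι → β) := univ.filter fun ψ : ι → β => ∀ i ∈ A, Q ψ i (ψ i) with hs
  let f : (ι → β) → ({i // i ∉ A} → β) := fun ψ i => ψ i
  have h1 : s.card ≤ M ^ A.card * (s.image f).card := by
    refine Finset.card_le_mul_card_image s _ fun t ht => ?_
    rw [mem_image] at ht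
    obtain ⟨ψ₀, hψ₀, rfl⟩ := ht
    let t : ι → Finset β := fun i => if i ∈ A then univ.filter (fun b => Q ψ₀ i b) else {ψ₀ i}
    have h2 : (s.filter fun ψ => f ψ = f ψ₀) ⊆ Fintype.piFinset t := by
      intro ψ hψ
      rw [mem_filter, hs, mem_filter] at hψ
      obtain ⟨⟨-, h3⟩, h4⟩ := hψ
      have h5 : ∀ i, i ∉ A → ψ i = ψ₀ i := fun i hi => congrFun h4 ⟨i, hi⟩
      rw [Fintype.mem_piFinset]
      intro i
      by_cases hi : i ∈ A
      · show ψ i ∈ (if i ∈ A then univ.filter (fun b => Q ψ₀ i b) else {ψ₀ i})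
        rw [if_pos hi, mem_filter]
        exact ⟨mem_univ _, hQ ψ ψ₀ h5 i _ (h3 i hi)⟩
      · show ψ i ∈ (if i ∈ A then univ.filter (fun b => Q ψ₀ i b) else {ψ₀ i})
        rw [if_neg hi, mem_singleton]
        exact h5 i hi
    refine (card_le_card h2).trans ?_
    rw [Fintype.card_piFinset]
    calc ∏ i, (t i).card ≤ ∏ i, (if i ∈ A then M else 1) := by
          refine prod_le_prod' fun i _ => ?_
          by_cases hi : i ∈ A
          · rw [if_pos hi]
            show (if i ∈ A then univ.filter (fun b => Q ψ₀ i b) else {ψ₀ i}).card ≤ M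
            rw [if_pos hi]
            exact hM ψ₀ i hi
          · rw [if_neg hi]
            show (if i ∈ A then univ.filter (fun b => Q ψ₀ i b) else {ψ₀ i}).card ≤ 1
            rw [if_neg hi, card_singleton]
      _ = M ^ A.card := by
          rw [prod_ite_mem, univ_inter, prod_const]
  have h3 : (s.image f).card ≤ Fintype.card β ^ (Fintype.card ι - A.card) := by
    refine (card_le_univ _).trans ?_
    rw [Fintype.card_fun, Fintype.card_subtype_compl, Fintype.card_coe]
  exact h1.trans (Nat.mul_le_mul_left _ h3)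

end Pool.Agent.POG
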