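import Pool.Agent.POG.Stmts

/-!
# FRM: the formula
-/

set_option autoImplicit false

namespace Pool.Agent.POG

open Finset

namespace FRMAux

/-- The block of a variable. -/
def g {n : ℕ} (b : ℕ) (i : Fin n) : Fin (n / b + 1) :=
  ⟨i.1 / b, Nat.lt_succ_of_le (Nat.div_le_div_right i.2.le)⟩

/-- The variables of a block. -/
def bl (n b : ℕ) (j : Fin (n / b + 1)) : Finset (Fin n) := univ.filter fun i => g b i = j

lemma card_bl (n b : ℕ) (hb : 0 < b) (j : Fin (n / b + 1)) : (bl n b j).card ≤ b := by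
  have h : (bl n b j).card ≤ (range b).card := by
    refine Finset.card_le_card_of_injOn (fun i => i.1 % b) ?_ ?_
    · intro i _
      simpa using Nat.mod_lt _ hb
    · intro i hi i' hi' h
      have h1 : g b i = j := by simpa [bl] using hi
      have h2 : g b i' = j := by simpa [bl] using hi'
      have h3 : i.1 / b = i'.1 / b := by
        have := congrArg Fin.val (h1.trans h2.symm)
        simpa [g] using this
      have h4 : i.1 % b = i'.1 % b := h
      apply Fin.ext
      rw [← Nat.div_add_mod i.1 b, ← Nat.div_add_mod i'.1 b, h3, h4]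
  simpa using h

/-- The variables of the form of a block. -/
def U {n d : ℕ} (b : ℕ) (φ : Fin n → Fin d → Fin n) (j : Fin (n / b + 1)) : Finset (Fin n) :=
  bl n b j ∪ (bl n b j).biUnion fun i => univ.image (φ i)

lemma card_U {n d : ℕ} (b : ℕ) (hb : 0 < b) (φ : Fin n → Fin d → Fin n) (j : Fin (n / b + 1)) :
    (U b φ j).card ≤ b * (d + 1) := by
  have h1 : ((bl n b j).biUnion fun i => univ.image (φ i)).card ≤ (bl n b j).card * d := by
    refine Finset.card_biUnion_le_card_mul _ _ _ fun i _ => ?_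
    refine Finset.card_image_le.trans ?_
    simp
  have h2 := card_bl n b hb j
  calc (U b φ j).card ≤ (bl n b j).card + ((bl n b j).biUnion fun i => univ.image (φ i)).card :=
        Finset.card_union_le _ _
    _ ≤ b + b * d := Nat.add_le_add h2 (h1.trans (Nat.mul_le_mul_right _ h2))
    _ = b * (d + 1) := by ring

/-- The form of a block. -/
def q {n d : ℕ} (b : ℕ) (φ : Fin n → Fin d → Fin n) (j : Fin (n / b + 1)) (x : Fin n → Bool) :
    ZMod 2 := ∑ i ∈ bl n b j, ∑ t, z (x i) * z (x (φ i t))

lemma sum_q {n d : ℕ} (b : ℕ) (φ : Fin n → Fin d → Fin n) (x : Fin n → Bool) :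
    ∑ j, q b φ j x = qf φ x := by
  unfold q qf bl
  exact Finset.sum_fiberwise univ (g b) fun i => ∑ t, z (x i) * z (x (φ i t))

lemma q_congr {n d : ℕ} (b : ℕ) (φ : Fin n → Fin d → Fin n) (j : Fin (n / b + 1))
    (x y : Fin n → Bool) (h : ∀ v ∈ U b φ j, x v = y v) : q b φ j x = q b φ j y := by
  unfold q
  refine Finset.sum_congr rfl fun i hi => Finset.sum_congr rfl fun t _ => ?_
  rw [h i (Finset.mem_union_left _ hi), h (φ i t) (Finset.mem_union_right _
    (Finset.mem_biUnion.2 ⟨i, hi, Finset.mem_image_of_mem _ (Finset.mem_univ t)⟩))]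

lemma pigeon (n m : ℕ) (f : (Fin n → Bool) → Fin m → ZMod 2) :
    ∃ e : Fin m → ZMod 2, 2 ^ n ≤ 2 ^ m * (univ.filter fun x => f x = e).card := by
  have h : ∑ _e : Fin m → ZMod 2, 2 ^ n ≤
      ∑ e : Fin m → ZMod 2, 2 ^ m * (univ.filter fun x => f x = e).card := by
    rw [← Finset.mul_sum]
    have h1 : ∑ e : Fin m → ZMod 2, (univ.filter fun x => f x = e).card = 2 ^ n := by
      have := Finset.card_eq_sum_card_fiberwise (s := (univ : Finset (Fin n → Bool)))
        (t := (univ : Finset (Fin m → ZMod 2))) (f := f) (fun x _ => by simp)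
      rw [← this]
      simp
    rw [h1]
    simp [ZMod.card]
  obtain ⟨e, _, he⟩ := Finset.exists_le_of_sum_le Finset.univ_nonempty h
  exact ⟨e, he⟩

end FRMAux

open FRMAux in
theorem t_FRM : s_FRM := by
  classical
  intro hC n d b φ hb
  obtain ⟨e, he⟩ := pigeon n (n / b + 1) fun x j => q b φ j x
  have hF : ∀ j : Fin (n / b + 1), ∃ F : CNF n, (∀ c ∈ F, c.card ≤ (U b φ j).card) ∧
      F.card ≤ 2 ^ (U b φ j).card ∧ ∀ x, F.Sat x ↔ q b φ j x = e j := by
    intro j
    refine hC n (U b φ j) (fun x => q b φ j x = e j) fun x y h => ?_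
    rw [q_congr b φ j x y h]
  choose F h1 h2 h3 using hF
  have hS : ∀ x, (CNF.Sat (univ.biUnion F : CNF n) x ↔ (fun j => q b φ j x) = e) := by
    intro x
    rw [funext_iff]
    constructor
    · intro h j
      exact (h3 j x).1 fun c hc => h c (Finset.mem_biUnion.2 ⟨j, Finset.mem_univ j, hc⟩)
    · intro h c hc
      obtain ⟨j, _, hj⟩ := Finset.mem_biUnion.1 hc
      exact (h3 j x).2 (h j) c hj
  refine ⟨univ.biUnion F, if ∑ j, e j = 0 then 1 else -1, ?_, ?_, ?_, ?_, ?_⟩
  · intro c hc
    obtain ⟨j, _, hj⟩ := Finset.mem_biUnion.1 hc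
    exact (h1 j c hj).trans (card_U b hb φ j)
  · refine Finset.card_biUnion_le.trans ?_
    refine (Finset.sum_le_card_nsmul univ _ (2 ^ (b * (d + 1))) fun j _ => ?_).trans ?_
    · exact (h2 j).trans (Nat.pow_le_pow_right (by norm_num) (card_U b hb φ j))
    · simp
  · by_cases h : ∑ j, e j = 0
    · left; simp [h]
    · right; simp [h]
  · intro x hx
    have h4 := (hS x).1 hx
    have h5 : qf φ x = ∑ j, e j := by
      rw [← sum_q b φ x, ← h4]
    unfold T
    rw [h5]
  · have h6 : (univ.filter fun x => CNF.Sat (univ.biUnion F : CNF n) x).card =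
        (univ.filter fun x => (fun j => q b φ j x) = e).card := by
      congr 1
      exact Finset.filter_congr fun x _ => hS x
    convert he using 2

end Pool.Agent.POG
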