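import Pool.Agent.POG.Stmts

/-!
# KER: the kernel and independent rows
-/

set_option autoImplicit false

namespace Pool.Agent.POG

open Finset

namespace KERAux

variable {n d : ℕ}

theorem row_zero (φ : Fin n → Fin d → Fin n) (S : Finset (Fin n)) (i : Fin n) {y : Fin n}
    (hy : y ∈ S) : row φ S i y = 0 := by
  simp [row, own, hy]

/-- The matrix of the rows in `R`. -/
def mat (φ : Fin n → Fin d → Fin n) (S R : Finset (Fin n)) :
    Matrix R {y : Fin n // y ∉ S} (ZMod 2) := fun i y => row φ S i y

theorem indep (φ : Fin n → Fin d → Fin n) (S R : Finset (Fin n))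
    (h : LinearIndependent (ZMod 2) (fun i : R => row φ S i)) :
    LinearIndependent (ZMod 2) (fun i : R => mat φ S R i) := by
  rw [Fintype.linearIndependent_iff] at h ⊢
  intro c hc i
  refine h c ?_ i
  funext y
  by_cases hy : y ∈ S
  · simp only [Finset.sum_apply, Pi.smul_apply, Pi.zero_apply]
    exact Finset.sum_eq_zero fun j _ => by rw [row_zero φ S j hy, smul_zero]
  · have h1 := congrFun hc ⟨y, hy⟩
    simp only [Finset.sum_apply, Pi.smul_apply, Pi.zero_apply] at h1 ⊢
    exact h1

theorem main (φ : Fin n → Fin d → Fin n) (S R : Finset (Fin n))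
    (h : LinearIndependent (ZMod 2) (fun i : R => row φ S i)) (hRS : R ⊆ S) :
    kc φ S * 2 ^ R.card ≤ 2 ^ (n - S.card) := by
  classical
  have h1 := indep φ S R h
  have hrank : (mat φ S R).rank = Fintype.card R := LinearIndependent.rank_matrix h1
  set L := (mat φ S R).mulVecLin with hL
  have hfr : Module.finrank (ZMod 2) (LinearMap.range L) = R.card := by
    have h2 : (mat φ S R).rank = Module.finrank (ZMod 2) (LinearMap.range L) := rfl
    rw [← h2, hrank, Fintype.card_coe]
  have hV : Module.finrank (ZMod 2) ({y : Fin n // y ∉ S} → ZMod 2) = n - S.card := by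
    rw [Module.finrank_fintype_fun_eq_card]
    rw [Fintype.card_subtype_compl, Fintype.card_fin]
    simp
  have hrn := LinearMap.finrank_range_add_finrank_ker L
  rw [hfr, hV] at hrn
  have hker : Fintype.card (LinearMap.ker L) = 2 ^ Module.finrank (ZMod 2) (LinearMap.ker L) := by
    rw [Module.card_eq_pow_finrank (K := ZMod 2), ZMod.card]
  have hle : kc φ S ≤ Fintype.card (LinearMap.ker L) := by
    unfold kc
    rw [← Fintype.card_coe]
    refine Fintype.card_le_of_injective (fun u => ⟨fun y => u.1 y.1, ?_⟩) ?_
    · rw [LinearMap.mem_ker]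
      funext i
      have hu := (Finset.mem_filter.1 u.2).2
      have h3 := hu.2 i.1 (hRS i.2)
      rw [hL, Matrix.mulVecLin_apply]
      simp only [Matrix.mulVec, dotProduct, Pi.zero_apply, mat]
      refine Eq.trans ?_ h3
      symm
      rw [← Finset.sum_filter_add_sum_filter_not Finset.univ (fun y => y ∈ S)]
      rw [Finset.sum_eq_zero (s := Finset.univ.filter fun y => y ∈ S) (by
          intro y hy
          rw [hu.1 y (Finset.mem_filter.1 hy).2, mul_zero]), zero_add]
      exact Finset.sum_subtype (Finset.univ.filter fun y => ¬ y ∈ S) (p := fun y => y ∉ S)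
        (by simp) fun y => row φ S i.1 y * u.1 y
    · intro u v huv
      have h3 := congrArg Subtype.val huv
      apply Subtype.ext
      funext y
      by_cases hy : y ∈ S
      · rw [((Finset.mem_filter.1 u.2).2).1 y hy, ((Finset.mem_filter.1 v.2).2).1 y hy]
      · exact congrFun h3 ⟨y, hy⟩
  calc kc φ S * 2 ^ R.card ≤ Fintype.card (LinearMap.ker L) * 2 ^ R.card :=
        Nat.mul_le_mul_right _ hle
    _ = 2 ^ (n - S.card) := by
        rw [hker, ← pow_add, ← hrn, add_comm]

end KERAux

theorem t_KER : s_KER := fun _ _ φ S R hRS h => KERAux.main φ S R h hRS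

end Pool.Agent.POG
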