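import Pool.Agent.POG.Stmts

/-!
# Module POG_LND: Lindsey's lemma with the size of the kernel
-/

set_option autoImplicit false

namespace Pool.Agent.POG

open Finset

namespace LNDx

/-- The sign of an element of `ZMod 2`. -/
noncomputable def sg (c : ZMod 2) : ℝ := if c = 0 then 1 else -1

theorem zcases (c : ZMod 2) : c = 0 ∨ c = 1 := by
  revert c; decide

theorem sg_add (a b : ZMod 2) : sg (a + b) = sg a * sg b := by
  unfold sg
  have h11 : (1 : ZMod 2) + 1 = 0 := by decide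
  have h10 : (1 : ZMod 2) ≠ 0 := by decide
  rcases zcases a with rfl | rfl <;> rcases zcases b with rfl | rfl <;> simp [h11]

theorem sg_mul_self (a : ZMod 2) : sg a * sg a = 1 := by
  unfold sg; split_ifs <;> norm_num

theorem abs_sg (a : ZMod 2) : |sg a| = 1 := by
  unfold sg; split_ifs <;> norm_num

/-- `x` on `S`, `w` outside. -/
def mix {n : ℕ} (S : Finset (Fin n)) (x w : Fin n → Bool) : Fin n → Bool :=
  fun v => if v ∈ S then x v else w v

theorem sum_mix {n : ℕ} (S : Finset (Fin n)) (f : (Fin n → Bool) → ℝ) :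
    ∑ x, ∑ w, f (mix S x w) = 2 ^ n * ∑ x, f x := by
  classical
  let e : ((Fin n → Bool) × (Fin n → Bool)) ≃ ((Fin n → Bool) × (Fin n → Bool)) :=
    { toFun := fun p => (mix S p.1 p.2, mix S p.2 p.1)
      invFun := fun p => (mix S p.1 p.2, mix S p.2 p.1)
      left_inv := by
        rintro ⟨x, w⟩
        refine Prod.ext ?_ ?_ <;> funext v <;> by_cases hv : v ∈ S <;> simp [mix, hv]
      right_inv := by
        rintro ⟨x, w⟩
        refine Prod.ext ?_ ?_ <;> funext v <;> by_cases hv : v ∈ S <;> simp [mix, hv] }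
  have h1 : ∑ x, ∑ w, f (mix S x w) = ∑ p : (Fin n → Bool) × (Fin n → Bool), f (e p).1 := by
    rw [Fintype.sum_prod_type]
    rfl
  rw [h1, Equiv.sum_comp e (fun p => f p.1), Fintype.sum_prod_type]
  simp only [sum_const, card_univ, nsmul_eq_mul, Fintype.card_fun, Fintype.card_bool,
    Fintype.card_fin]
  rw [← mul_sum]
  push_cast
  rfl

theorem char_sum {n : ℕ} (S : Finset (Fin n)) (c : Fin n → ZMod 2) :
    ∑ x : Fin n → Bool, sg (∑ i ∈ S, z (x i) * c i) =
      if ∀ i ∈ S, c i = 0 then 2 ^ n else 0 := by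
  classical
  split_ifs with h
  · have : ∀ x : Fin n → Bool, sg (∑ i ∈ S, z (x i) * c i) = 1 := by
      intro x
      rw [sum_eq_zero (fun i hi => by rw [h i hi, mul_zero])]
      simp [sg]
    simp [this]
  · push Not at h
    obtain ⟨i₀, hi₀, hc⟩ := h
    have hc1 : c i₀ = 1 := (zcases _).resolve_left hc
    have hinv : Function.Involutive (fun (x : Fin n → Bool) => Function.update x i₀ (!(x i₀))) := by
      intro x
      funext v
      by_cases hv : v = i₀
      · subst hv; simp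
      · simp [hv]
    have key : ∀ x : Fin n → Bool,
        sg (∑ i ∈ S, z (Function.update x i₀ (!(x i₀)) i) * c i) =
          -sg (∑ i ∈ S, z (x i) * c i) := by
      intro x
      have e1 : ∑ i ∈ S, z (Function.update x i₀ (!(x i₀)) i) * c i =
          1 + ∑ i ∈ S, z (x i) * c i := by
        rw [← add_sum_erase S _ hi₀, ← add_sum_erase S (fun i => z (x i) * c i) hi₀]
        have e2 : ∑ i ∈ S.erase i₀, z (Function.update x i₀ (!(x i₀)) i) * c i =
            ∑ i ∈ S.erase i₀, z (x i) * c i := by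
          refine sum_congr rfl fun i hi => ?_
          rw [Function.update_of_ne (ne_of_mem_erase hi)]
        rw [e2, Function.update_self, hc1, ← add_assoc]
        congr 1
        cases x i₀ <;> simp [z]
        decide
      rw [e1, sg_add]
      have e5 : sg 1 = -1 := by simp [sg]
      rw [e5]; ring
    have e3 := Equiv.sum_comp (Function.Involutive.toPerm _ hinv)
      (fun x => sg (∑ i ∈ S, z (x i) * c i))
    have e4 : ∑ x : Fin n → Bool,
        sg (∑ i ∈ S, z ((Function.Involutive.toPerm _ hinv) x i) * c i) =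
        -∑ x : Fin n → Bool, sg (∑ i ∈ S, z (x i) * c i) := by
      rw [← sum_neg_distrib]
      exact sum_congr rfl fun x _ => key x
    rw [e4] at e3
    linarith

open Classical in
theorem fib_le {n d : ℕ} (φ : Fin n → Fin d → Fin n) (S : Finset (Fin n)) (w : Fin n → Bool) :
    (univ.filter fun w' : Fin n → Bool =>
      ∀ i ∈ S, (∑ y, row φ S i y * z (w y)) + (∑ y, row φ S i y * z (w' y)) = 0).card ≤
        2 ^ S.card * kc φ S := by
  have hrow : ∀ i y, y ∈ S → row φ S i y = 0 := by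
    intro i y hy; simp [row, own, hy]
  have hcard : 2 ^ S.card = (univ : Finset (S → Bool)).card := by
    simp
  rw [hcard, kc, ← card_product]
  refine card_le_card_of_injOn
    (fun w' => ((fun i : S => w' i), fun y => if y ∈ S then 0 else z (w y) + z (w' y))) ?_ ?_
  · intro w' hw'
    have hw2 : ∀ i ∈ S, (∑ y, row φ S i y * z (w y)) + (∑ y, row φ S i y * z (w' y)) = 0 := by
      simpa using hw'
    simp only [mem_coe, mem_product, mem_univ, mem_filter, true_and]
    refine ⟨fun y hy => by simp [hy], fun i hi => ?_⟩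
    rw [← hw2 i hi, ← sum_add_distrib]
    refine sum_congr rfl fun y _ => ?_
    by_cases hy : y ∈ S
    · simp [hrow i y hy]
    · simp [hy, mul_add]
  · intro w1 _ w2 _ h12
    have h1 := congrArg Prod.fst h12
    have h2 := congrArg Prod.snd h12
    simp only at h1 h2
    funext y
    by_cases hy : y ∈ S
    · exact congrFun h1 ⟨y, hy⟩
    · have h3 := congrFun h2 y
      simp only [hy, if_false] at h3
      have h4 : z (w1 y) = z (w2 y) := add_left_cancel h3
      revert h4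
      cases w1 y <;> cases w2 y <;> simp [z]

end LNDx

open LNDx in
theorem t_LND : s_LND := by
  classical
  intro hQ n d r φ S a b ha hb ha1 hb1 hk
  obtain ⟨A, B, hA, hB, hq⟩ := hQ n d φ S
  have hrow : ∀ i y, y ∈ S → row φ S i y = 0 := by
    intro i y hy; simp [row, own, hy]
  obtain ⟨L, hL⟩ : ∃ L : (Fin n → Bool) → Fin n → ZMod 2,
      ∀ w i, L w i = ∑ y, row φ S i y * z (w y) := ⟨_, fun _ _ => rfl⟩
  have hmS : ∀ x w, ∀ v ∈ S, mix S x w v = x v := fun x w v hv => by simp [mix, hv]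
  have hmSc : ∀ x w, ∀ v ∈ Sᶜ, mix S x w v = w v := fun x w v hv => by
    simp [mix, mem_compl.1 hv]
  have hT : ∀ x w, T φ (mix S x w) = sg (A x) * sg (B w) * sg (∑ i ∈ S, z (x i) * L w i) := by
    intro x w
    have e1 : qf φ (mix S x w) = A x + B w + ∑ i ∈ S, z (x i) * L w i := by
      rw [hq, hA _ _ (hmS x w), hB _ _ (hmSc x w)]
      congr 1
      refine sum_congr rfl fun i hi => ?_
      rw [hmS x w i hi, hL]
      congr 1
      refine sum_congr rfl fun y _ => ?_
      by_cases hy : y ∈ S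
      · simp [hrow i y hy]
      · rw [hmSc x w y (mem_compl.2 hy)]
    have e2 : T φ (mix S x w) = sg (qf φ (mix S x w)) := rfl
    rw [e2, e1, sg_add, sg_add]
  obtain ⟨a', ha'⟩ : ∃ a' : (Fin n → Bool) → ℝ, ∀ x, a' x = a x * sg (A x) := ⟨_, fun _ => rfl⟩
  obtain ⟨b', hb'⟩ : ∃ b' : (Fin n → Bool) → ℝ, ∀ x, b' x = b x * sg (B x) := ⟨_, fun _ => rfl⟩
  have ha'1 : ∀ x, |a' x| ≤ 1 := fun x => by rw [ha', abs_mul, abs_sg, mul_one]; exact ha1 x
  have hb'1 : ∀ x, |b' x| ≤ 1 := fun x => by rw [hb', abs_mul, abs_sg, mul_one]; exact hb1 x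
  have hmain : 2 ^ n * ∑ x, T φ x * (a x * b x) =
      ∑ x : Fin n → Bool, a' x * ∑ w : Fin n → Bool, b' w * sg (∑ i ∈ S, z (x i) * L w i) := by
    rw [← sum_mix S (fun x => T φ x * (a x * b x))]
    refine sum_congr rfl fun x _ => ?_
    rw [mul_sum]
    refine sum_congr rfl fun w _ => ?_
    rw [hT, ha _ _ (hmS x w), hb _ _ (hmSc x w), ha', hb']
    ring
  -- Cauchy-Schwarz
  have hcs : (∑ x : Fin n → Bool, a' x * ∑ w : Fin n → Bool, b' w * sg (∑ i ∈ S, z (x i) * L w i)) ^ 2 ≤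
      (∑ x, a' x ^ 2) * ∑ x : Fin n → Bool, (∑ w : Fin n → Bool, b' w * sg (∑ i ∈ S, z (x i) * L w i)) ^ 2 :=
    sum_mul_sq_le_sq_mul_sq _ _ _
  have ha2 : ∑ x, a' x ^ 2 ≤ 2 ^ n := by
    calc ∑ x, a' x ^ 2 ≤ ∑ _x : Fin n → Bool, (1 : ℝ) := by
          refine sum_le_sum fun x _ => ?_
          have := ha'1 x
          rw [← sq_abs]
          have h0 := abs_nonneg (a' x)
          nlinarith
      _ = 2 ^ n := by simp
  have hexp : ∑ x : Fin n → Bool, (∑ w : Fin n → Bool, b' w * sg (∑ i ∈ S, z (x i) * L w i)) ^ 2 =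
      ∑ w, ∑ w', b' w * b' w' * (if ∀ i ∈ S, L w i + L w' i = 0 then 2 ^ n else 0) := by
    have e1 : ∀ x : Fin n → Bool, (∑ w, b' w * sg (∑ i ∈ S, z (x i) * L w i)) ^ 2 =
        ∑ w, ∑ w', b' w * b' w' * sg (∑ i ∈ S, z (x i) * (L w i + L w' i)) := by
      intro x
      rw [sq, sum_mul_sum]
      refine sum_congr rfl fun w _ => sum_congr rfl fun w' _ => ?_
      have : ∑ i ∈ S, z (x i) * (L w i + L w' i) =
          (∑ i ∈ S, z (x i) * L w i) + ∑ i ∈ S, z (x i) * L w' i := by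
        rw [← sum_add_distrib]
        exact sum_congr rfl fun i _ => by ring
      rw [this, sg_add]
      ring
    simp_rw [e1]
    rw [sum_comm]
    refine sum_congr rfl fun w _ => ?_
    rw [sum_comm]
    refine sum_congr rfl fun w' _ => ?_
    rw [← mul_sum, char_sum S (fun i => L w i + L w' i)]
  have hbd : ∑ x : Fin n → Bool, (∑ w : Fin n → Bool, b' w * sg (∑ i ∈ S, z (x i) * L w i)) ^ 2 ≤
      2 ^ n * (2 ^ S.card * kc φ S) * 2 ^ n := by
    rw [hexp]
    have e1 : ∀ w : Fin n → Bool,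
        ∑ w', b' w * b' w' * (if ∀ i ∈ S, L w i + L w' i = 0 then (2 : ℝ) ^ n else 0) ≤
          (2 ^ S.card * kc φ S) * 2 ^ n := by
      intro w
      have e2 : ∀ w' : Fin n → Bool,
          b' w * b' w' * (if ∀ i ∈ S, L w i + L w' i = 0 then (2 : ℝ) ^ n else 0) ≤
            (if ∀ i ∈ S, L w i + L w' i = 0 then (2 : ℝ) ^ n else 0) := by
        intro w'
        have h1 : b' w * b' w' ≤ 1 := by
          refine (le_abs_self _).trans ?_
          rw [abs_mul]
          exact mul_le_one₀ (hb'1 w) (abs_nonneg _) (hb'1 w')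
        have h2 : (0 : ℝ) ≤ (if ∀ i ∈ S, L w i + L w' i = 0 then (2 : ℝ) ^ n else 0) := by
          split_ifs <;> positivity
        exact mul_le_of_le_one_left h2 h1
      refine (sum_le_sum fun w' _ => e2 w').trans ?_
      rw [← sum_filter, sum_const, nsmul_eq_mul]
      refine mul_le_mul_of_nonneg_right ?_ (by positivity)
      have h3 := fib_le φ S w
      simp_rw [← hL] at h3
      exact_mod_cast h3
    refine (sum_le_sum fun w _ => e1 w).trans ?_
    rw [sum_const, nsmul_eq_mul]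
    simp only [card_univ, Fintype.card_fun, Fintype.card_bool, Fintype.card_fin]
    push_cast
    exact le_of_eq (by ring)
  set tot := ∑ x, T φ x * (a x * b x) with htot
  have hfin : (2 ^ n * tot) ^ 2 ≤ 2 ^ n * (2 ^ n * (2 ^ S.card * kc φ S) * 2 ^ n) := by
    rw [hmain]
    refine hcs.trans (mul_le_mul ha2 hbd (sum_nonneg fun x _ => sq_nonneg _) (by positivity))
  have hSn : S.card ≤ n := by simpa using card_le_univ S
  have hk' : (kc φ S : ℝ) * 2 ^ r ≤ 2 ^ (n - S.card) := by exact_mod_cast hk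
  have hpow : (2 : ℝ) ^ S.card * 2 ^ (n - S.card) = 2 ^ n := by
    rw [← pow_add]; congr 1; omega
  have hp : (0 : ℝ) < 2 ^ n := by positivity
  have h4 : (4 : ℝ) ^ n = 2 ^ n * 2 ^ n := by rw [← mul_pow]; norm_num
  have h5 : ((2 : ℝ) ^ n * 2 ^ n) * (tot ^ 2 * 2 ^ r) ≤ (2 ^ n * 2 ^ n) * (2 ^ n * 2 ^ n) := by
    calc ((2:ℝ) ^ n * 2 ^ n) * (tot ^ 2 * 2 ^ r) = (2 ^ n * tot) ^ 2 * 2 ^ r := by ring
      _ ≤ ((2:ℝ) ^ n * (2 ^ n * (2 ^ S.card * (kc φ S : ℝ)) * 2 ^ n)) * 2 ^ r :=
          mul_le_mul_of_nonneg_right hfin (by positivity)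
      _ = ((2:ℝ) ^ n * 2 ^ n * 2 ^ n * 2 ^ S.card) * ((kc φ S : ℝ) * 2 ^ r) := by ring
      _ ≤ ((2:ℝ) ^ n * 2 ^ n * 2 ^ n * 2 ^ S.card) * 2 ^ (n - S.card) :=
          mul_le_mul_of_nonneg_left hk' (by positivity)
      _ = ((2:ℝ) ^ n * 2 ^ n * 2 ^ n) * (2 ^ S.card * 2 ^ (n - S.card)) := by ring
      _ = ((2:ℝ) ^ n * 2 ^ n) * (2 ^ n * 2 ^ n) := by rw [hpow]; ring
  rw [h4]
  exact le_of_mul_le_mul_left h5 (by positivity)

end Pool.Agent.POG
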