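import Pool.Agent.POG.Stmts

/-!
# Circuits with few critical OR gates on each path (any number of NOT gates)
-/

set_option autoImplicit false

namespace Pool.Agent.POG

open Finset

/-- `u` are the functions of the gates if all NOT gates above more than two thirds of the variables
are replaced by the constant `true`. -/
def DD.Relax {n G : ℕ} (C : DD n G) (u : Fin G → (Fin n → Bool) → Bool) : Prop :=
  (∀ i, C.Neg i → ∀ x, u i x = true) ∧
    ∀ i, ¬C.Neg i → ∀ x, u i x = (C.node i).ev x fun a => u a x

/-- The OR gate `i` with the inputs `a`, `b` is critical: it is above more than two thirds of the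
variables and it does not remain deterministic if all NOT gates above more than two thirds of the
variables are replaced by the constant `true`. -/
def DD.Crit {n G : ℕ} (C : DD n G) (u : Fin G → (Fin n → Bool) → Bool) (i a b : Fin G) : Prop :=
  C.node i = .or a b ∧ 2 * n < 3 * (C.vars i).card ∧ ∃ x, u a x = true ∧ u b x = true

/-- Every path has at most `d` critical OR gates: there are heights `h ≤ d` which do not decrease along
the wires and increase at each critical OR gate. -/
def DD.CritDepth {n G : ℕ} (C : DD n G) (d : ℕ) : Prop :=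
  ∃ (u : Fin G → (Fin n → Bool) → Bool) (h : Fin G → ℕ), C.Relax u ∧
    (∀ i a, (C.node i).In a → h a ≤ h i) ∧
    (∀ i a b, C.Crit u i a b → h a + 1 ≤ h i ∧ h b + 1 ≤ h i) ∧ ∀ i, h i ≤ d

/-- ORD. Hypothesis `s_DEP`. As TRE; now `|D p| ≤ 2 ^ h i`: critical OR gates at most double the bound.
At the other OR gates the coefficients of the two inputs are not both `≠ 0`: the additional property
of the induction is that if `D p x ≠ 0`, `y = x` outside `vars p` and `p` is true at `y` then
`u i y = true`. -/
def s_ORD : Prop := s_DEP → ∀ (n G : ℕ) (C : DD n G), 2 ≤ n →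
  ∀ (u : Fin G → (Fin n → Bool) → Bool) (h : Fin G → ℕ), C.Relax u →
  (∀ i a, (C.node i).In a → h a ≤ h i) →
  (∀ i a b, C.Crit u i a b → h a + 1 ≤ h i ∧ h b + 1 ≤ h i) →
  ∀ i, C.Top i →
  ∃ D : Fin G → (Fin n → Bool) → ℝ,
    (∀ x, R (C.val i x) = ∑ p, D p x * C.loc p x) ∧
    (∀ p, (∃ x, D p x ≠ 0) → C.Top p ∧ C.vars p ⊆ C.vars i) ∧
    (∀ p, DepOn (C.vars p)ᶜ (D p)) ∧ ∀ p x, |D p x| ≤ 2 ^ h i

end Pool.Agent.POG
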