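import Pool.Agent.POG.Asm
import Pool.Agent.POG.Stmts2

/-!
# The main theorem from the statements of the modules
-/

set_option autoImplicit false

namespace Pool.Agent.POG

open Finset

namespace Asm

/-- the numerical part -/
theorem num {n r b : ℕ} (hb : b = 2 ^ 18) (hn : 2 ^ 20 ≤ n) (hr : r + 1 = n / 18432) {A : ℝ}
    (hX : (2 : ℝ) ^ n ≤ 2 ^ (n / b + 1) *
      ((2 : ℝ) ^ ((1 / 131072 : ℝ) * n) * (2 * A * Real.sqrt (4 ^ n / 2 ^ (r + 1))))) :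
    (2 : ℝ) ^ ((1 / 131072 : ℝ) * n) ≤ A := by
  subst hb
  have h2 : (0 : ℝ) < 2 := by norm_num
  have hs : Real.sqrt ((4 : ℝ) ^ n / 2 ^ (r + 1)) = 2 ^ n / (2 : ℝ) ^ (((r : ℝ) + 1) / 2) := by
    rw [Real.sqrt_div (by positivity)]
    congr 1
    · have : (4 : ℝ) ^ n = (2 ^ n) ^ 2 := by
        rw [← pow_mul, mul_comm, pow_mul]; norm_num
      rw [this, Real.sqrt_sq (by positivity)]
    · rw [Real.sqrt_eq_rpow, ← Real.rpow_natCast, ← Real.rpow_mul h2.le]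
      congr 1
      push_cast
      ring
  rw [hs] at hX
  have hp : (0 : ℝ) < 2 ^ n := by positivity
  have hq : (0 : ℝ) < (2 : ℝ) ^ (((r : ℝ) + 1) / 2) := Real.rpow_pos_of_pos h2 _
  have h3 : (2 : ℝ) ^ (((r : ℝ) + 1) / 2) ≤
      2 ^ (n / 2 ^ 18 + 1) * ((2 : ℝ) ^ ((1 / 131072 : ℝ) * n) * (2 * A)) := by
    have e : 2 ^ (n / 2 ^ 18 + 1) * ((2 : ℝ) ^ ((1 / 131072 : ℝ) * n) *
        (2 * A * (2 ^ n / (2 : ℝ) ^ (((r : ℝ) + 1) / 2)))) =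
        (2 ^ (n / 2 ^ 18 + 1) * ((2 : ℝ) ^ ((1 / 131072 : ℝ) * n) * (2 * A))) * 2 ^ n /
          (2 : ℝ) ^ (((r : ℝ) + 1) / 2) := by
      ring
    rw [e, le_div_iff₀ hq, mul_comm] at hX
    exact le_of_mul_le_mul_right hX hp
  have h4 : (2 : ℝ) ^ ((n / 2 ^ 18 + 1 : ℕ) : ℝ) = 2 ^ (n / 2 ^ 18 + 1) := Real.rpow_natCast _ _
  have h5 : (n : ℝ) / 18432 - 1 ≤ (r : ℝ) + 1 := by
    have h6 : n < 18432 * (n / 18432) + 18432 := by omega
    have h7 : (n : ℝ) < 18432 * ((r : ℝ) + 1) + 18432 := by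
      rw [← hr] at h6
      exact_mod_cast h6
    linarith
  have h8 : ((n / 2 ^ 18 + 1 : ℕ) : ℝ) ≤ (n : ℝ) / 262144 + 1 := by
    have : 262144 * (n / 2 ^ 18) ≤ n := by
      have := Nat.mul_div_le n (2 ^ 18)
      norm_num at this ⊢
      exact this
    have h9 : (262144 : ℝ) * ((n / 2 ^ 18 : ℕ) : ℝ) ≤ n := by exact_mod_cast this
    push_cast
    push_cast at h9
    linarith
  have hn' : (1048576 : ℝ) ≤ n := by
    have : (1048576 : ℕ) ≤ n := by norm_num at hn ⊢; exact hn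
    exact_mod_cast this
  have h10 : ((n / 2 ^ 18 + 1 : ℕ) : ℝ) + (1 / 131072 : ℝ) * n + (1 + (1 / 131072 : ℝ) * n) ≤
      ((r : ℝ) + 1) / 2 := by
    nlinarith
  have h11 : (2 : ℝ) ^ (((n / 2 ^ 18 + 1 : ℕ) : ℝ) + (1 / 131072 : ℝ) * n +
      (1 + (1 / 131072 : ℝ) * n)) ≤ (2 : ℝ) ^ (((r : ℝ) + 1) / 2) :=
    Real.rpow_le_rpow_of_exponent_le (by norm_num) h10
  rw [Real.rpow_add h2, Real.rpow_add h2, Real.rpow_add h2, Real.rpow_one, h4] at h11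
  have h12 := h11.trans h3
  have h13 : (0 : ℝ) < 2 ^ (n / 2 ^ 18 + 1) * (2 : ℝ) ^ ((1 / 131072 : ℝ) * n) * 2 := by
    positivity
  have h14 : (2 ^ (n / 2 ^ 18 + 1) * (2 : ℝ) ^ ((1 / 131072 : ℝ) * n) * 2) *
      (2 : ℝ) ^ ((1 / 131072 : ℝ) * n) ≤
      (2 ^ (n / 2 ^ 18 + 1) * (2 : ℝ) ^ ((1 / 131072 : ℝ) * n) * 2) * A := by
    calc _ = 2 ^ (n / 2 ^ 18 + 1) * (2 : ℝ) ^ ((1 / 131072 : ℝ) * n) *
          (2 * (2 : ℝ) ^ ((1 / 131072 : ℝ) * n)) := by ring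
      _ ≤ _ := h12
      _ = _ := by ring
  exact le_of_mul_le_mul_left h14 h13

open Classical in
/-- the main theorem -/
theorem main_of (hDEP : s_DEP) (hRKS : s_RKS) (hWDC : s_WDC) (hCHN : s_CHN) (hTRE : s_TRE)
    (hSUP : s_SUP) (hCUT : s_CUT) (hQSP : s_QSP) (hLND : s_LND) (hKER : s_KER) (hSPN : s_SPN)
    (hROW : s_ROW) (hFIB : s_FIB) (hBAD : s_BAD) (hEXI : s_EXI) (hCNF : s_CNF) (hFRM : s_FRM)
    (hORD : s_ORD) :
    ∃ (c : ℝ) (w K n₀ : ℕ), 0 < c ∧ ∀ n : ℕ, n₀ ≤ n → ∃ F : CNF n,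
      (∀ cl ∈ F, cl.card ≤ w) ∧ F.card ≤ K * n ∧ 0 < (univ.filter fun x => F.Sat x).card ∧
      ∀ (G : ℕ) (C : DD n G) (i : Fin G),
        ((univ.filter fun x => F.Sat x).card : ℝ) ≤ (2 : ℝ) ^ (c * n) *
          (((univ.filter fun x => C.val i x = true ∧ F.Sat x).card : ℝ) -
            ((univ.filter fun x => C.val i x = true ∧ ¬F.Sat x).card : ℝ)) →
        (∀ m k : ℕ, C.NegCount m → C.NegDepth k → (2 : ℝ) ^ (c * n) ≤ G * SB m k) ∧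
        (∀ d : ℕ, C.CritDepth d → (2 : ℝ) ^ (c * n) ≤ G * 2 ^ d) ∧
        (C.Tree → (2 : ℝ) ^ (c * n) ≤ G) := by
  obtain ⟨b, hb⟩ : ∃ b : ℕ, b = 2 ^ 18 := ⟨_, rfl⟩
  have hb0 : 0 < b := by rw [hb]; norm_num
  refine ⟨1 / 131072, b * (18 + 1), 2 ^ (b * (18 + 1)), 2 ^ 20, by norm_num, ?_⟩
  intro n hn
  have hn1 : 1048576 ≤ n := by norm_num at hn; exact hn
  have hn2 : 2 ≤ n := by omega
  obtain ⟨r, hr⟩ : ∃ r, r + 1 = n / 18432 := ⟨n / 18432 - 1, by omega⟩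
  have hrn : 18432 * (r + 1) ≤ n := by rw [hr]; omega
  obtain ⟨φ, hφ⟩ := hEXI hSPN hROW hFIB hBAD n r hrn
  obtain ⟨F, σ, hw, hcard, hσ, hTσ, hmany⟩ := hFRM hCNF n 18 b φ hb0
  have hpos : 0 < (univ.filter fun x => F.Sat x).card := by
    rcases Nat.eq_zero_or_pos (univ.filter fun x => F.Sat x).card with h | h
    · rw [h, mul_zero] at hmany
      have : 0 < 2 ^ n := by positivity
      omega
    · exact h
  refine ⟨F, hw, ?_, hpos, ?_⟩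
  · refine hcard.trans ?_
    rw [mul_comm]
    refine Nat.mul_le_mul_left _ ?_
    have : n / b ≤ n / 2 := Nat.div_le_div_left (by rw [hb]; norm_num) (by norm_num)
    omega
  intro G C i hadv
  have hcorr : ∀ B : ℝ, 1 ≤ B → (C.Top i → ∃ D : Fin G → (Fin n → Bool) → ℝ,
      (∀ x, R (C.val i x) = ∑ p, D p x * C.loc p x) ∧
      (∀ p, (∃ x, D p x ≠ 0) → C.Top p ∧ C.vars p ⊆ C.vars i) ∧
      (∀ p, DepOn (C.vars p)ᶜ (D p)) ∧ ∀ p x, |D p x| ≤ B) →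
      (2 : ℝ) ^ ((1 / 131072 : ℝ) * n) ≤ G * B := by
    intro B hB hD
    have h1 := corr hDEP hSUP hCUT hQSP hLND hKER hn2 hφ C i hB hD
    have h2 := adv F σ hσ hTσ (C.val i)
    have h3 := h2.trans h1
    refine num (r := r) hb hn hr ?_
    have h4 : (2 : ℝ) ^ n ≤ 2 ^ (n / b + 1) * ((univ.filter fun x => F.Sat x).card : ℝ) := by
      exact_mod_cast hmany
    refine h4.trans (mul_le_mul_of_nonneg_left (hadv.trans ?_) (by positivity))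
    refine mul_le_mul_of_nonneg_left (h3.trans (le_of_eq ?_)) (Real.rpow_pos_of_pos (by norm_num) _).le
    ring
  refine ⟨?_, ?_, ?_⟩
  · intro m k hm hk
    obtain ⟨h, hh, hhk⟩ := hk
    refine hcorr (SB m k : ℝ) (SB_pos hRKS m k) ?_
    intro ht
    obtain ⟨D, h1, h2, h3, h4⟩ := hCHN hDEP hWDC hRKS n G C hn2 h hh i ht
    refine ⟨D, h1, h2, h3, fun p x => (h4 p x).trans ?_⟩
    have h5 : (univ.filter fun q => C.Neg q ∧ q ≤ i).card ≤ m :=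
      (Finset.card_le_card fun q hq => by
        rw [Finset.mem_filter] at hq ⊢
        exact ⟨hq.1, hq.2.1⟩).trans hm
    exact_mod_cast (hRKS.2.2.1 _ _ (h i) h5).trans (hRKS.2.2.2.1 m _ _ (hhk i))
  · intro d hd
    obtain ⟨u, h, hu, h1, h2, h3⟩ := hd
    refine hcorr (2 ^ d) (one_le_pow₀ (by norm_num)) ?_
    intro ht
    obtain ⟨D, k1, k2, k3, k4⟩ := hORD hDEP n G C hn2 u h hu h1 h2 i ht
    exact ⟨D, k1, k2, k3, fun p x => (k4 p x).trans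
      (pow_le_pow_right₀ (by norm_num) (h3 i))⟩
  · intro hT
    have := hcorr 1 le_rfl (fun ht => hTRE hDEP n G C hn2 hT i ht)
    simpa using this

end Asm

end Pool.Agent.POG
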