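import Pool.Agent.POG.Main

/-!
# Linear combinations of d-D circuits
-/

set_option autoImplicit false

namespace Pool.Agent.POG

open Finset

/-- The multiplicity bound `B`: the circuit has at most `m` NOT gates above more than two thirds of the
variables, at most `k` on a path, and `B` is at least the number of sets of at most `k` of `m` elements;
or it has at most `d` critical OR gates on a path and `2 ^ d ≤ B`; or it is tree-like and `1 ≤ B`. -/
def DD.Mult {n G : ℕ} (C : DD n G) (B : ℝ) : Prop :=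
  (∃ m k : ℕ, C.NegCount m ∧ C.NegDepth k ∧ (SB m k : ℝ) ≤ B) ∨
    (∃ d : ℕ, C.CritDepth d ∧ (2 : ℝ) ^ d ≤ B) ∨ (C.Tree ∧ 1 ≤ B)

namespace Asm

/-- expansion of a top gate with coefficients bounded by `B` -/
theorem expand (hDEP : s_DEP) (hRKS : s_RKS) (hWDC : s_WDC) (hCHN : s_CHN) (hTRE : s_TRE)
    (hORD : s_ORD) {n G : ℕ} (hn : 2 ≤ n) (C : DD n G) {B : ℝ} (hB : C.Mult B) (i : Fin G) :
    1 ≤ B ∧ (C.Top i → ∃ D : Fin G → (Fin n → Bool) → ℝ,
      (∀ x, R (C.val i x) = ∑ p, D p x * C.loc p x) ∧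
      (∀ p, (∃ x, D p x ≠ 0) → C.Top p ∧ C.vars p ⊆ C.vars i) ∧
      (∀ p, DepOn (C.vars p)ᶜ (D p)) ∧ ∀ p x, |D p x| ≤ B) := by
  classical
  rcases hB with ⟨m, k, hm, ⟨h, hh, hhk⟩, hB⟩ | ⟨d, ⟨u, h, hu, h1, h2, h3⟩, hB⟩ | ⟨hT, hB⟩
  · refine ⟨(SB_pos hRKS m k).trans hB, fun ht => ?_⟩
    obtain ⟨D, h1, h2, h3, h4⟩ := hCHN hDEP hWDC hRKS n G C hn h hh i ht
    refine ⟨D, h1, h2, h3, fun p x => (h4 p x).trans (le_trans ?_ hB)⟩
    have h5 : (univ.filter fun q => C.Neg q ∧ q ≤ i).card ≤ m :=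
      (Finset.card_le_card fun q hq => by
        rw [Finset.mem_filter] at hq ⊢
        exact ⟨hq.1, hq.2.1⟩).trans hm
    exact_mod_cast (hRKS.2.2.1 _ _ (h i) h5).trans (hRKS.2.2.2.1 m _ _ (hhk i))
  · refine ⟨(one_le_pow₀ (by norm_num)).trans hB, fun ht => ?_⟩
    obtain ⟨D, k1, k2, k3, k4⟩ := hORD hDEP n G C hn u h hu h1 h2 i ht
    exact ⟨D, k1, k2, k3, fun p x => (k4 p x).trans
      ((pow_le_pow_right₀ (by norm_num) (h3 i)).trans hB)⟩
  · refine ⟨hB, fun ht => ?_⟩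
    obtain ⟨D, h1, h2, h3, h4⟩ := hTRE hDEP n G C hn hT i ht
    exact ⟨D, h1, h2, h3, fun p x => (h4 p x).trans hB⟩

open Classical in
/-- the correlation of `T` with a function near `F` -/
theorem near {n : ℕ} {φ : Fin n → Fin 18 → Fin n} (F : CNF n) (σ : ℝ) (hσ : σ = 1 ∨ σ = -1)
    (hT : ∀ x, F.Sat x → T φ x = σ) (h : (Fin n → Bool) → ℝ) :
    ((univ.filter fun x => F.Sat x).card : ℝ) - ∑ x, |h x - (if F.Sat x then 1 else 0)| ≤
      |∑ x, T φ x * h x| := by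
  have hs : σ * σ = 1 := by rcases hσ with h | h <;> rw [h] <;> norm_num
  have hs1 : |σ| = 1 := by rcases hσ with h | h <;> rw [h] <;> norm_num
  have hT1 : ∀ x, |T φ x| = 1 := by
    intro x
    unfold T
    split_ifs <;> norm_num
  have h1 : ((univ.filter fun x => F.Sat x).card : ℝ) -
      ∑ x, |h x - (if F.Sat x then 1 else 0)| ≤ σ * ∑ x, T φ x * h x := by
    rw [Finset.card_filter, Finset.mul_sum]
    push_cast
    rw [← Finset.sum_sub_distrib]
    refine Finset.sum_le_sum fun x _ => ?_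
    have h2 : |σ * T φ x| = 1 := by rw [abs_mul, hs1, hT1, mul_one]
    by_cases hF : F.Sat x
    · rw [if_pos hF, hT x hF, ← mul_assoc, hs, one_mul]
      have := neg_abs_le (h x - 1)
      linarith
    · rw [if_neg hF, sub_zero]
      have h3 : |σ * (T φ x * h x)| = |h x| := by rw [← mul_assoc, abs_mul, h2, one_mul]
      have := neg_abs_le (σ * (T φ x * h x))
      rw [h3] at this
      linarith
  refine h1.trans ((le_abs_self _).trans ?_)
  rw [abs_mul, hs1, one_mul]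

open Classical in
/-- the main theorem for linear combinations -/
theorem main2_of (hDEP : s_DEP) (hRKS : s_RKS) (hWDC : s_WDC) (hCHN : s_CHN) (hTRE : s_TRE)
    (hSUP : s_SUP) (hCUT : s_CUT) (hQSP : s_QSP) (hLND : s_LND) (hKER : s_KER) (hSPN : s_SPN)
    (hROW : s_ROW) (hFIB : s_FIB) (hBAD : s_BAD) (hEXI : s_EXI) (hCNF : s_CNF) (hFRM : s_FRM)
    (hORD : s_ORD) :
    ∃ (c : ℝ) (w K n₀ : ℕ), 0 < c ∧ ∀ n : ℕ, n₀ ≤ n → ∃ F : CNF n,
      (∀ cl ∈ F, cl.card ≤ w) ∧ F.card ≤ K * n ∧ 0 < (univ.filter fun x => F.Sat x).card ∧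
      ∀ (s : ℕ) (G : Fin s → ℕ) (C : ∀ j, DD n (G j)) (g : ∀ j, Fin (G j)) (lam B : Fin s → ℝ),
        (∀ j, (C j).Mult (B j)) →
        (∑ x, |(∑ j, lam j * R ((C j).val (g j) x)) - (if F.Sat x then 1 else 0)| ≤
          (1 - (2 : ℝ) ^ (-(c * n))) * ((univ.filter fun x => F.Sat x).card : ℝ)) →
        (2 : ℝ) ^ (c * n) ≤ ∑ j, |lam j| * (G j * B j) := by
  obtain ⟨b, hb⟩ : ∃ b : ℕ, b = 2 ^ 18 := ⟨_, rfl⟩
  have hb0 : 0 < b := by rw [hb]; norm_num
  refine ⟨1 / 131072, b * (18 + 1), 2 ^ (b * (18 + 1)), 2 ^ 20, by norm_num, ?_⟩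
  intro n hn
  have hn1 : 1048576 ≤ n := by norm_num at hn; exact hn
  have hn2 : 2 ≤ n := by omega
  obtain ⟨r, hr⟩ : ∃ r, r + 1 = n / 18432 := ⟨n / 18432 - 1, by omega⟩
  have hrn : 18432 * (r + 1) ≤ n := by rw [hr]; omega
  obtain ⟨φ, hφ⟩ := hEXI hSPN hROW hFIB hBAD n r hrn
  obtain ⟨F, σ, hw, hcard, hσ, hTσ, hmany⟩ := hFRM hCNF n 18 b φ hb0
  have hpos : 0 < (univ.filter fun x => F.Sat x).card := by
    rcases Nat.eq_zero_or_pos (univ.filter fun x => F.Sat x).card with h | h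
    · rw [h, mul_zero] at hmany
      have : 0 < 2 ^ n := by positivity
      omega
    · exact h
  refine ⟨F, hw, ?_, hpos, ?_⟩
  · refine hcard.trans ?_
    rw [mul_comm]
    refine Nat.mul_le_mul_left _ ?_
    have : n / b ≤ n / 2 := Nat.div_le_div_left (by rw [hb]; norm_num) (by norm_num)
    omega
  intro s G C g lam B hB hnear
  set h : (Fin n → Bool) → ℝ := fun x => ∑ j, lam j * R ((C j).val (g j) x) with hh
  have hp : (0 : ℝ) < (2 : ℝ) ^ ((1 / 131072 : ℝ) * n) := Real.rpow_pos_of_pos (by norm_num) _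
  have h1 := near F σ hσ hTσ h
  have h2 : |∑ x, T φ x * h x| ≤
      2 * (∑ j, |lam j| * (G j * B j)) * Real.sqrt (4 ^ n / 2 ^ (r + 1)) := by
    have e : ∑ x, T φ x * h x = ∑ j, lam j * ∑ x, T φ x * R ((C j).val (g j) x) := by
      simp only [hh, Finset.mul_sum]
      rw [Finset.sum_comm]
      refine Finset.sum_congr rfl fun j _ => Finset.sum_congr rfl fun x _ => ?_
      ring
    rw [e]
    refine (Finset.abs_sum_le_sum_abs _ _).trans ?_
    rw [Finset.mul_sum, Finset.sum_mul]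
    refine Finset.sum_le_sum fun j _ => ?_
    rw [abs_mul]
    obtain ⟨hB1, hD⟩ := expand hDEP hRKS hWDC hCHN hTRE hORD hn2 (C j) (hB j) (g j)
    have := corr hDEP hSUP hCUT hQSP hLND hKER hn2 hφ (C j) (g j) hB1 hD
    calc |lam j| * |∑ x, T φ x * R ((C j).val (g j) x)|
        ≤ |lam j| * (2 * G j * B j * Real.sqrt (4 ^ n / 2 ^ (r + 1))) :=
          mul_le_mul_of_nonneg_left this (abs_nonneg _)
      _ = _ := by ring
  have h3 : (2 : ℝ) ^ (-((1 / 131072 : ℝ) * n)) * ((univ.filter fun x => F.Sat x).card : ℝ) ≤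
      2 * (∑ j, |lam j| * (G j * B j)) * Real.sqrt (4 ^ n / 2 ^ (r + 1)) := by
    refine le_trans ?_ (h1.trans h2)
    linarith
  refine num (r := r) hb hn hr ?_
  have h4 : (2 : ℝ) ^ n ≤ 2 ^ (n / b + 1) * ((univ.filter fun x => F.Sat x).card : ℝ) := by
    exact_mod_cast hmany
  refine h4.trans (mul_le_mul_of_nonneg_left ?_ (by positivity))
  have h5 := mul_le_mul_of_nonneg_left h3 hp.le
  rw [← mul_assoc, ← Real.rpow_add (by norm_num : (0 : ℝ) < 2), add_neg_cancel, Real.rpow_zero,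
    one_mul] at h5
  exact h5

end Asm

end Pool.Agent.POG
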