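import Pool.Agent.POG.Stmts2


/-!
# Expansion of a circuit with few critical OR gates on each path (MP_153864_lc), following the module
POG_TRE
-/

set_option autoImplicit false

namespace Pool.Agent.POG

open Finset

namespace ORD

variable {n G : ℕ}

lemma vars_mono (C : DD n G) {i a : Fin G} (h : (C.node i).In a) : C.vars a ⊆ C.vars i := by
  rw [C.vars_eq i]
  cases hn : C.node i with
  | leaf S f => rw [hn] at h; exact h.elim
  | neg b =>
    rw [hn] at h
    have h' : a = b := h
    subst h'
    simp [Node.vs]
  | and b c =>
    rw [hn] at h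
    rcases h with h | h
    · subst h; simp [Node.vs]
    · subst h; simp [Node.vs]
  | or b c =>
    rw [hn] at h
    rcases h with h | h
    · subst h; simp [Node.vs]
    · subst h; simp [Node.vs]

/-- Below a gate which is not large nothing changes. -/
lemma relax_small (C : DD n G) {u : Fin G → (Fin n → Bool) → Bool} (hu : C.Relax u) :
    ∀ i : Fin G, 3 * (C.vars i).card ≤ 2 * n → ∀ x, u i x = C.val i x := by
  intro i
  induction i using WellFoundedLT.induction with
  | ind i ih =>
  intro hi x
  have hneg : ¬C.Neg i := fun h => absurd h.2 (not_lt.2 hi)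
  rw [hu.2 i hneg x, C.val_eq i x]
  have ch : ∀ a, (C.node i).In a → u a x = C.val a x := fun a ha =>
    ih a (C.acyc i a ha) ((Nat.mul_le_mul_left 3 (Finset.card_le_card (vars_mono C ha))).trans hi) x
  cases hn : C.node i with
  | leaf S f => rfl
  | neg a =>
    rw [hn] at ch
    simp only [Node.ev]
    rw [ch a rfl]
  | and a b =>
    rw [hn] at ch
    simp only [Node.ev]
    rw [ch a (Or.inl rfl), ch b (Or.inr rfl)]
  | or a b =>
    rw [hn] at ch
    simp only [Node.ev]
    rw [ch a (Or.inl rfl), ch b (Or.inr rfl)]

/-- The new functions are larger. -/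
lemma relax_le (C : DD n G) {u : Fin G → (Fin n → Bool) → Bool} (hu : C.Relax u) :
    ∀ i : Fin G, ∀ x, C.val i x = true → u i x = true := by
  intro i
  induction i using WellFoundedLT.induction with
  | ind i ih =>
  intro x hx
  by_cases hneg : C.Neg i
  · exact hu.1 i hneg x
  · have ch : ∀ a, (C.node i).In a → C.val a x = true → u a x = true := fun a ha =>
      ih a (C.acyc i a ha) x
    cases hn : C.node i with
    | leaf S f =>
      rw [hu.2 i hneg x]
      rw [C.val_eq i x] at hx
      rw [hn] at hx ⊢
      exact hx
    | neg a =>
      have hsm : 3 * (C.vars i).card ≤ 2 * n := by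
        by_contra hc
        exact hneg ⟨⟨a, hn⟩, not_le.1 hc⟩
      rw [relax_small C hu i hsm x]
      exact hx
    | and a b =>
      rw [hu.2 i hneg x]
      rw [C.val_eq i x] at hx
      rw [hn] at hx ch ⊢
      simp only [Node.ev, Bool.and_eq_true] at hx ⊢
      exact ⟨ch a (Or.inl rfl) hx.1, ch b (Or.inr rfl) hx.2⟩
    | or a b =>
      rw [hu.2 i hneg x]
      rw [C.val_eq i x] at hx
      rw [hn] at hx ch ⊢
      simp only [Node.ev, Bool.or_eq_true] at hx ⊢
      exact hx.imp (ch a (Or.inl rfl)) (ch b (Or.inr rfl))

/-- The guard property. -/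
def Gd (C : DD n G) (u : Fin G → (Fin n → Bool) → Bool) (i : Fin G)
    (D : Fin G → (Fin n → Bool) → ℝ) : Prop :=
  ∀ p x, D p x ≠ 0 → ∀ y : Fin n → Bool, (∀ w, w ∉ C.vars p → y w = x w) →
    C.val p y = true → u i y = true

/-- The coefficients for the gate `i`. -/
def Good (C : DD n G) (h : Fin G → ℕ) (u : Fin G → (Fin n → Bool) → Bool) (i : Fin G)
    (D : Fin G → (Fin n → Bool) → ℝ) : Prop :=
  (∀ p, (∃ x, D p x ≠ 0) → C.Top p ∧ C.vars p ⊆ C.vars i ∧ p ≤ i) ∧
    (∀ p, DepOn (C.vars p)ᶜ (D p)) ∧ (∀ p x, |D p x| ≤ 2 ^ h i) ∧ Gd C u i D

lemma comb (C : DD n G) (h : Fin G → ℕ) (u : Fin G → (Fin n → Bool) → Bool) (hu : C.Relax u)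
    (i : Fin G) (hi : C.Top i)
    (E : Fin G → (Fin n → Bool) → ℝ)
    (h1 : ∀ p, (∃ x, E p x ≠ 0) → C.Top p ∧ C.vars p ⊆ C.vars i ∧ p ≤ i)
    (h0 : ∀ x, E i x = 0)
    (h2 : ∀ p, DepOn (C.vars p)ᶜ (E p)) (h3 : ∀ p x, |E p x| ≤ 2 ^ h i)
    (h5 : Gd C u i E)
    (h4 : ∀ x, R (C.val i x) = C.loc i x + ∑ p, E p x * C.loc p x) :
    ∃ D, Good C h u i D ∧ ∀ x, R (C.val i x) = ∑ p, D p x * C.loc p x := by
  classical
  refine ⟨fun p x => if p = i then 1 else E p x, ⟨?_, ?_, ?_, ?_⟩, ?_⟩
  · rintro p ⟨x, hx⟩
    by_cases hp : p = i
    · subst hp
      exact ⟨hi, subset_rfl, le_rfl⟩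
    · simp only [hp, if_false] at hx
      exact h1 p ⟨x, hx⟩
  · intro p x y hxy
    by_cases hp : p = i
    · simp [hp]
    · simp only [hp, if_false]
      exact h2 p x y hxy
  · intro p x
    by_cases hp : p = i
    · simp only [hp, if_true, abs_one]
      exact one_le_pow₀ (by norm_num)
    · simp only [hp, if_false]
      exact h3 p x
  · intro p x hx y hy hv
    by_cases hp : p = i
    · subst hp
      exact relax_le C hu p y hv
    · simp only [hp, if_false] at hx
      exact h5 p x hx y hy hv
  · intro x
    rw [h4 x]
    have : ∀ p, (if p = i then (1 : ℝ) else E p x) * C.loc p x =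
        (if p = i then C.loc p x else 0) + E p x * C.loc p x := by
      intro p
      by_cases hp : p = i
      · subst hp; simp [h0 x]
      · simp [hp]
    rw [Finset.sum_congr rfl (fun p _ => this p), Finset.sum_add_distrib]
    simp

lemma Rt : R true = 1 := by simp [R]
lemma Rf : R false = 0 := by simp [R]

lemma R_nonneg (b : Bool) : 0 ≤ R b := by cases b <;> simp [R]
lemma R_le (b : Bool) : R b ≤ 1 := by cases b <;> simp [R]

end ORD

open ORD Classical in
theorem t_ORD : s_ORD := by
  intro hDEP n G C hn u h hu hmono hor
  have main : ∀ i : Fin G, C.Top i →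
      ∃ D, Good C h u i D ∧ ∀ x, R (C.val i x) = ∑ p, D p x * C.loc p x := by
    intro i
    induction i using WellFoundedLT.induction with
    | ind i ih =>
    intro hi
    -- coefficients for a child
    have child : ∀ a, (C.node i).In a → ∃ D, Good C h u a D ∧ (∀ x, D i x = 0) ∧
        (¬ C.Top a → ∀ p x, D p x = 0) ∧
        ∀ x, R (C.val a x) = (if C.Top a then 0 else R (C.val a x)) +
          ∑ p, D p x * C.loc p x := by
      intro a ha
      by_cases hta : C.Top a
      · obtain ⟨D, hD, hD'⟩ := ih a (C.acyc i a ha) hta
        refine ⟨D, hD, ?_, fun h => absurd hta h, ?_⟩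
        · intro x
          by_contra hx
          have h1 := (hD.1 i ⟨x, hx⟩).2.2
          exact absurd (C.acyc i a ha) (not_lt.2 h1)
        · intro x
          rw [if_pos hta, zero_add]
          exact hD' x
      · refine ⟨fun _ _ => 0, ⟨?_, ?_, ?_, ?_⟩, fun _ => rfl, fun _ _ _ => rfl, ?_⟩
        · rintro p ⟨x, hx⟩; exact absurd rfl hx
        · intro p x y _; rfl
        · intro p x; simp
        · intro p x hx; exact absurd rfl hx
        · intro x
          rw [if_neg hta]; simp
    have up : ∀ a, (C.node i).In a → ∀ D, Good C h u a D → ∀ p, (∃ x, D p x ≠ 0) →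
        C.Top p ∧ C.vars p ⊆ C.vars i ∧ p ≤ i := by
      intro a ha D hD p hp
      obtain ⟨h1, h2, h3⟩ := hD.1 p hp
      exact ⟨h1, h2.trans (vars_mono C ha), h3.trans (C.acyc i a ha).le⟩
    cases hnode : C.node i with
    | leaf S f =>
      exfalso
      have h1 := (C.leaf i S f hnode).1
      have h2 := hi.1
      have h3 : C.vars i = S := by rw [C.vars_eq i, hnode]; rfl
      rw [h3] at h2
      omega
    | neg a =>
      have ha : (C.node i).In a := by rw [hnode]; rfl
      obtain ⟨D, hD, hDi, hD0, hDv⟩ := child a ha
      have hva : C.vars i = C.vars a := by rw [C.vars_eq i, hnode]; rfl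
      have hval : ∀ x, R (C.val i x) = 1 - R (C.val a x) := by
        intro x
        rw [C.val_eq i x, hnode]
        simp only [Node.ev]
        cases C.val a x <;> simp [R]
      have hloc : ∀ x, C.loc i x = 1 := by
        intro x
        simp only [DD.loc, hnode]
      have hva0 : ∀ x, R (C.val a x) = ∑ p, D p x * C.loc p x := by
        intro x
        by_cases hta : C.Top a
        · have := hDv x
          rw [if_pos hta, zero_add] at this
          exact this
        · have h1 : ¬ ∃ x, C.val a x = true := by
            intro h
            exact hta ⟨by rw [← hva]; exact hi.1, h⟩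
          have h2 : C.val a x = false := by
            by_contra hc
            exact h1 ⟨x, by simpa using hc⟩
          rw [h2, Rf]
          rw [Finset.sum_eq_zero]
          intro p _
          rw [hD0 hta p x, zero_mul]
      apply comb C h u hu i hi (fun p x => - D p x)
      · rintro p ⟨x, hx⟩
        exact up a ha D hD p ⟨x, by simpa using hx⟩
      · intro x; simp [hDi x]
      · intro p x y hxy
        show - D p x = - D p y
        rw [hD.2.1 p x y hxy]
      · intro p x
        show |- D p x| ≤ 2 ^ h i
        rw [abs_neg]
        exact (hD.2.2.1 p x).trans (pow_le_pow_right₀ (by norm_num) (hmono i a ha))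
      · intro p x _ y _ _
        exact hu.1 i ⟨⟨a, hnode⟩, hi.1⟩ y
      · intro x
        rw [hval x, hloc x, hva0 x]
        simp only [neg_mul, Finset.sum_neg_distrib]
        ring
    | or a b =>
      have ha : (C.node i).In a := by rw [hnode]; exact Or.inl rfl
      have hb : (C.node i).In b := by rw [hnode]; exact Or.inr rfl
      have hng : ¬C.Neg i := by
        rintro ⟨⟨c, hc⟩, _⟩
        rw [hnode] at hc
        cases hc
      have hui : ∀ x, u i x = (u a x || u b x) := by
        intro x
        rw [hu.2 i hng x, hnode]
        rfl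
      obtain ⟨D, hD, hDi, hD0, hDv⟩ := child a ha
      obtain ⟨D', hD', hDi', hD0', hDv'⟩ := child b hb
      have hval : ∀ x, R (C.val i x) = R (C.val a x) + R (C.val b x) := by
        intro x
        have hdet := C.det i a b hnode x
        rw [C.val_eq i x, hnode]
        simp only [Node.ev]
        revert hdet
        cases C.val a x <;> cases C.val b x <;> simp [R]
      have hloc : ∀ x, C.loc i x = (if C.Top a then 0 else R (C.val a x)) +
          (if C.Top b then 0 else R (C.val b x)) := by
        intro x
        simp only [DD.loc, hnode]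
      apply comb C h u hu i hi (fun p x => D p x + D' p x)
      · rintro p ⟨x, hx⟩
        by_cases hx1 : D p x = 0
        · have hx2 : D' p x ≠ 0 := by
            intro h'; apply hx; simp [hx1, h']
          exact up b hb D' hD' p ⟨x, hx2⟩
        · exact up a ha D hD p ⟨x, hx1⟩
      · intro x; simp [hDi x, hDi' x]
      · intro p x y hxy
        show D p x + D' p x = D p y + D' p y
        rw [hD.2.1 p x y hxy, hD'.2.1 p x y hxy]
      · intro p x
        show |D p x + D' p x| ≤ 2 ^ h i
        by_cases hc : C.Crit u i a b
        · have hinc := hor i a b hc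
          have k1 : |D p x| ≤ 2 ^ (h i - 1) :=
            (hD.2.2.1 p x).trans (pow_le_pow_right₀ (by norm_num) (by omega))
          have k2 : |D' p x| ≤ 2 ^ (h i - 1) :=
            (hD'.2.2.1 p x).trans (pow_le_pow_right₀ (by norm_num) (by omega))
          have k3 : (2 : ℝ) ^ h i = 2 ^ (h i - 1) + 2 ^ (h i - 1) := by
            have : h i = h i - 1 + 1 := by omega
            rw [this, pow_succ, Nat.add_sub_cancel]
            ring
          rw [k3]
          exact (abs_add_le _ _).trans (add_le_add k1 k2)
        · have hc' : ∀ y, ¬(u a y = true ∧ u b y = true) := fun y hy =>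
            hc ⟨hnode, hi.1, y, hy⟩
          by_cases hx1 : D p x = 0
          · rw [hx1, zero_add]
            exact (hD'.2.2.1 p x).trans (pow_le_pow_right₀ (by norm_num) (hmono i b hb))
          · by_cases hx2 : D' p x = 0
            · rw [hx2, add_zero]
              exact (hD.2.2.1 p x).trans (pow_le_pow_right₀ (by norm_num) (hmono i a ha))
            · exfalso
              obtain ⟨x0, hx0⟩ := (hD.1 p ⟨x, hx1⟩).1.2
              set y : Fin n → Bool := fun w => if w ∈ C.vars p then x0 w else x w with hy
              have hy1 : ∀ w, w ∉ C.vars p → y w = x w := fun w hw => by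
                simp only [hy, if_neg hw]
              have hy2 : C.val p y = true := by
                rw [← hx0]
                exact hDEP n G C p y x0 fun w hw => by simp only [hy, if_pos hw]
              exact hc' y ⟨hD.2.2.2 p x hx1 y hy1 hy2, hD'.2.2.2 p x hx2 y hy1 hy2⟩
      · intro p x hx y hy hv
        rw [hui y, Bool.or_eq_true]
        by_cases hx1 : D p x = 0
        · have hx2 : D' p x ≠ 0 := by
            intro h'; apply hx; simp [hx1, h']
          exact Or.inr (hD'.2.2.2 p x hx2 y hy hv)
        · exact Or.inl (hD.2.2.2 p x hx1 y hy hv)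
      · intro x
        rw [hval x, hloc x]
        have h1 := hDv x
        have h2 := hDv' x
        simp only [add_mul, Finset.sum_add_distrib]
        linarith
    | and a b =>
      have ha : (C.node i).In a := by rw [hnode]; exact Or.inl rfl
      have hb : (C.node i).In b := by rw [hnode]; exact Or.inr rfl
      have hdis : Disjoint (C.vars a) (C.vars b) := C.dec i a b hnode
      have hng : ¬C.Neg i := by
        rintro ⟨⟨c, hc⟩, _⟩
        rw [hnode] at hc
        cases hc
      have hui : ∀ x, u i x = (u a x && u b x) := by
        intro x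
        rw [hu.2 i hng x, hnode]
        rfl
      have hval : ∀ x, R (C.val i x) = R (C.val a x) * R (C.val b x) := by
        intro x
        rw [C.val_eq i x, hnode]
        simp only [Node.ev]
        cases C.val a x <;> cases C.val b x <;> simp [R]
      have hloc : ∀ x, C.loc i x = if C.Top a ∨ C.Top b then 0 else R (C.val i x) := by
        intro x
        simp only [DD.loc, hnode]
      have hcard : (C.vars a).card + (C.vars b).card ≤ n := by
        rw [← Finset.card_union_of_disjoint hdis]
        have := Finset.card_le_univ (C.vars a ∪ C.vars b)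
        simpa using this
      -- one child `c` is top, the other one is `v`
      have one : ∀ c v : Fin G, (C.node i).In c → (C.node i).In v →
          Disjoint (C.vars c) (C.vars v) → C.Top c →
          (∀ x, R (C.val i x) = R (C.val c x) * R (C.val v x)) →
          (∀ x, C.loc i x = 0) → (∀ x, u c x = true → u v x = true → u i x = true) →
          ∃ D, Good C h u i D ∧ ∀ x, R (C.val i x) = ∑ p, D p x * C.loc p x := by
        intro c v hc hv hcv htc hval' hloc' hui'
        obtain ⟨D, hD, hDi, hD0, hDv⟩ := child c hc
        have vind : ∀ p x y, D p x ≠ 0 → (∀ w, w ∉ C.vars p → y w = x w) →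
            C.val v y = C.val v x := by
          intro p x y hz hxy
          have h1 := (hD.1 p ⟨x, hz⟩).2.1
          apply hDEP n G C v y x
          intro w hw
          apply hxy w
          intro hw'
          exact (Finset.disjoint_left.1 hcv) (h1 hw') hw
        apply comb C h u hu i hi (fun p x => R (C.val v x) * D p x)
        · rintro p ⟨x, hx⟩
          exact up c hc D hD p ⟨x, fun h' => hx (by simp [h'])⟩
        · intro x; simp [hDi x]
        · intro p x y hxy
          show R (C.val v x) * D p x = R (C.val v y) * D p y
          rw [hD.2.1 p x y hxy]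
          by_cases hz : D p y = 0
          · rw [hz, mul_zero, mul_zero]
          · rw [vind p y x hz fun w hw => hxy w (Finset.mem_compl.2 hw)]
        · intro p x
          show |R (C.val v x) * D p x| ≤ 2 ^ h i
          rw [abs_mul]
          have h1 : |R (C.val v x)| ≤ 1 := by
            rw [abs_of_nonneg (R_nonneg _)]; exact R_le _
          calc |R (C.val v x)| * |D p x| ≤ 1 * 2 ^ h i :=
                mul_le_mul h1 ((hD.2.2.1 p x).trans
                  (pow_le_pow_right₀ (by norm_num) (hmono i c hc))) (abs_nonneg _) zero_le_one
            _ = 2 ^ h i := one_mul _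
        · intro p x hx y hy hvy
          have hx1 : D p x ≠ 0 := fun h' => hx (by simp [h'])
          have hx2 : C.val v x = true := by
            by_contra hf
            apply hx
            have : C.val v x = false := by simpa using hf
            simp [this, Rf]
          refine hui' y (hD.2.2.2 p x hx1 y hy hvy) (relax_le C hu v y ?_)
          rw [vind p x y hx1 hy]
          exact hx2
        · intro x
          rw [hval' x, hloc' x, zero_add]
          have h1 := hDv x
          rw [if_pos htc, zero_add] at h1
          rw [h1, Finset.sum_mul]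
          apply Finset.sum_congr rfl
          intro p _
          ring
      by_cases hta : C.Top a
      · exact one a b ha hb hdis hta hval (fun x => by rw [hloc x, if_pos (Or.inl hta)])
          fun x h1 h2 => by rw [hui x, h1, h2]; rfl
      · by_cases htb : C.Top b
        · exact one b a hb ha hdis.symm htb (fun x => by rw [hval x, mul_comm])
            (fun x => by rw [hloc x, if_pos (Or.inr htb)])
            fun x h1 h2 => by rw [hui x, h1, h2]; rfl
        · apply comb C h u hu i hi (fun _ _ => 0)
          · rintro p ⟨x, hx⟩; exact absurd rfl hx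
          · intro x; rfl
          · intro p x y _; rfl
          · intro p x; simp
          · intro p x hx; exact absurd rfl hx
          · intro x
            rw [hloc x, if_neg (by tauto)]
            simp
  intro i hi
  obtain ⟨D, hD, hv⟩ := main i hi
  exact ⟨D, hv, fun p hp => ⟨(hD.1 p hp).1, (hD.1 p hp).2.1⟩, hD.2.1, hD.2.2.1⟩

end Pool.Agent.POG
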