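import Pool.Agent.POG.Stmts

set_option autoImplicit false

/-!
# QSP: the quadratic form along a cut
-/

namespace Pool.Agent.POG

open Finset

namespace QSPAux

theorem own_sum {n d : ℕ} (S : Finset (Fin n)) (ψ : Fin d → Fin n) (g : Fin n → ZMod 2) :
    ∑ y, own S ψ y * g y = ∑ t, if ψ t ∈ S then 0 else g (ψ t) := by
  have h : ∀ y, own S ψ y * g y = ∑ t, if y ∈ S then 0 else if ψ t = y then g y else 0 := by
    intro y
    unfold own
    split_ifs with hy
    · simp
    · rw [Finset.sum_mul]
      refine Finset.sum_congr rfl fun t _ => ?_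
      rw [ite_mul, one_mul, zero_mul]
  rw [Finset.sum_congr rfl fun y _ => h y, Finset.sum_comm]
  refine Finset.sum_congr rfl fun t _ => ?_
  rw [Finset.sum_eq_single (ψ t)]
  · rw [if_pos rfl]
  · intro y _ hy
    rw [if_neg (Ne.symm hy), ite_self]
  · exact fun h => absurd (Finset.mem_univ _) h

theorem in_sum {n d : ℕ} (φ : Fin n → Fin d → Fin n) (S : Finset (Fin n)) (f : Fin n → ZMod 2) :
    ∑ i ∈ S, f i * ∑ y, (if y ∈ S then 0 else ∑ t, if φ y t = i then (1 : ZMod 2) else 0) * f y =
      ∑ y, ∑ t, if y ∈ S then 0 else if φ y t ∈ S then f y * f (φ y t) else 0 := by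
  have h : ∀ i, f i * ∑ y, (if y ∈ S then 0 else ∑ t, if φ y t = i then (1 : ZMod 2) else 0) * f y =
      ∑ y, ∑ t, if y ∈ S then 0 else if φ y t = i then f y * f i else 0 := by
    intro i
    rw [Finset.mul_sum]
    refine Finset.sum_congr rfl fun y _ => ?_
    split_ifs with hy
    · simp
    · rw [Finset.sum_mul, Finset.mul_sum]
      refine Finset.sum_congr rfl fun t _ => ?_
      split_ifs
      · ring
      · ring
  rw [Finset.sum_congr rfl fun i _ => h i, Finset.sum_comm]
  refine Finset.sum_congr rfl fun y _ => ?_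
  rw [Finset.sum_comm]
  refine Finset.sum_congr rfl fun t _ => ?_
  split_ifs with hy ht
  · simp
  · rw [Finset.sum_eq_single (φ y t)]
    · rw [if_pos rfl]
    · intro i _ hi
      rw [if_neg (Ne.symm hi)]
    · exact fun h => absurd ht h
  · refine Finset.sum_eq_zero fun i hi => ?_
    rw [if_neg]
    rintro rfl
    exact ht hi

theorem memsum {n : ℕ} (S : Finset (Fin n)) (h : Fin n → ZMod 2) :
    ∑ i ∈ S, h i = ∑ i, if i ∈ S then h i else 0 := by
  rw [Finset.sum_ite_mem, Finset.univ_inter]

end QSPAux

open QSPAux in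
theorem t_QSP : s_QSP := by
  intro n d φ S
  refine ⟨fun x => ∑ i, ∑ t, if i ∈ S then (if φ i t ∈ S then z (x i) * z (x (φ i t)) else 0) else 0,
    fun x => ∑ i, ∑ t, if i ∈ S then 0 else if φ i t ∈ S then 0 else z (x i) * z (x (φ i t)),
    ?_, ?_, ?_⟩
  · intro x y h
    refine Finset.sum_congr rfl fun i _ => Finset.sum_congr rfl fun t _ => ?_
    split_ifs with h1 h2
    · rw [h _ h1, h _ h2]
    · rfl
    · rfl
  · intro x y h
    refine Finset.sum_congr rfl fun i _ => Finset.sum_congr rfl fun t _ => ?_
    split_ifs with h1 h2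
    · rfl
    · rfl
    · rw [h _ (Finset.mem_compl.2 h1), h _ (Finset.mem_compl.2 h2)]
  · intro x
    have h1 : ∑ i ∈ S, z (x i) * ∑ y, row φ S i y * z (x y) =
        (∑ i, ∑ t, if i ∈ S then (if φ i t ∈ S then 0 else z (x i) * z (x (φ i t))) else 0) +
          ∑ i, ∑ t, if i ∈ S then 0 else if φ i t ∈ S then z (x i) * z (x (φ i t)) else 0 := by
      have h2 : ∀ i, z (x i) * ∑ y, row φ S i y * z (x y) =
          z (x i) * (∑ t, if φ i t ∈ S then 0 else z (x (φ i t))) +
            z (x i) * ∑ y, (if y ∈ S then 0 else ∑ t, if φ y t = i then (1 : ZMod 2) else 0) *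
              z (x y) := by
        intro i
        rw [← own_sum S (φ i) fun y => z (x y), ← mul_add, ← Finset.sum_add_distrib]
        congr 1
        refine Finset.sum_congr rfl fun y _ => ?_
        unfold row
        rw [add_mul]
      rw [Finset.sum_congr rfl fun i _ => h2 i, Finset.sum_add_distrib,
        in_sum φ S fun y => z (x y), memsum]
      congr 1
      refine Finset.sum_congr rfl fun i _ => ?_
      split_ifs with hi
      · rw [Finset.mul_sum]
        refine Finset.sum_congr rfl fun t _ => ?_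
        rw [mul_ite, mul_zero]
      · simp
    rw [h1, qf, ← Finset.sum_add_distrib, ← Finset.sum_add_distrib, ← Finset.sum_add_distrib]
    refine Finset.sum_congr rfl fun i _ => ?_
    rw [← Finset.sum_add_distrib, ← Finset.sum_add_distrib, ← Finset.sum_add_distrib]
    refine Finset.sum_congr rfl fun t _ => ?_
    split_ifs <;> simp

end Pool.Agent.POG
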