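import Pool.Agent.POG.Stmts

/-!
# A sum over ranks and binomial sums (module RKS)
-/

set_option autoImplicit false

namespace Pool.Agent.POG

open Finset

namespace RKSAux

theorem rank_sum (G : ℕ) (g : ℕ → ℝ) (N : Finset (Fin G)) :
    ∑ p ∈ N, g ((N.filter fun q => q < p).card) = ∑ t ∈ range N.card, g t := by
  induction N using Finset.induction_on_max with
  | empty => simp
  | insert a s hlt ih =>
    have ha : a ∉ s := fun h => lt_irrefl _ (hlt a h)
    have h1 : (insert a s).filter (fun q => q < a) = s := by
      ext x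
      simp only [Finset.mem_filter, Finset.mem_insert]
      constructor
      · rintro ⟨rfl | h, h2⟩
        · exact absurd h2 (lt_irrefl _)
        · exact h
      · exact fun h => ⟨Or.inr h, hlt x h⟩
    rw [Finset.sum_insert ha, h1, Finset.card_insert_of_notMem ha, Finset.sum_range_succ, ← ih, add_comm]
    congr 1
    refine Finset.sum_congr rfl fun p hp => ?_
    have h2 : (insert a s).filter (fun q => q < p) = s.filter (fun q => q < p) := by
      rw [Finset.filter_insert, if_neg (not_lt.mpr (hlt p hp).le)]
    rw [h2]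

theorem SB_zero_left (k : ℕ) : SB 0 k = 1 := by
  unfold SB
  rw [Finset.sum_range_succ']
  simp

theorem SB_succ (m k : ℕ) : SB (m + 1) (k + 1) = SB m (k + 1) + SB m k := by
  unfold SB
  rw [Finset.sum_range_succ', Finset.sum_range_succ' (fun j => m.choose j) (k + 1)]
  simp only [Nat.choose_succ_succ, Finset.sum_add_distrib, Nat.choose_zero_right]
  ring

theorem SB_mono_left {m m' : ℕ} (k : ℕ) (h : m ≤ m') : SB m k ≤ SB m' k :=
  Finset.sum_le_sum fun j _ => Nat.choose_le_choose j h

theorem SB_mono_right (m : ℕ) {k k' : ℕ} (h : k ≤ k') : SB m k ≤ SB m k' :=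
  Finset.sum_le_sum_of_subset (Finset.range_subset_range.mpr (by omega))

theorem SB_zero_right (m : ℕ) : SB m 0 = 1 := by
  simp [SB]

end RKSAux

theorem t_RKS : s_RKS := by
  refine ⟨fun G N g => RKSAux.rank_sum G g N, ?_, fun m m' k h => RKSAux.SB_mono_left k h,
    fun m k k' h => RKSAux.SB_mono_right m h, ?_, RKSAux.SB_zero_right⟩
  · intro m k
    induction m with
    | zero => simp [RKSAux.SB_zero_left]
    | succ m ih => rw [Finset.sum_range_succ, ← add_assoc, ih, RKSAux.SB_succ]
  · intro m k
    rw [← RKSAux.SB_zero_right m]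
    exact RKSAux.SB_mono_right m (Nat.zero_le _)

end Pool.Agent.POG
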