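import Pool.Agent.POG.Stmts

/-!
# Module POG_ROW
-/

set_option autoImplicit false

namespace Pool.Agent.POG

open Finset

theorem ROW_line {n r : ℕ} (U : Submodule (ZMod 2) (Fin n → ZMod 2))
    (hU : Module.finrank (ZMod 2) U ≤ r) (w : Fin n → ZMod 2) (Y : Finset (Fin n))
    (hY : ∀ y ∈ Y, (Pi.single y 1 + w : Fin n → ZMod 2) ∈ U) : Y.card ≤ r + 1 := by
  by_cases hne : Y = ∅
  · simp [hne]
  obtain ⟨y0, hy0⟩ := Finset.nonempty_iff_ne_empty.2 hne
  have hmem : ∀ y ∈ Y, (Pi.single y 1 - Pi.single y0 1 : Fin n → ZMod 2) ∈ U := fun y hy => by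
    have := U.sub_mem (hY y hy) (hY y0 hy0)
    rwa [add_sub_add_right_eq_sub] at this
  let v : {y // y ∈ Y.erase y0} → U := fun y => ⟨_, hmem y.1 (Finset.mem_of_mem_erase y.2)⟩
  have hli : LinearIndependent (ZMod 2) v := by
    rw [Fintype.linearIndependent_iff]
    intro g hg y
    have h1 := congrArg (fun u : U => (u : Fin n → ZMod 2) y.1) hg
    have hyne : y.1 ≠ y0 := Finset.ne_of_mem_erase y.2
    simp only [v, Submodule.coe_sum, Submodule.coe_smul, Finset.sum_apply, Pi.smul_apply,
      Pi.sub_apply, smul_eq_mul, Submodule.coe_zero, Pi.zero_apply] at h1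
    rw [Finset.sum_eq_single y] at h1
    · rw [Pi.single_eq_same, Pi.single_eq_of_ne hyne, sub_zero, mul_one] at h1
      exact h1
    · intro i _ hi
      have h2 : y.1 ≠ i.1 := fun h => hi (Subtype.ext h.symm)
      rw [Pi.single_eq_of_ne h2, Pi.single_eq_of_ne hyne, sub_zero, mul_zero]
    · intro h; exact absurd (Finset.mem_univ _) h
  have h2 := hli.fintype_card_le_finrank
  rw [Fintype.card_coe, Finset.card_erase_of_mem hy0] at h2
  omega

open Classical in
theorem t_ROW : s_ROW := by
  intro n d r S c U hU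
  have hsub : (univ.filter fun ψ : Fin d → Fin n => own S ψ + c ∈ U) ⊆
      (Fintype.piFinset fun _ : Fin d => S) ∪ (univ : Finset (Fin d)).biUnion fun t₀ =>
        univ.filter fun ψ : Fin d → Fin n => ψ t₀ ∉ S ∧ own S ψ + c ∈ U := by
    intro ψ hψ
    rw [mem_filter] at hψ
    rw [mem_union, Fintype.mem_piFinset, mem_biUnion]
    by_cases h : ∀ t, ψ t ∈ S
    · exact Or.inl h
    · push Not at h
      obtain ⟨t₀, ht⟩ := h
      exact Or.inr ⟨t₀, mem_univ _, mem_filter.2 ⟨mem_univ _, ht, hψ.2⟩⟩
  refine (card_le_card hsub).trans ((card_union_le _ _).trans (Nat.add_le_add ?_ ?_))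
  · rw [Fintype.card_piFinset_const]
  · refine card_biUnion_le.trans ?_
    have hb : ∀ t₀ ∈ (univ : Finset (Fin d)),
        (univ.filter fun ψ : Fin d → Fin n => ψ t₀ ∉ S ∧ own S ψ + c ∈ U).card ≤
          (r + 1) * n ^ (d - 1) := by
      intro t₀ _
      let F : (Fin d → Fin n) → ({t : Fin d // t ≠ t₀} → Fin n) := fun ψ t => ψ t.1
      refine (card_le_mul_card_image (f := F)
        (univ.filter fun ψ : Fin d → Fin n => ψ t₀ ∉ S ∧ own S ψ + c ∈ U) (r + 1) ?_).trans ?_
      · intro ρ _
        let o : Fin n → ZMod 2 := fun y => if y ∈ S then 0 else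
          ∑ t : {t : Fin d // t ≠ t₀}, if ρ t = y then 1 else 0
        have hinj : Set.InjOn (fun ψ : Fin d → Fin n => ψ t₀)
            ((univ.filter fun ψ : Fin d → Fin n => ψ t₀ ∉ S ∧ own S ψ + c ∈ U).filter
              fun ψ => F ψ = ρ : Finset (Fin d → Fin n)) := by
          intro ψ hψ ψ' hψ' h
          rw [mem_coe, mem_filter] at hψ hψ'
          funext t
          by_cases ht : t = t₀
          · rw [ht]; exact h
          · have := congrFun (hψ.2.trans hψ'.2.symm) ⟨t, ht⟩
            exact this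
        rw [← card_image_of_injOn hinj]
        refine ROW_line U hU (o + c) _ ?_
        intro y hy
        rw [mem_image] at hy
        obtain ⟨ψ, hψ, rfl⟩ := hy
        rw [mem_filter, mem_filter] at hψ
        obtain ⟨⟨-, h1, h2⟩, h3⟩ := hψ
        have h4 : own S ψ = Pi.single (ψ t₀) 1 + o := by
          funext y
          simp only [own, Pi.add_apply, o]
          by_cases hy : y ∈ S
          · rw [if_pos hy, if_pos hy]
            have : y ≠ ψ t₀ := fun h => h1 (h ▸ hy)
            rw [Pi.single_eq_of_ne this, add_zero]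
          · rw [if_neg hy, if_neg hy, Fintype.sum_eq_add_sum_subtype_ne _ t₀, ← h3]
            congr 1
            by_cases h5 : ψ t₀ = y
            · rw [if_pos h5, h5, Pi.single_eq_same]
            · rw [if_neg h5, Pi.single_eq_of_ne (Ne.symm h5)]
        rw [h4, add_assoc] at h2
        exact h2
      · refine Nat.mul_le_mul_left _ ((card_le_univ _).trans ?_)
        rw [Fintype.card_fun, Fintype.card_fin, Fintype.card_subtype_compl,
          Fintype.card_fin, Fintype.card_subtype_eq]
    refine (sum_le_sum hb).trans ?_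
    rw [sum_const, card_univ, Fintype.card_fin, smul_eq_mul]

end Pool.Agent.POG
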