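import Pool.Agent.POG.Stmts

/-!
# Module SPN: small rank
-/

set_option autoImplicit false

namespace Pool.Agent.POG

/-- **SPN**. -/
theorem t_SPN : s_SPN := by
  classical
  intro n r f S h
  obtain ⟨b, hbS, -, hspan, hind⟩ := exists_linearIndepOn_extension (K := ZMod 2) (v := f)
    (linearIndepOn_empty (ZMod 2) f) (Set.empty_subset (S : Set (Fin n)))
  have hR : ((b.toFinset : Finset (Fin n)) : Set (Fin n)) = b := Set.coe_toFinset b
  have hRS : b.toFinset ⊆ S := by
    intro i hi
    exact hbS (Set.mem_toFinset.1 hi)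
  refine ⟨b.toFinset, hRS, ?_, ?_⟩
  · by_contra hc
    obtain ⟨T, hT, hTc⟩ := Finset.exists_subset_card_eq (n := r + 1) (s := b.toFinset) (by omega)
    refine h T (hT.trans hRS) hTc ?_
    have h1 : LinearIndepOn (ZMod 2) f (T : Set (Fin n)) :=
      hind.mono (by
        intro i hi
        exact Set.mem_toFinset.1 (hT hi))
    exact h1
  · intro i hi
    rw [hR]
    exact hspan ⟨i, hi, rfl⟩

end Pool.Agent.POG
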