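import Pool.Agent.POG.Stmts

/-! # Choice of a balanced cut -/

set_option autoImplicit false

namespace Pool.Agent.POG

theorem t_SUP : s_SUP := by
  intro n hn V hV
  have key : ∀ U : Finset (Fin n), V ⊆ U → 2 * n < 3 * U.card →
      ∃ S : Finset (Fin n), V ⊆ S ∧ S ⊆ U ∧ n ≤ 3 * S.card ∧ 3 * S.card ≤ 2 * n := by
    intro U hU h
    obtain ⟨S, h1, h2, h3⟩ := Finset.exists_subsuperset_card_eq hU
      (le_max_left V.card ((n + 2) / 3)) (max_le (Finset.card_le_card hU) (by omega))
    refine ⟨S, h1, h2, ?_, ?_⟩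
    · rw [h3]
      have := le_max_right V.card ((n + 2) / 3)
      omega
    · rw [h3]
      rcases max_choice V.card ((n + 2) / 3) with h4 | h4 <;> rw [h4] <;> omega
  refine ⟨key, ?_⟩
  obtain ⟨S, h1, _, h3, h4⟩ := key Finset.univ (Finset.subset_univ _) (by
    rw [Finset.card_univ, Fintype.card_fin]; omega)
  exact ⟨S, h1, h3, h4⟩

end Pool.Agent.POG
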