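import Pool.Agent.POG.Stmts

/-!
# Module POG_TRE: expansion of a tree-like circuit (MP_153864_lc)
-/

set_option autoImplicit false

namespace Pool.Agent.POG

open Finset

namespace TRE

variable {n G : ℕ}

/-- `p` is below `i` or equal to `i`. -/
def Below (C : DD n G) (p i : Fin G) : Prop :=
  Relation.ReflTransGen (fun p j => (C.node j).In p) p i

lemma Below.le {C : DD n G} {p i : Fin G} (h : Below C p i) : p ≤ i := by
  induction h with
  | refl => exact le_rfl
  | tail _ h ih => exact ih.trans (C.acyc _ _ h).le

lemma vars_mono (C : DD n G) {i a : Fin G} (h : (C.node i).In a) : C.vars a ⊆ C.vars i := by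
  rw [C.vars_eq i]
  cases hn : C.node i with
  | leaf S f => rw [hn] at h; exact h.elim
  | neg b =>
    rw [hn] at h
    have h' : a = b := h
    subst h'
    simp [Node.vs]
  | and b c =>
    rw [hn] at h
    rcases h with h | h
    · subst h; simp [Node.vs]
    · subst h; simp [Node.vs]
  | or b c =>
    rw [hn] at h
    rcases h with h | h
    · subst h; simp [Node.vs]
    · subst h; simp [Node.vs]

/-- The coefficients for the gate `i`. -/
def Good (C : DD n G) (i : Fin G) (D : Fin G → (Fin n → Bool) → ℝ) : Prop :=
  (∀ p, (∃ x, D p x ≠ 0) → C.Top p ∧ C.vars p ⊆ C.vars i ∧ Below C p i) ∧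
    (∀ p, DepOn (C.vars p)ᶜ (D p)) ∧ ∀ p x, |D p x| ≤ 1

lemma comb (C : DD n G) (i : Fin G) (hi : C.Top i) (E : Fin G → (Fin n → Bool) → ℝ)
    (h1 : ∀ p, (∃ x, E p x ≠ 0) → C.Top p ∧ C.vars p ⊆ C.vars i ∧ Below C p i)
    (h0 : ∀ x, E i x = 0)
    (h2 : ∀ p, DepOn (C.vars p)ᶜ (E p)) (h3 : ∀ p x, |E p x| ≤ 1)
    (h4 : ∀ x, R (C.val i x) = C.loc i x + ∑ p, E p x * C.loc p x) :
    ∃ D, Good C i D ∧ ∀ x, R (C.val i x) = ∑ p, D p x * C.loc p x := by
  classical
  refine ⟨fun p x => if p = i then 1 else E p x, ⟨?_, ?_, ?_⟩, ?_⟩
  · rintro p ⟨x, hx⟩
    by_cases hp : p = i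
    · subst hp
      exact ⟨hi, subset_rfl, Relation.ReflTransGen.refl⟩
    · simp only [hp, if_false] at hx
      exact h1 p ⟨x, hx⟩
  · intro p x y hxy
    by_cases hp : p = i
    · simp [hp]
    · simp only [hp, if_false]
      exact h2 p x y hxy
  · intro p x
    by_cases hp : p = i
    · simp [hp]
    · simp only [hp, if_false]
      exact h3 p x
  · intro x
    rw [h4 x]
    have : ∀ p, (if p = i then (1 : ℝ) else E p x) * C.loc p x =
        (if p = i then C.loc p x else 0) + E p x * C.loc p x := by
      intro p
      by_cases hp : p = i
      · subst hp; simp [h0 x]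
      · simp [hp]
    rw [Finset.sum_congr rfl (fun p _ => this p), Finset.sum_add_distrib]
    simp

lemma Rt : R true = 1 := by simp [R]
lemma Rf : R false = 0 := by simp [R]

lemma R_nonneg (b : Bool) : 0 ≤ R b := by cases b <;> simp [R]
lemma R_le (b : Bool) : R b ≤ 1 := by cases b <;> simp [R]

end TRE

open TRE Classical in
theorem t_TRE : s_TRE := by
  intro hDEP n G C hn hT
  have main : ∀ i : Fin G, C.Top i →
      ∃ D, Good C i D ∧ ∀ x, R (C.val i x) = ∑ p, D p x * C.loc p x := by
    intro i
    induction i using WellFoundedLT.induction with
    | ind i ih =>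
    intro hi
    -- coefficients for a child
    have child : ∀ a, (C.node i).In a → ∃ D, Good C a D ∧ (∀ x, D i x = 0) ∧
        (¬ C.Top a → ∀ p x, D p x = 0) ∧
        ∀ x, R (C.val a x) = (if C.Top a then 0 else R (C.val a x)) +
          ∑ p, D p x * C.loc p x := by
      intro a ha
      by_cases hta : C.Top a
      · obtain ⟨D, hD, hD'⟩ := ih a (C.acyc i a ha) hta
        refine ⟨D, hD, ?_, fun h => absurd hta h, ?_⟩
        · intro x
          by_contra hx
          have h1 := (hD.1 i ⟨x, hx⟩).2.2.le
          exact absurd (C.acyc i a ha) (not_lt.2 h1)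
        · intro x
          rw [if_pos hta, zero_add]
          exact hD' x
      · refine ⟨fun _ _ => 0, ⟨?_, ?_, ?_⟩, fun _ => rfl, fun _ _ _ => rfl, ?_⟩
        · rintro p ⟨x, hx⟩; exact absurd rfl hx
        · intro p x y _; rfl
        · intro p x; simp
        · intro x
          rw [if_neg hta]; simp
    have up : ∀ a, (C.node i).In a → ∀ D, Good C a D → ∀ p, (∃ x, D p x ≠ 0) →
        C.Top p ∧ C.vars p ⊆ C.vars i ∧ Below C p i := by
      intro a ha D hD p hp
      obtain ⟨h1, h2, h3⟩ := hD.1 p hp
      exact ⟨h1, h2.trans (vars_mono C ha), h3.tail ha⟩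
    cases hnode : C.node i with
    | leaf S f =>
      exfalso
      have h1 := (C.leaf i S f hnode).1
      have h2 := hi.1
      have h3 : C.vars i = S := by rw [C.vars_eq i, hnode]; rfl
      rw [h3] at h2
      omega
    | neg a =>
      have ha : (C.node i).In a := by rw [hnode]; rfl
      obtain ⟨D, hD, hDi, hD0, hDv⟩ := child a ha
      have hva : C.vars i = C.vars a := by rw [C.vars_eq i, hnode]; rfl
      have hval : ∀ x, R (C.val i x) = 1 - R (C.val a x) := by
        intro x
        rw [C.val_eq i x, hnode]
        simp only [Node.ev]
        cases C.val a x <;> simp [R]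
      have hloc : ∀ x, C.loc i x = 1 := by
        intro x
        simp only [DD.loc, hnode]
      have hva0 : ∀ x, R (C.val a x) = ∑ p, D p x * C.loc p x := by
        intro x
        by_cases hta : C.Top a
        · have := hDv x
          rw [if_pos hta, zero_add] at this
          exact this
        · have h1 : ¬ ∃ x, C.val a x = true := by
            intro h
            exact hta ⟨by rw [← hva]; exact hi.1, h⟩
          have h2 : C.val a x = false := by
            by_contra hc
            exact h1 ⟨x, by simpa using hc⟩
          rw [h2, Rf]
          rw [Finset.sum_eq_zero]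
          intro p _
          rw [hD0 hta p x, zero_mul]
      apply comb C i hi (fun p x => - D p x)
      · rintro p ⟨x, hx⟩
        exact up a ha D hD p ⟨x, by simpa using hx⟩
      · intro x; simp [hDi x]
      · intro p x y hxy
        show - D p x = - D p y
        rw [hD.2.1 p x y hxy]
      · intro p x
        show |- D p x| ≤ 1
        rw [abs_neg]
        exact hD.2.2 p x
      · intro x
        rw [hval x, hloc x, hva0 x]
        simp only [neg_mul, Finset.sum_neg_distrib]
        ring
    | or a b =>
      have ha : (C.node i).In a := by rw [hnode]; exact Or.inl rfl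
      have hb : (C.node i).In b := by rw [hnode]; exact Or.inr rfl
      have hab : a ≠ b := hT.2 i a b (Or.inr hnode)
      obtain ⟨D, hD, hDi, hD0, hDv⟩ := child a ha
      obtain ⟨D', hD', hDi', hD0', hDv'⟩ := child b hb
      have hval : ∀ x, R (C.val i x) = R (C.val a x) + R (C.val b x) := by
        intro x
        have hdet := C.det i a b hnode x
        rw [C.val_eq i x, hnode]
        simp only [Node.ev]
        revert hdet
        cases C.val a x <;> cases C.val b x <;> simp [R]
      have hloc : ∀ x, C.loc i x = (if C.Top a then 0 else R (C.val a x)) +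
          (if C.Top b then 0 else R (C.val b x)) := by
        intro x
        simp only [DD.loc, hnode]
      have hru : Relator.RightUnique (fun p j => (C.node j).In p) := by
        intro p j k h1 h2
        exact hT.1 j k p h1 h2
      have key : ∀ u v : Fin G, (C.node i).In u → (C.node i).In v → u ≠ v → ¬ Below C u v := by
        intro u v hu hv huv h
        rcases Relation.ReflTransGen.cases_head h with h | ⟨j, h1, h2⟩
        · exact huv h
        · have : j = i := hT.1 j i u h1 hu
          subst this
          exact absurd (C.acyc j v hv) (not_lt.2 (Below.le (C := C) h2))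
      have hex : ∀ p x, D p x = 0 ∨ D' p x = 0 := by
        intro p x
        by_contra hc
        push Not at hc
        have h1 := (hD.1 p ⟨x, hc.1⟩).2.2
        have h2 := (hD'.1 p ⟨x, hc.2⟩).2.2
        rcases Relation.ReflTransGen.total_of_right_unique hru h1 h2 with h | h
        · exact key a b ha hb hab h
        · exact key b a hb ha hab.symm h
      apply comb C i hi (fun p x => D p x + D' p x)
      · rintro p ⟨x, hx⟩
        by_cases hx1 : D p x = 0
        · have hx2 : D' p x ≠ 0 := by
            intro h; apply hx; simp [hx1, h]
          exact up b hb D' hD' p ⟨x, hx2⟩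
        · exact up a ha D hD p ⟨x, hx1⟩
      · intro x; simp [hDi x, hDi' x]
      · intro p x y hxy
        show D p x + D' p x = D p y + D' p y
        rw [hD.2.1 p x y hxy, hD'.2.1 p x y hxy]
      · intro p x
        show |D p x + D' p x| ≤ 1
        rcases hex p x with h | h
        · rw [h, zero_add]; exact hD'.2.2 p x
        · rw [h, add_zero]; exact hD.2.2 p x
      · intro x
        rw [hval x, hloc x]
        have h1 := hDv x
        have h2 := hDv' x
        simp only [add_mul, Finset.sum_add_distrib]
        linarith
    | and a b =>
      have ha : (C.node i).In a := by rw [hnode]; exact Or.inl rfl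
      have hb : (C.node i).In b := by rw [hnode]; exact Or.inr rfl
      have hdis : Disjoint (C.vars a) (C.vars b) := C.dec i a b hnode
      have hval : ∀ x, R (C.val i x) = R (C.val a x) * R (C.val b x) := by
        intro x
        rw [C.val_eq i x, hnode]
        simp only [Node.ev]
        cases C.val a x <;> cases C.val b x <;> simp [R]
      have hloc : ∀ x, C.loc i x = if C.Top a ∨ C.Top b then 0 else R (C.val i x) := by
        intro x
        simp only [DD.loc, hnode]
      have hcard : (C.vars a).card + (C.vars b).card ≤ n := by
        rw [← Finset.card_union_of_disjoint hdis]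
        have := Finset.card_le_univ (C.vars a ∪ C.vars b)
        simpa using this
      -- one child `u` is top, the other one is `v`
      have one : ∀ u v : Fin G, (C.node i).In u → (C.node i).In v →
          Disjoint (C.vars u) (C.vars v) → C.Top u →
          (∀ x, R (C.val i x) = R (C.val u x) * R (C.val v x)) →
          (∀ x, C.loc i x = 0) →
          ∃ D, Good C i D ∧ ∀ x, R (C.val i x) = ∑ p, D p x * C.loc p x := by
        intro u v hu hv huv htu hval' hloc'
        obtain ⟨D, hD, hDi, hD0, hDv⟩ := child u hu
        apply comb C i hi (fun p x => R (C.val v x) * D p x)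
        · rintro p ⟨x, hx⟩
          exact up u hu D hD p ⟨x, fun h => hx (by simp [h])⟩
        · intro x; simp [hDi x]
        · intro p x y hxy
          show R (C.val v x) * D p x = R (C.val v y) * D p y
          rw [hD.2.1 p x y hxy]
          by_cases hz : D p y = 0
          · rw [hz, mul_zero, mul_zero]
          · have h1 := (hD.1 p ⟨y, hz⟩).2.1
            have h2 : C.val v x = C.val v y := by
              apply hDEP n G C v x y
              intro w hw
              apply hxy w
              rw [Finset.mem_compl]
              intro hw'
              exact (Finset.disjoint_left.1 huv) (h1 hw') hw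
            rw [h2]
        · intro p x
          show |R (C.val v x) * D p x| ≤ 1
          rw [abs_mul]
          have h1 : |R (C.val v x)| ≤ 1 := by
            rw [abs_of_nonneg (R_nonneg _)]; exact R_le _
          calc |R (C.val v x)| * |D p x| ≤ 1 * 1 :=
                mul_le_mul h1 (hD.2.2 p x) (abs_nonneg _) zero_le_one
            _ = 1 := one_mul 1
        · intro x
          rw [hval' x, hloc' x, zero_add]
          have h1 := hDv x
          rw [if_pos htu, zero_add] at h1
          rw [h1, Finset.sum_mul]
          apply Finset.sum_congr rfl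
          intro p _
          ring
      by_cases hta : C.Top a
      · exact one a b ha hb hdis hta hval (fun x => by rw [hloc x, if_pos (Or.inl hta)])
      · by_cases htb : C.Top b
        · exact one b a hb ha hdis.symm htb (fun x => by rw [hval x, mul_comm])
            (fun x => by rw [hloc x, if_pos (Or.inr htb)])
        · apply comb C i hi (fun _ _ => 0)
          · rintro p ⟨x, hx⟩; exact absurd rfl hx
          · intro x; rfl
          · intro p x y _; rfl
          · intro p x; simp
          · intro x
            rw [hloc x, if_neg (by tauto)]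
            simp
  intro i hi
  obtain ⟨D, hD, hv⟩ := main i hi
  exact ⟨D, hv, fun p hp => ⟨(hD.1 p hp).1, (hD.1 p hp).2.1⟩, hD.2.1, hD.2.2⟩

end Pool.Agent.POG
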