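import Pool.Agent.POG.Stmts

/-!
# Expansion of a top gate down to the NOT gates (module POG_WDC)
-/

set_option autoImplicit false

namespace Pool.Agent.POG

open Finset

namespace WDCAux

variable {n G : ℕ} (C : DD n G)

theorem R_nonneg (b : Bool) : 0 ≤ R b := by
  unfold R
  split_ifs
  · exact zero_le_one
  · exact le_rfl

theorem R_le (b : Bool) : R b ≤ 1 := by
  unfold R
  split_ifs
  · exact le_rfl
  · exact zero_le_one

theorem R_and (a b : Bool) : R (a && b) = R a * R b := by
  cases a <;> cases b <;> simp [R]

theorem R_or (a b : Bool) (h : ¬(a = true ∧ b = true)) : R (a || b) = R a + R b := by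
  cases a <;> cases b <;> simp_all [R]

/-- The properties of an expansion which are carried through the induction. -/
structure Ex (i : Fin G) (W : Fin G → (Fin n → Bool) → ℝ) : Prop where
  nn : ∀ p x, 0 ≤ W p x
  mx : ∀ p x, W p x * R (C.val p x) ≤ R (C.val i x)
  sup : ∀ p, (∃ x, W p x ≠ 0) → C.Top p ∧ p ≤ i ∧ C.vars p ⊆ C.vars i ∧
      ∀ h : Fin G → ℕ, (∀ j a, (C.node j).In a → h a ≤ h j) → h p ≤ h i
  dep : ∀ p, DepOn (C.vars p)ᶜ (W p)

theorem ex_zero (i : Fin G) : Ex C i fun _ _ => 0 where
  nn := fun _ _ => le_rfl
  mx := fun p x => by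
    rw [zero_mul]
    exact R_nonneg _
  sup := fun p ⟨x, hx⟩ => absurd rfl hx
  dep := fun p x y _ => rfl

/-- The coefficient of the gate itself. -/
theorem upd {i : Fin G} {W : Fin G → (Fin n → Bool) → ℝ} (hW : Ex C i W) (h0 : ∀ x, W i x = 0)
    (hT : C.Top i) :
    Ex C i (Function.update W i fun _ => 1) ∧
      ∀ x, ∑ p, Function.update W i (fun _ => (1 : ℝ)) p x * C.loc' p x =
        C.loc' i x + ∑ p, W p x * C.loc' p x := by
  refine ⟨⟨fun p x => ?_, fun p x => ?_, fun p hp => ?_, fun p => ?_⟩, fun x => ?_⟩
  · by_cases h : p = i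
    · subst h
      rw [Function.update_self]
      exact zero_le_one
    · rw [Function.update_of_ne h]
      exact hW.nn p x
  · by_cases h : p = i
    · subst h
      rw [Function.update_self, one_mul]
    · rw [Function.update_of_ne h]
      exact hW.mx p x
  · by_cases h : p = i
    · subst h
      exact ⟨hT, le_rfl, Finset.Subset.refl _, fun _ _ => le_rfl⟩
    · rw [Function.update_of_ne h] at hp
      exact hW.sup p hp
  · by_cases h : p = i
    · subst h
      rw [Function.update_self]
      exact fun _ _ _ => rfl
    · rw [Function.update_of_ne h]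
      exact hW.dep p
  · rw [← Finset.add_sum_erase _ _ (Finset.mem_univ i),
      ← Finset.add_sum_erase _ (fun p => W p x * C.loc' p x) (Finset.mem_univ i),
      Function.update_self, h0 x, one_mul, zero_mul, zero_add]
    congr 1
    refine Finset.sum_congr rfl fun p hp => ?_
    rw [Function.update_of_ne (Finset.ne_of_mem_erase hp)]

/-- An expansion of an input gives an expansion which vanishes at the gate. -/
theorem lift_zero {i a : Fin G} (ha : (C.node i).In a) {W : Fin G → (Fin n → Bool) → ℝ}
    (hW : Ex C a W) (x : Fin n → Bool) : W i x = 0 := by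
  by_contra h
  have h1 := (hW.sup i ⟨x, h⟩).2.1
  exact absurd (C.acyc i a ha) (not_lt.mpr h1)

theorem lift_sup {i a : Fin G} (ha : (C.node i).In a) (hv : C.vars a ⊆ C.vars i)
    {W : Fin G → (Fin n → Bool) → ℝ} (hW : Ex C a W) (p : Fin G) (hp : ∃ x, W p x ≠ 0) :
    C.Top p ∧ p ≤ i ∧ C.vars p ⊆ C.vars i ∧
      ∀ h : Fin G → ℕ, (∀ j a, (C.node j).In a → h a ≤ h j) → h p ≤ h i := by
  obtain ⟨h1, h2, h3, h4⟩ := hW.sup p hp
  exact ⟨h1, h2.trans (C.acyc i a ha).le, h3.trans hv,
    fun h hh => (h4 h hh).trans (hh i a ha)⟩

/-- The product case: one input is top. -/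
theorem ex_and (hD : s_DEP) {i a b : Fin G} (ha : (C.node i).In a)
    (hv : C.vars a ⊆ C.vars i) (hd : Disjoint (C.vars a) (C.vars b))
    (hi : ∀ x, R (C.val i x) = R (C.val b x) * R (C.val a x))
    {W : Fin G → (Fin n → Bool) → ℝ} (hW : Ex C a W) :
    Ex C i fun p x => R (C.val b x) * W p x where
  nn := fun p x => mul_nonneg (R_nonneg _) (hW.nn p x)
  mx := fun p x => by
    rw [hi x, mul_assoc]
    exact mul_le_mul_of_nonneg_left (hW.mx p x) (R_nonneg _)
  sup := fun p ⟨x, hx⟩ => lift_sup C ha hv hW p ⟨x, right_ne_zero_of_mul hx⟩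
  dep := fun p x y hxy => by
    change R (C.val b x) * W p x = R (C.val b y) * W p y
    rw [hW.dep p x y hxy]
    by_cases h : W p y = 0
    · rw [h, mul_zero, mul_zero]
    · have h1 := (hW.sup p ⟨y, h⟩).2.2.1
      have h2 : C.val b x = C.val b y := by
        apply hD n G C b x y
        intro v hv'
        apply hxy v
        rw [Finset.mem_compl]
        intro hv''
        exact Finset.disjoint_left.mp hd (h1 hv'') hv'
      rw [h2]

/-- An expansion of an input, which is zero if the input is not top. -/
theorem child (a : Fin G) (h : C.Top a → ∃ W : Fin G → (Fin n → Bool) → ℝ, Ex C a W ∧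
      ∀ x, R (C.val a x) = ∑ p, W p x * C.loc' p x) :
    ∃ W : Fin G → (Fin n → Bool) → ℝ, Ex C a W ∧ (C.Top a → ∀ x,
      ∑ p, W p x * C.loc' p x = R (C.val a x)) ∧ (¬ C.Top a → ∀ x, ∑ p, W p x * C.loc' p x = 0) := by
  by_cases ha : C.Top a
  · obtain ⟨W, hW, hs⟩ := h ha
    exact ⟨W, hW, fun _ x => (hs x).symm, fun h => absurd ha h⟩
  · refine ⟨fun _ _ => 0, ex_zero C a, fun h => absurd h ha, fun _ x => ?_⟩
    exact Finset.sum_eq_zero fun p _ => zero_mul _

theorem main (hD : s_DEP) (hn : 2 ≤ n) (i : Fin G) : C.Top i →
    ∃ W : Fin G → (Fin n → Bool) → ℝ, Ex C i W ∧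
      ∀ x, R (C.val i x) = ∑ p, W p x * C.loc' p x := by
  classical
  induction i using WellFoundedLT.induction with
  | ind i ih =>
    intro hT
    have hve := C.vars_eq i
    have hva := C.val_eq i
    cases hnode : C.node i with
    | leaf S f =>
      exfalso
      rw [hnode] at hve
      have h1 := (C.leaf i S f hnode).1
      have h2 := hT.1
      rw [hve] at h2
      change 2 * n < 3 * S.card at h2
      omega
    | neg a =>
      obtain ⟨h1, h2⟩ := upd C (ex_zero C i) (fun _ => rfl) hT
      refine ⟨_, h1, fun x => ?_⟩
      rw [h2 x]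
      have h3 : ∑ p, (0 : ℝ) * C.loc' p x = 0 := Finset.sum_eq_zero fun p _ => zero_mul _
      rw [h3, add_zero]
      simp only [DD.loc', hnode]
    | or a b =>
      have haI : (C.node i).In a := by
        rw [hnode]
        exact Or.inl rfl
      have hbI : (C.node i).In b := by
        rw [hnode]
        exact Or.inr rfl
      rw [hnode] at hve
      change C.vars i = C.vars a ∪ C.vars b at hve
      have hav : C.vars a ⊆ C.vars i := by
        rw [hve]
        exact Finset.subset_union_left
      have hbv : C.vars b ⊆ C.vars i := by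
        rw [hve]
        exact Finset.subset_union_right
      have hR : ∀ x, R (C.val i x) = R (C.val a x) + R (C.val b x) := by
        intro x
        have h1 := hva x
        rw [hnode] at h1
        change C.val i x = (C.val a x || C.val b x) at h1
        rw [h1]
        exact R_or _ _ (C.det i a b hnode x)
      obtain ⟨Wa, hWa, hsa, hsa'⟩ := child C a (ih a (C.acyc i a haI))
      obtain ⟨Wb, hWb, hsb, hsb'⟩ := child C b (ih b (C.acyc i b hbI))
      have hE : Ex C i fun p x => Wa p x + Wb p x := by
        refine ⟨fun p x => add_nonneg (hWa.nn p x) (hWb.nn p x), fun p x => ?_, fun p hp => ?_,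
          fun p x y hxy => ?_⟩
        · rw [hR x, add_mul]
          exact add_le_add (hWa.mx p x) (hWb.mx p x)
        · obtain ⟨x, hx⟩ := hp
          by_cases h : Wa p x = 0
          · refine lift_sup C hbI hbv hWb p ⟨x, fun h' => hx ?_⟩
            rw [h, h', add_zero]
          · exact lift_sup C haI hav hWa p ⟨x, h⟩
        · change Wa p x + Wb p x = Wa p y + Wb p y
          rw [hWa.dep p x y hxy, hWb.dep p x y hxy]
      obtain ⟨h1, h2⟩ := upd C hE (fun x => by
        change Wa i x + Wb i x = 0
        rw [lift_zero C haI hWa x, lift_zero C hbI hWb x, add_zero]) hT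
      refine ⟨_, h1, fun x => ?_⟩
      rw [h2 x, hR x]
      have h3 : ∑ p, (Wa p x + Wb p x) * C.loc' p x =
          ∑ p, Wa p x * C.loc' p x + ∑ p, Wb p x * C.loc' p x := by
        rw [← Finset.sum_add_distrib]
        exact Finset.sum_congr rfl fun p _ => add_mul _ _ _
      rw [h3]
      have h4 : C.loc' i x = (if C.Top a then 0 else R (C.val a x)) +
          (if C.Top b then 0 else R (C.val b x)) := by
        simp only [DD.loc', DD.loc, hnode]
      rw [h4]
      by_cases hta : C.Top a
      · rw [if_pos hta, hsa hta x]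
        by_cases htb : C.Top b
        · rw [if_pos htb, hsb htb x]
          ring
        · rw [if_neg htb, hsb' htb x]
          ring
      · rw [if_neg hta, hsa' hta x]
        by_cases htb : C.Top b
        · rw [if_pos htb, hsb htb x]
          ring
        · rw [if_neg htb, hsb' htb x]
          ring
    | and a b =>
      have haI : (C.node i).In a := by
        rw [hnode]
        exact Or.inl rfl
      have hbI : (C.node i).In b := by
        rw [hnode]
        exact Or.inr rfl
      rw [hnode] at hve
      change C.vars i = C.vars a ∪ C.vars b at hve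
      have hav : C.vars a ⊆ C.vars i := by
        rw [hve]
        exact Finset.subset_union_left
      have hbv : C.vars b ⊆ C.vars i := by
        rw [hve]
        exact Finset.subset_union_right
      have hdis := C.dec i a b hnode
      have hR : ∀ x, R (C.val i x) = R (C.val a x) * R (C.val b x) := by
        intro x
        have h1 := hva x
        rw [hnode] at h1
        change C.val i x = (C.val a x && C.val b x) at h1
        rw [h1]
        exact R_and _ _
      have hnot : ¬ (C.Top a ∧ C.Top b) := by
        rintro ⟨⟨ha, -⟩, hb, -⟩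
        have h1 : (C.vars a ∪ C.vars b).card ≤ n := by
          have := Finset.card_le_univ (C.vars a ∪ C.vars b)
          rwa [Fintype.card_fin] at this
        rw [Finset.card_union_of_disjoint hdis] at h1
        omega
      obtain ⟨Wa, hWa, hsa, hsa'⟩ := child C a (ih a (C.acyc i a haI))
      obtain ⟨Wb, hWb, hsb, hsb'⟩ := child C b (ih b (C.acyc i b hbI))
      have h4 : C.loc' i = fun x => if C.Top a ∨ C.Top b then 0 else R (C.val i x) := by
        funext x
        simp only [DD.loc', DD.loc, hnode]
      by_cases hta : C.Top a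
      · have hE := ex_and C hD haI hav hdis (fun x => by rw [hR x, mul_comm]) hWa
        obtain ⟨h1, h2⟩ := upd C hE (fun x => by
          change R (C.val b x) * Wa i x = 0
          rw [lift_zero C haI hWa x, mul_zero]) hT
        refine ⟨_, h1, fun x => ?_⟩
        rw [h2 x, hR x, h4]
        have h3 : ∑ p, R (C.val b x) * Wa p x * C.loc' p x =
            R (C.val b x) * ∑ p, Wa p x * C.loc' p x := by
          rw [Finset.mul_sum]
          exact Finset.sum_congr rfl fun p _ => mul_assoc _ _ _
        rw [h3, hsa hta x]
        change _ = (if C.Top a ∨ C.Top b then 0 else R (C.val i x)) + _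
        rw [if_pos (Or.inl hta)]
        ring
      · by_cases htb : C.Top b
        · have hE := ex_and C hD hbI hbv hdis.symm (fun x => hR x) hWb
          obtain ⟨h1, h2⟩ := upd C hE (fun x => by
            change R (C.val a x) * Wb i x = 0
            rw [lift_zero C hbI hWb x, mul_zero]) hT
          refine ⟨_, h1, fun x => ?_⟩
          rw [h2 x, hR x, h4]
          have h3 : ∑ p, R (C.val a x) * Wb p x * C.loc' p x =
              R (C.val a x) * ∑ p, Wb p x * C.loc' p x := by
            rw [Finset.mul_sum]
            exact Finset.sum_congr rfl fun p _ => mul_assoc _ _ _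
          rw [h3, hsb htb x]
          change _ = (if C.Top a ∨ C.Top b then 0 else R (C.val i x)) + _
          rw [if_pos (Or.inr htb)]
          ring
        · obtain ⟨h1, h2⟩ := upd C (ex_zero C i) (fun _ => rfl) hT
          refine ⟨_, h1, fun x => ?_⟩
          rw [h2 x]
          have h3 : ∑ p, (0 : ℝ) * C.loc' p x = 0 := Finset.sum_eq_zero fun p _ => zero_mul _
          rw [h3, add_zero, h4]
          change _ = (if C.Top a ∨ C.Top b then 0 else R (C.val i x))
          rw [if_neg (by rintro (h | h); exacts [hta h, htb h])]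

end WDCAux

/-- WDC: expansion of a top gate down to the NOT gates. -/
theorem t_WDC : s_WDC := by
  classical
  intro hD n G C hn i hT
  obtain ⟨W, hW, hs⟩ := WDCAux.main C hD hn i hT
  refine ⟨W, hs, hW.nn, fun p x => ?_, hW.sup, hW.dep⟩
  by_cases h : W p x = 0
  · rw [h]
    exact zero_le_one
  · obtain ⟨⟨-, x0, hx0⟩, -⟩ := hW.sup p ⟨x, h⟩
    have h1 : W p x = W p fun v => if v ∈ C.vars p then x0 v else x v := by
      apply hW.dep p
      intro v hv
      rw [if_neg (Finset.mem_compl.mp hv)]
    have h2 : C.val p (fun v => if v ∈ C.vars p then x0 v else x v) = true := by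
      rw [← hx0]
      apply hD n G C p
      intro v hv
      rw [if_pos hv]
    have h3 := hW.mx p fun v => if v ∈ C.vars p then x0 v else x v
    rw [h2, ← h1] at h3
    have h4 : R true = 1 := if_pos rfl
    rw [h4, mul_one] at h3
    exact h3.trans (WDCAux.R_le _)

end Pool.Agent.POG
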