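import Pool.Agent.POG.Defs

/-!
# Statements of the modules POG_XXX (MP_153864_lc)

Module `POG_XXX`: `theorem Pool.Agent.POG.t_XXX : s_XXX` in `Pool/Agent/POG/XXX.lean`; a statement of the
form `s_A → ...` may use `s_A` as a hypothesis.

Main theorem (assembly by the architect). There are sparse quadratic forms `q` over `F_2` all of whose
balanced cuts have rank `≥ n / 18432` (EXI), so `T = (-1)^q` has correlation `≤ 2 ^ (-rank / 2)` with
each bounded product over a balanced cut (LND, KER). `q` is a sum of few local forms, fixing their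
values gives a CNF `F` of high density on which `T` is constant (FRM). A d-D circuit is a sum of at
most `2 G` bounded products over balanced cuts (CHN, TRE, CUT): so it has small correlation with `T`.
-/

set_option autoImplicit false

namespace Pool.Agent.POG

open Finset

/-! ### Circuits -/

/-- DEP (40 lines). The value of a gate depends only on the variables below it.
Proof. Strong induction on `i` (`Fin G`), cases on `C.node i`: rewrite with `C.val_eq`, `C.vars_eq`,
`Node.ev`, `Node.vs`; for a leaf use `C.leaf`. The inputs are smaller by `C.acyc`. -/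
def s_DEP : Prop := ∀ (n G : ℕ) (C : DD n G) (i : Fin G) (x y : Fin n → Bool),
  (∀ v ∈ C.vars i, x v = y v) → C.val i x = C.val i y

/-- RKS (60 lines). A sum over ranks and a binomial identity.
Proof. (1) Induction on `N` with `Finset.induction_on_max` (the maximum has rank `card`, the ranks of the
others do not change); or: `p ↦ rank p` is a bijection from `N` to `range N.card`.
(2) `∑_{t<m} C(t, j) = C(m, j + 1)` (`Nat.sum_range_choose_succ...` or induction on `m`), so
`∑_{t<m} SB t k = ∑_{j≤k} C(m, j + 1) = SB m (k + 1) - 1`; induction on `m` directly: `SB 0 (k+1) = 1`,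
`SB (m + 1) (k + 1) = SB m (k + 1) + SB m k` (Pascal). (3), (4): `Nat.choose_le_choose`,
`Finset.sum_le_sum_of_subset`. -/
def s_RKS : Prop :=
  (∀ (G : ℕ) (N : Finset (Fin G)) (g : ℕ → ℝ),
    ∑ p ∈ N, g ((N.filter fun q => q < p).card) = ∑ t ∈ range N.card, g t) ∧
  (∀ m k : ℕ, 1 + ∑ t ∈ range m, SB t k = SB m (k + 1)) ∧
  (∀ m m' k : ℕ, m ≤ m' → SB m k ≤ SB m' k) ∧
  (∀ m k k' : ℕ, k ≤ k' → SB m k ≤ SB m k') ∧
  (∀ m k : ℕ, 1 ≤ SB m k) ∧ ∀ m : ℕ, SB m 0 = 1

/-- WDC (250 lines). Hypothesis `s_DEP`. Expansion of a top gate down to the NOT gates.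
Proof. Strong induction on `i`. For a gate `p` which is not top `W p = 0`. Write `v j = R (C.val j x)`.
Leaf: `3 * card ≤ 2 * n`, so it is not top.
`C.node i = neg a`: `W i = 1`, the others `0` (`loc' i = v i`).
`C.node i = or a b`: `v i = v a + v b` by determinism. If `a` is top take its `Wa`, else `Wa = 0`; the same
for `b`. `W p = Wa p + Wb p` for `p ≠ i`, `W i = 1` (`Wa i = Wb i = 0` as `i ≤ a` is false, `acyc`);
`loc' i = loc i` = the sum of the values of the children which are not top.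
`C.node i = and a b`: `v i = v a * v b`. Not both `a` and `b` are top: the sets `vars a`, `vars b` are
disjoint with more than `2n/3` elements each, but `card ≤ n` (`n ≥ 2`). If `a` is top: `W p = v b * Wa p` for
`p ≠ i`, `W i = 1`, `loc' i = loc i = 0`. The same if `b` is top. If none is top: `W i = 1`, the others
`0`, `loc i = v i`.
Properties carried through the induction: the formula; `0 ≤ W p x`; `W p x * v p x ≤ v i x` (OR: `Wa p v p
+ Wb p v p ≤ v a + v b`; AND: `v b * (Wa p v p) ≤ v b * v a`; for `p = i` equality); the support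
property (`h` monotone along the wires gives `h p ≤ h a ≤ h i`); the dependence: for AND with `a` top and
`Wa p ≠ 0`: `vars p ⊆ vars a` and `vars b` is disjoint from `vars a`, so `v b` (`s_DEP`) depends only on
variables outside `vars p` (if `Wa p = 0` nothing is to be shown).
Finally `W p x ≤ 1`: clear if `W p = 0`; else `p` is top, so there is `x0` with `v p x0 = 1`; let `x'` be
`x0` on `vars p` and `x` outside: `W p x = W p x'` (dependence), `v p x' = 1` (`s_DEP`), and
`W p x' * 1 ≤ v i x' ≤ 1`. -/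
def s_WDC : Prop := s_DEP → ∀ (n G : ℕ) (C : DD n G), 2 ≤ n → ∀ i, C.Top i →
  ∃ W : Fin G → (Fin n → Bool) → ℝ,
    (∀ x, R (C.val i x) = ∑ p, W p x * C.loc' p x) ∧
    (∀ p x, 0 ≤ W p x) ∧ (∀ p x, W p x ≤ 1) ∧
    (∀ p, (∃ x, W p x ≠ 0) → C.Top p ∧ p ≤ i ∧ C.vars p ⊆ C.vars i ∧
      ∀ h : Fin G → ℕ, (∀ j a, (C.node j).In a → h a ≤ h j) → h p ≤ h i) ∧
    ∀ p, DepOn (C.vars p)ᶜ (W p)

open Classical in
/-- CHN (250 lines). Hypotheses `s_WDC` (applied to `s_DEP`), `s_RKS`. Expansion down to local terms.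
Proof. Strong induction on `i`. Take `W` for `i` from WDC. Let `N` be the set of the NOT gates `p = neg a`
with `C.Neg p`, `p ≤ i`. A NOT gate `p` which is top is in `N` if `p ≤ i`. For a top NOT gate `p = neg a`:
`v p = 1 - v a` and (`vars p = vars a`) either `a` is top, and then by the induction hypothesis
(`a < p ≤ i`) `v a = ∑ q, E p q * loc q`, or `a` is never true, `v a = 0`, put `E p = 0`; for all other
`p` put `E p = 0`. `loc p = 1` for NOT gates. So `v i = ∑ p, W p * loc' p = ∑ p, W p * loc p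
- ∑_{p NOT} W p * ∑ q, E p q * loc q`, i.e. `D q = W q - ∑_{p ∈ N} W p * E p q`. (For `p` with `W p ≠ 0`
not a NOT gate `loc' p = loc p`.) Support and dependence: if `W p x * E p q x ≠ 0` then `vars q ⊆ vars a =
vars p ⊆ vars i`; `W p` depends on variables outside `vars p ⊇ vars q`, `E p q` outside `vars q`.
Bound. Let `m = N.card`. If `W p ≠ 0` for a `p ∈ N`, `p = neg a`, then `h a + 1 ≤ h p ≤ h i`, so
`h i ≥ 1`, and `#{q ≤ a, Neg q} ≤ #{q ∈ N, q < p}`. So `|W p * E p q| ≤ SB (#{q ∈ N, q < p}) (h i - 1)` by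
the induction hypothesis and monotonicity, and `|D q| ≤ 1 + ∑_{p ∈ N} SB (rank p) (h i - 1)
= 1 + ∑_{t < m} SB t (h i - 1) = SB m (h i)` by RKS if `h i ≥ 1`; if `h i = 0` all terms of the sum vanish
and `|D q| ≤ 1 ≤ SB m 0`. -/
def s_CHN : Prop := s_DEP → s_WDC → s_RKS → ∀ (n G : ℕ) (C : DD n G), 2 ≤ n →
  ∀ h : Fin G → ℕ, C.Height h → ∀ i, C.Top i →
  ∃ D : Fin G → (Fin n → Bool) → ℝ,
    (∀ x, R (C.val i x) = ∑ p, D p x * C.loc p x) ∧
    (∀ p, (∃ x, D p x ≠ 0) → C.Top p ∧ C.vars p ⊆ C.vars i) ∧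
    (∀ p, DepOn (C.vars p)ᶜ (D p)) ∧
    ∀ p x, |D p x| ≤ (SB ((univ.filter fun q => C.Neg q ∧ q ≤ i).card) (h i) : ℝ)

/-- TRE (220 lines). Hypothesis `s_DEP`. The same for tree-like circuits.
Proof. Let `Below i p` be `Relation.ReflTransGen (fun p j => (C.node j).In p) p i`. Strong induction on
`i`, with the additional property: `D p ≠ 0` implies `Below i p`. As in WDC, but now the expansion
goes through the NOT gates: `C.node i = neg a`: `loc i = 1`; if `a` is top, `D p = - Da p` for `p ≠ i`,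
`D i = 1`; if `a` is not top it is never true (`vars i = vars a`), `D i = 1`, the others `0`. OR: `D p =
Da p + Db p` (with `Da = 0` if `a` is not top), `D i = 1`; `a ≠ b`, and `Da p`, `Db p` are not both `≠ 0`:
otherwise `Below a p`, `Below b p`, and as the relation `In` (child to parent) is right unique
(`C.Tree`), `Relation.ReflTransGen.total_of_right_unique` gives `Below a b` or `Below b a`, say
`Below a b`; as `a ≠ b` the first step from `b` goes to a parent `j` of `b`, so `j = i`, and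
`Below a i`, so `i ≤ a`, a contradiction to `acyc`. AND: as in WDC, `|v b * Da p| ≤ 1`. Support and
dependence as in WDC. -/
def s_TRE : Prop := s_DEP → ∀ (n G : ℕ) (C : DD n G), 2 ≤ n → C.Tree → ∀ i, C.Top i →
  ∃ D : Fin G → (Fin n → Bool) → ℝ,
    (∀ x, R (C.val i x) = ∑ p, D p x * C.loc p x) ∧
    (∀ p, (∃ x, D p x ≠ 0) → C.Top p ∧ C.vars p ⊆ C.vars i) ∧
    (∀ p, DepOn (C.vars p)ᶜ (D p)) ∧ ∀ p x, |D p x| ≤ 1

/-- SUP (50 lines). Choice of a balanced cut.
Proof. (1) Let `V ⊆ U`, `3 |V| ≤ 2n`, `3 |U| > 2n`, `n ≥ 2`. Let `c = max |V| ((n + 2) / 3)`: `|V| ≤ c ≤ |U|`,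
`n ≤ 3 c ≤ 2 n`; `Finset.exists_subsuperset_card_eq`. (2) the same with `U = univ`. -/
def s_SUP : Prop := ∀ n : ℕ, 2 ≤ n → ∀ V : Finset (Fin n), 3 * V.card ≤ 2 * n →
  (∀ U : Finset (Fin n), V ⊆ U → 2 * n < 3 * U.card →
    ∃ S : Finset (Fin n), V ⊆ S ∧ S ⊆ U ∧ n ≤ 3 * S.card ∧ 3 * S.card ≤ 2 * n) ∧
  ∃ S : Finset (Fin n), V ⊆ S ∧ n ≤ 3 * S.card ∧ 3 * S.card ≤ 2 * n

/-- CUT (180 lines). Hypotheses `s_DEP`, `s_SUP`. The terms are products over balanced cuts.
Proof. First part. `D` depends only on variables outside `vars p`, where `3 |vars p| > 2n`.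
`C.node p = leaf`: not top, no such `p`. `neg a`: `loc = 1`; take `S ⊆ vars p` from SUP (with `V = ∅`),
`a = 1`, `b = D`; second term `0` (a product with `a = 0`). `or a b`: the two terms are `D * v a` (or `0`)
and `D * v b` (or `0`). For a child `a` which is not top: if it is never true the term is `0`; else
`3 |vars a| ≤ 2n`, `vars a ⊆ vars p`, SUP gives `S` with `vars a ⊆ S ⊆ vars p`: the product of `v a` (depends
on `S`, by `s_DEP`) and `D` (depends on the complement of `vars p`, so on the complement of `S`).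
`and a b`: if `a` or `b` is top, `loc = 0`. Else: `p` is satisfiable (top), so `a` and `b` are, so
`3 |vars a|, 3 |vars b| ≤ 2n`, and `|vars a| + |vars b| = |vars p|`, so one of them, say `vars a`, has
`n ≤ 3 |vars a|`: `S = vars a`, the product of `v a` and `D * v b` (`vars b` is disjoint from `vars a`).
Zero function: `S` from SUP (2) with `V = ∅`, `a = 0`, `b = 0` (`0 ≤ B`).
Second part (output gate which is not top): if it is never true it is the zero function; else
`3 |vars i| ≤ 2n`, `S ⊇ vars i` from SUP (2), `a = v i`, `b = 1`. -/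
def s_CUT : Prop := s_DEP → s_SUP → ∀ (n G : ℕ) (C : DD n G), 2 ≤ n →
  (∀ (p : Fin G) (D : (Fin n → Bool) → ℝ) (B : ℝ), C.Top p → DepOn (C.vars p)ᶜ D →
    (∀ x, |D x| ≤ B) → ∃ F₁ F₂ : (Fin n → Bool) → ℝ, CutP B F₁ ∧ CutP B F₂ ∧
      ∀ x, D x * C.loc p x = F₁ x + F₂ x) ∧
  ∀ i, ¬C.Top i → CutP 1 fun x => R (C.val i x)

/-! ### Sparse quadratic forms with small correlation with all balanced cuts -/

/-- QSP (80 lines). The quadratic form along a cut.
Proof. `row φ S i y` for `i ∈ S`, `y ∉ S` is the number (mod 2) of the `t` with `φ i t = y` plus the number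
of the `t` with `φ y t = i`, and `0` for `y ∈ S`. Split `∑ i, ∑ t, z (x i) * z (x (φ i t))`
(= `∑ i, ∑ y, c i y z (x i) z (x y)`, `c i y` = number of the `t` with `φ i t = y`) according to `i ∈ S` or not,
`y ∈ S` or not: the part with both in `S` is `A x`, the part with both outside is `B x`, the two mixed
parts give the bilinear term (exchange the names `i`, `y` in one of them). -/
def s_QSP : Prop := ∀ (n d : ℕ) (φ : Fin n → Fin d → Fin n) (S : Finset (Fin n)),
  ∃ A B : (Fin n → Bool) → ZMod 2,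
    (∀ x y : Fin n → Bool, (∀ v ∈ S, x v = y v) → A x = A y) ∧
    (∀ x y : Fin n → Bool, (∀ v ∈ Sᶜ, x v = y v) → B x = B y) ∧
    ∀ x, qf φ x = A x + B x + ∑ i ∈ S, z (x i) * ∑ y, row φ S i y * z (x y)

/-- LND (220 lines). Hypothesis `s_QSP`. Lindsey's lemma with the size of the kernel.
Proof. Write `x = (y, w)`, `y` on `S`, `w` on `Sᶜ` (e.g. `Equiv.piEquivPiSubtypeProd` or `Fintype.sum`
over pairs of functions `y w : Fin n → Bool` which are `false` outside `S`, resp. on `S`). By QSP
`T φ x = s(A) s(B) s(∑ i ∈ S, z (y i) * L_i w)`, `s 0 = 1`, `s 1 = -1`, so with `a' = a s(A)`, `b' = b s(B)` (again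
bounded by `1`) `∑ = ∑_y a' y ∑_w b' w s(⟨y, L w⟩)`. Cauchy-Schwarz: `(∑)² ≤ 2^|S| ∑_y (∑_w b' w s(⟨y, L w⟩))²
= 2^|S| ∑_{w, w'} b' w b' w' ∑_y s(⟨y, L w + L w'⟩)`, the inner sum is `2^|S|` if `L_i w + L_i w' = 0` for all
`i ∈ S`, else `0` (flip one coordinate of `y`); for given `w` the number of such `w'` is at most
`kc φ S` (`u = z w + z w'`). So `(∑)² ≤ 4^|S| 2^(n-|S|) kc`, and
`(∑)² 2^r ≤ 4^|S| 2^(n-|S|) 2^(n-|S|) = 4^n`. -/
def s_LND : Prop := s_QSP → ∀ (n d r : ℕ) (φ : Fin n → Fin d → Fin n) (S : Finset (Fin n))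
  (a b : (Fin n → Bool) → ℝ), DepOn S a → DepOn Sᶜ b → (∀ x, |a x| ≤ 1) → (∀ x, |b x| ≤ 1) →
  kc φ S * 2 ^ r ≤ 2 ^ (n - S.card) → (∑ x, T φ x * (a x * b x)) ^ 2 * 2 ^ r ≤ 4 ^ n

/-- KER (100 lines). The kernel and independent rows.
Proof. Let `K` be the space of the `u : Fin n → ZMod 2` with `u = 0` on `S`, dimension `n - |S|`. The map
`K → (R → ZMod 2)`, `u ↦ (∑ y, row φ S i y * u y)_{i ∈ R}` is surjective: otherwise a nonzero functional
`(c_i)` vanishes on the image, so `∑ y, (∑ i, c_i row φ S i y) u y = 0` for all `u ∈ K`; the vector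
`∑ c_i row φ S i` is `0` on `S` (definition of `row`), so it is in `K`, taking unit vectors `u = e_y`, `y ∉ S`, it
is `0`, a contradiction to independence. So its kernel has `2^(n-|S|-|R|)` elements, and contains the
set counted by `kc φ S`. -/
def s_KER : Prop := ∀ (n d : ℕ) (φ : Fin n → Fin d → Fin n) (S R : Finset (Fin n)), R ⊆ S →
  LinearIndependent (ZMod 2) (fun i : R => row φ S i) → kc φ S * 2 ^ R.card ≤ 2 ^ (n - S.card)

/-- SPN (50 lines). Small rank.
Proof. Take `R ⊆ S` with independent rows and `R.card` maximal (`R.card ≤ r` by hypothesis: an independent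
subfamily of size `> r` contains one of size `r + 1`); if a row `i ∈ S` is not in the span of the rows of
`R`, then `i ∉ R` and `insert i R` is independent (`LinearIndependent` of `insert`/`Option`, or
`linearIndepOn_insert`), a contradiction. -/
def s_SPN : Prop := ∀ (n r : ℕ) (f : Fin n → Fin n → ZMod 2) (S : Finset (Fin n)),
  (∀ R : Finset (Fin n), R ⊆ S → R.card = r + 1 →
    ¬LinearIndependent (ZMod 2) (fun i : R => f i)) →
  ∃ R : Finset (Fin n), R ⊆ S ∧ R.card ≤ r ∧
    ∀ i ∈ S, f i ∈ Submodule.span (ZMod 2) (f '' (R : Set (Fin n)))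

open Classical in
/-- ROW (150 lines). Few choices of the out-neighbours of a vertex give a row in a given affine space.
Proof. `own S ψ` is the sum over the `t` with `ψ t ∉ S` of the unit vectors `e_(ψ t)`. The `ψ` with
`ψ t ∈ S` for all `t` are `|S|^d` many. For the others there is `t₀` with `ψ t₀ ∉ S`. For fixed `t₀` and
fixed values of `ψ` at the other places (`n^(d-1)` choices) the values `y = ψ t₀ ∉ S` satisfy
`e_y + c' ∈ U` for a fixed `c'`; there are at most `r + 1` such `y`: if `y_0, …, y_(r+1)` are different, the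
`e_(y_j) - e_(y_0)`, `1 ≤ j ≤ r + 1`, are in `U` and linearly independent, but `finrank U ≤ r`. -/
def s_ROW : Prop := ∀ (n d r : ℕ) (S : Finset (Fin n)) (c : Fin n → ZMod 2)
  (U : Submodule (ZMod 2) (Fin n → ZMod 2)), Module.finrank (ZMod 2) U ≤ r →
  (univ.filter fun ψ : Fin d → Fin n => own S ψ + c ∈ U).card ≤
    S.card ^ d + d * ((r + 1) * n ^ (d - 1))

open Classical in
/-- FIB (80 lines). Counting functions coordinate by coordinate.
Proof. The value of `ψ` outside `A` determines the sets of the allowed values at the `i ∈ A`, each has at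
most `M` elements; there are `|β|^(|ι| - |A|)` restrictions to the complement of `A`. Formally: sum over
`ψ' : {i // i ∉ A} → β` of the number of the `ψ'' : {i // i ∈ A} → β` (`Equiv.piEquivPiSubtypeProd`,
`Fintype.card_piFinset` or `Finset.card_pi`), or induction on `A`. -/
def s_FIB : Prop := ∀ (ι β : Type) [Fintype ι] [Fintype β] (A : Finset ι) (M : ℕ)
  (Q : (ι → β) → ι → β → Prop),
  (∀ ψ ψ' : ι → β, (∀ i, i ∉ A → ψ i = ψ' i) → ∀ i b, Q ψ i b → Q ψ' i b) →
  (∀ ψ, ∀ i ∈ A, (univ.filter fun b => Q ψ i b).card ≤ M) →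
  (univ.filter fun ψ : ι → β => ∀ i ∈ A, Q ψ i (ψ i)).card ≤
    M ^ A.card * Fintype.card β ^ (Fintype.card ι - A.card)

open Classical in
/-- BAD (150 lines). Hypotheses `s_ROW`, `s_FIB`. For a given cut and a given small set of rows.
Proof. `A = S \ R`, `β = Fin 18 → Fin n`, `Q φ i ψ`: `own S ψ + c_i ∈ U` with
`c_i = fun y => if y ∈ S then 0 else ∑ t, if φ y t = i then 1 else 0` (depends on `φ` outside `S`) and
`U = span (row φ S '' R)` (depends on the `φ j`, `j ∈ R` or `j ∉ S`): both depend only on `φ` outside `A`.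
`row φ S i = own S (φ i) + c_i`. ROW with `finrank U ≤ R.card ≤ r` (`finrank_span_le_card` or
`finrank_span_finset_le_card`), `M = |S|^18 + 18 (r+1) n^17`. `512 M ≤ n^18`: `3^18 |S|^18 ≤ 2^18 n^18` and
`1024 · 2^18 ≤ 3^18` give `1024 |S|^18 ≤ n^18`; `1024 · 18 (r + 1) ≤ n`. So the number is at most
`M^|A| (n^18)^(n-|A|)`, times `512^|A|` at most `(n^18)^n`. -/
def s_BAD : Prop := s_ROW → s_FIB → ∀ (n r : ℕ) (S R : Finset (Fin n)), R ⊆ S → R.card ≤ r →
  3 * S.card ≤ 2 * n → 18432 * (r + 1) ≤ n →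
  (univ.filter fun φ : Fin n → Fin 18 → Fin n => ∀ i ∈ S \ R,
    row φ S i ∈ Submodule.span (ZMod 2) (row φ S '' (R : Set (Fin n)))).card *
      512 ^ (S.card - R.card) ≤ (n ^ 18) ^ n

/-- EXI (120 lines). Hypotheses `s_SPN`, `s_ROW`, `s_FIB`, `s_BAD`. Existence.
Proof. Otherwise for each `φ` there is a balanced `S` without `r + 1` independent rows, so by SPN an
`R ⊆ S`, `R.card ≤ r`, such that all rows are in the span: `φ` is in the set of BAD for `(S, R)`. So the
number `(n^18)^n` of all `φ` is at most the sum over the pairs `(S, R)` (`≤ 4^n` pairs) of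
`(n^18)^n / 512^(|S|-|R|)`; as `3 |S| ≥ n`, `|R| ≤ r`, `9 (|S| - |R|) ≥ 3 n - 9 r ≥ 2 n + 1`, so
`512^(|S|-|R|) = 2^(9 (|S|-|R|)) ≥ 2 · 4^n`: the sum is at most half of `(n^18)^n`, a contradiction. -/
def s_EXI : Prop := s_SPN → s_ROW → s_FIB → s_BAD → ∀ n r : ℕ, 18432 * (r + 1) ≤ n →
  ∃ φ : Fin n → Fin 18 → Fin n, ∀ S : Finset (Fin n), n ≤ 3 * S.card → 3 * S.card ≤ 2 * n →
    ∃ R : Finset (Fin n), R ⊆ S ∧ R.card = r + 1 ∧
      LinearIndependent (ZMod 2) (fun i : R => row φ S i)

/-! ### The CNF -/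

/-- CNF (120 lines). A local condition as a CNF.
Proof. For each `α : Fin n → Bool` which is `false` outside `U` (`2^|U|` of them, e.g. indicators of the
subsets of `U`) such that `P α` is false take the clause `{(v, !(α v)) | v ∈ U}`. If `x` violates this
clause, `x = α` on `U`, so `P x ↔ P α` is false; if `P x` is false, the clause of
`α = (x on U, false outside)` is violated. -/
def s_CNF : Prop := ∀ (n : ℕ) (U : Finset (Fin n)) (P : (Fin n → Bool) → Prop),
  (∀ x y : Fin n → Bool, (∀ v ∈ U, x v = y v) → (P x ↔ P y)) →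
  ∃ F : CNF n, (∀ c ∈ F, c.card ≤ U.card) ∧ F.card ≤ 2 ^ U.card ∧ ∀ x, F.Sat x ↔ P x

open Classical in
/-- FRM (150 lines). Hypothesis `s_CNF`. The formula.
Proof. Blocks `j < m = n / b + 1`: `i` belongs to block `i / b`, at most `b` variables. `q_j x = ∑_{i in block
j} ∑ t, z (x i) * z (x (φ i t))` depends on `U_j` = block `j` and its out-neighbours, `|U_j| ≤ b (d + 1)`, and
`qf φ x = ∑ j, q_j x`. By the pigeonhole principle (`Fintype.exists_le_card_fiber_of_mul_le_card` or
sum over the fibres of `x ↦ (q_j x)_j ∈ (Fin m → ZMod 2)`) there is `e` such that `q_j x = e_j` for all `j`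
has at least `2^n / 2^m` solutions. `F` = union of the CNFs (CNF) of the conditions `q_j x = e_j`. On the
solutions `qf φ x = ∑ e_j` is constant. -/
def s_FRM : Prop := s_CNF → ∀ (n d b : ℕ) (φ : Fin n → Fin d → Fin n), 0 < b →
  ∃ (F : CNF n) (σ : ℝ), (∀ c ∈ F, c.card ≤ b * (d + 1)) ∧
    F.card ≤ (n / b + 1) * 2 ^ (b * (d + 1)) ∧ (σ = 1 ∨ σ = -1) ∧ (∀ x, F.Sat x → T φ x = σ) ∧
    2 ^ n ≤ 2 ^ (n / b + 1) * (univ.filter fun x => F.Sat x).card

end Pool.Agent.POG
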